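import Pool.Agent.Lib.MP_0430e4_lc.QB.LIM

/-!
# The quantum bound for a general symmetric involution
-/

set_option autoImplicit false
set_option linter.unusedSectionVars false

namespace Pool.Agent.Lib.MP_0430e4_lc.QB

open Finset Tensor Matrix

variable {κ : Type*} [Fintype κ] [DecidableEq κ]

/-- spectral theorem for real symmetric matrices -/
theorem exists_diag {A : Matrix κ κ ℝ} (hA : Aᵀ = A) :
    ∃ (W : Matrix κ κ ℝ) (d : κ → ℝ), W * Wᵀ = 1 ∧ Wᵀ * W = 1 ∧
      A = W * Matrix.diagonal d * Wᵀ := by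
  have h : A.IsHermitian := by
    rw [Matrix.IsHermitian, Matrix.conjTranspose_eq_transpose_of_trivial]
    exact hA
  have hs := h.spectral_theorem
  refine ⟨(h.eigenvectorUnitary : Matrix κ κ ℝ), h.eigenvalues, ?_, ?_, ?_⟩
  · have h2 := Unitary.coe_mul_star_self h.eigenvectorUnitary
    rwa [Unitary.coe_star, Matrix.star_eq_conjTranspose,
      Matrix.conjTranspose_eq_transpose_of_trivial] at h2
  · have h2 := Unitary.coe_star_mul_self h.eigenvectorUnitary
    rwa [Matrix.star_eq_conjTranspose, Matrix.conjTranspose_eq_transpose_of_trivial] at h2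
  · conv_lhs => rw [hs]
    simp [Unitary.conjStarAlgAut_apply, Matrix.star_eq_conjTranspose,
      Matrix.conjTranspose_eq_transpose_of_trivial, Function.comp_def]

theorem diag_unique_mul {W : Matrix κ κ ℝ} (h : Wᵀ * W = 1) {A : Matrix κ κ ℝ}
    {d : κ → ℝ} (hA : A = W * Matrix.diagonal d * Wᵀ) : Wᵀ * A * W = Matrix.diagonal d := by
  rw [hA]
  calc Wᵀ * (W * Matrix.diagonal d * Wᵀ) * W
      = (Wᵀ * W) * Matrix.diagonal d * (Wᵀ * W) := by simp only [Matrix.mul_assoc]
    _ = _ := by rw [h, Matrix.one_mul, Matrix.mul_one]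

/-- diagonalisation of an involution -/
theorem exists_diag_invol {U : Matrix κ κ ℝ} (hU : Uᵀ = U) (hU2 : U * U = 1) :
    ∃ (W : Matrix κ κ ℝ) (ε : κ → Bool), W * Wᵀ = 1 ∧ Wᵀ * W = 1 ∧
      U = W * Matrix.diagonal (fun j => if ε j = true then (-1 : ℝ) else 1) * Wᵀ := by
  obtain ⟨W, d, h1, h2, h3⟩ := exists_diag hU
  have h4 := diag_unique_mul h2 h3
  have h5 : Matrix.diagonal d * Matrix.diagonal d = (1 : Matrix κ κ ℝ) := by
    rw [← h4]
    calc Wᵀ * U * W * (Wᵀ * U * W) = Wᵀ * (U * (W * Wᵀ) * U) * W := by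
          simp only [Matrix.mul_assoc]
      _ = 1 := by rw [h1, Matrix.mul_one, hU2, Matrix.mul_one, h2]
  rw [Matrix.diagonal_mul_diagonal] at h5
  have h6 : ∀ j, d j * d j = 1 := by
    intro j
    have := congrFun (congrFun h5 j) j
    simpa using this
  refine ⟨W, fun j => decide (d j = -1), h1, h2, ?_⟩
  rw [h3]
  congr 3
  funext j
  rcases mul_self_eq_one_iff.1 (h6 j) with h | h
  · rw [if_neg (by rw [decide_eq_true_eq, h]; norm_num), h]
  · rw [if_pos (by rw [decide_eq_true_eq, h]), h]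

theorem trace_diag_conj {ε : κ → Bool} {S : Matrix κ κ ℝ} (hS : Sᵀ = S) :
    (S * Matrix.diagonal (fun j => if ε j = true then (-1 : ℝ) else 1) * S
      * Matrix.diagonal (fun j => if ε j = true then (-1 : ℝ) else 1)).trace
      = ∑ i, ∑ j, (if ε i = true then (-1 : ℝ) else 1) * (if ε j = true then (-1 : ℝ) else 1)
        * S i j ^ 2 := by
  rw [Matrix.trace]
  apply Finset.sum_congr rfl
  intro i _
  rw [Matrix.diag_apply, Matrix.mul_diagonal, Matrix.mul_apply, Finset.sum_mul]
  apply Finset.sum_congr rfl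
  intro j _
  rw [Matrix.mul_diagonal]
  have : S j i = S i j := by
    conv_rhs => rw [← hS]
    rfl
  rw [this]
  ring

theorem bool_avg (a b : Bool) (t : ℝ) : (if a = b then t else 0)
    = 1 / 2 * (t + (if a = true then (-1 : ℝ) else 1) * t * (if b = true then (-1 : ℝ) else 1)) := by
  cases a <;> cases b <;> simp <;> ring

theorem quantum_bound_U {κ₁ κ₂ : Type*} [Fintype κ₁] [DecidableEq κ₁] [Fintype κ₂]
    [DecidableEq κ₂] {U S : Matrix κ κ ℝ} (hU : Uᵀ = U) (hU2 : U * U = 1) (hS : Sᵀ = S)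
    {V₁ : Matrix κ κ₁ ℝ} (hV1 : V₁ * V₁ᵀ = 1) (hV1' : V₁ᵀ * V₁ = 1) {x : κ₁ → ℝ}
    (hx : ∀ i, 0 ≤ x i) (hx1 : ∑ i, x i = 1) (hX : S * S = V₁ * Matrix.diagonal x * V₁ᵀ)
    {V₂ : Matrix κ κ₂ ℝ} (hV2 : V₂ * V₂ᵀ = 1) (hV2' : V₂ᵀ * V₂ = 1) {y : κ₂ → ℝ}
    (hy : ∀ i, 0 ≤ y i)
    (hB : (1 / 2 : ℝ) • (S * S + U * (S * S) * U) = V₂ * Matrix.diagonal y * V₂ᵀ)
    {δ : ℝ} (hδ : 0 < δ) (hs : 1 - 2 * δ ≤ (S * U * S * U).trace) :
    ell δ ≤ 1 - (∑ i, Real.negMulLog (y i) - ∑ i, Real.negMulLog (x i)) / Real.log 2 := by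
  obtain ⟨W, ε, hW1, hW2, hUW⟩ := exists_diag_invol hU hU2
  set D := Matrix.diagonal (fun j => if ε j = true then (-1 : ℝ) else 1) with hD
  have hDD : D * D = 1 := by
    rw [hD, Matrix.diagonal_mul_diagonal, ← Matrix.diagonal_one]
    congr 1
    funext j
    split_ifs <;> norm_num
  -- cardinalities
  have c1 : Fintype.card κ₁ = Fintype.card κ := by
    have e1 := Matrix.trace_mul_comm V₁ V₁ᵀ
    rw [hV1, hV1', Matrix.trace_one, Matrix.trace_one] at e1
    exact_mod_cast e1.symm
  have c2 : Fintype.card κ₂ = Fintype.card κ := by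
    have e1 := Matrix.trace_mul_comm V₂ V₂ᵀ
    rw [hV2, hV2', Matrix.trace_one, Matrix.trace_one] at e1
    exact_mod_cast e1.symm
  set k := Fintype.card κ with hk
  set e : κ ≃ Fin k := Fintype.equivFin κ
  set e1 : κ₁ ≃ Fin k := Fintype.equivFinOfCardEq c1
  set e2 : κ₂ ≃ Fin k := Fintype.equivFinOfCardEq c2
  set S' : Matrix κ κ ℝ := Wᵀ * S * W with hS'
  have hS't : S'ᵀ = S' := by
    rw [hS', Matrix.transpose_mul, Matrix.transpose_mul, Matrix.transpose_transpose, hS,
      Matrix.mul_assoc]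
  have hSS : S' * S' = Wᵀ * (S * S) * W := by
    rw [hS']
    calc Wᵀ * S * W * (Wᵀ * S * W) = Wᵀ * (S * (W * Wᵀ) * S) * W := by
          simp only [Matrix.mul_assoc]
      _ = _ := by rw [hW1, Matrix.mul_one]
  -- the data
  have q := quantum_bound (k := k) (fun j => ε (e.symm j))
    (S := S'.submatrix e.symm e.symm)
    (O1 := (Wᵀ * V₁).submatrix e.symm e1.symm)
    (O2 := (Wᵀ * V₂).submatrix e.symm e2.symm)
    (lam := fun j => x (e1.symm j)) (mu := fun j => y (e2.symm j))
    (by rw [Matrix.transpose_submatrix, hS't])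
    (by
      rw [Matrix.transpose_submatrix, Matrix.submatrix_mul_equiv, Matrix.transpose_mul,
        Matrix.transpose_transpose]
      have : Wᵀ * V₁ * (V₁ᵀ * W) = 1 := by
        calc Wᵀ * V₁ * (V₁ᵀ * W) = Wᵀ * (V₁ * V₁ᵀ) * W := by simp only [Matrix.mul_assoc]
          _ = 1 := by rw [hV1, Matrix.mul_one, hW2]
      rw [this, Matrix.submatrix_one_equiv])
    (by
      rw [Matrix.transpose_submatrix, Matrix.submatrix_mul_equiv, Matrix.transpose_mul,
        Matrix.transpose_transpose]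
      have : Wᵀ * V₂ * (V₂ᵀ * W) = 1 := by
        calc Wᵀ * V₂ * (V₂ᵀ * W) = Wᵀ * (V₂ * V₂ᵀ) * W := by simp only [Matrix.mul_assoc]
          _ = 1 := by rw [hV2, Matrix.mul_one, hW2]
      rw [this, Matrix.submatrix_one_equiv])
    (fun j => hx _) (fun j => hy _)
    (by rw [Equiv.sum_comp e1.symm x, hx1])
    (by
      have h1 : Matrix.diagonal (fun j => x (e1.symm j))
          = (Matrix.diagonal x).submatrix e1.symm e1.symm := by
        rw [Matrix.submatrix_diagonal_equiv]
        rfl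
      rw [h1, Matrix.transpose_submatrix, Matrix.submatrix_mul_equiv, Matrix.submatrix_mul_equiv,
        Matrix.submatrix_mul_equiv, hSS, hX, Matrix.transpose_mul, Matrix.transpose_transpose]
      simp only [Matrix.mul_assoc])
    (by
      have h1 : Matrix.diagonal (fun j => y (e2.symm j))
          = (Matrix.diagonal y).submatrix e2.symm e2.symm := by
        rw [Matrix.submatrix_diagonal_equiv]
        rfl
      have h2 : (1 / 2 : ℝ) • (S' * S' + D * (S' * S') * D)
          = Wᵀ * V₂ * Matrix.diagonal y * (Wᵀ * V₂)ᵀ := by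
        have h3 : D * (S' * S') * D = Wᵀ * (U * (S * S) * U) * W := by
          rw [hSS, hUW]
          calc D * (Wᵀ * (S * S) * W) * D
              = (Wᵀ * W) * D * Wᵀ * (S * S) * W * D * (Wᵀ * W) := by
                rw [hW2, Matrix.one_mul, Matrix.mul_one]
                simp only [Matrix.mul_assoc]
            _ = _ := by simp only [Matrix.mul_assoc]
        rw [h3, hSS, ← Matrix.add_mul, ← Matrix.mul_add, ← Matrix.smul_mul, ← Matrix.mul_smul, hB,
          Matrix.transpose_mul, Matrix.transpose_transpose]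
        simp only [Matrix.mul_assoc]
      rw [h1, Matrix.transpose_submatrix, Matrix.submatrix_mul_equiv, Matrix.submatrix_mul_equiv,
        Matrix.submatrix_mul_equiv, ← h2]
      ext i j
      simp only [blk, Matrix.of_apply, Matrix.submatrix_apply, Matrix.smul_apply, Matrix.add_apply,
        smul_eq_mul]
      rw [hD, Matrix.mul_diagonal, Matrix.diagonal_mul]
      exact bool_avg _ _ _)
    hδ
    (by
      refine le_trans hs (le_of_eq ?_)
      have h1 : (S * U * S * U).trace = (S' * D * S' * D).trace := by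
        rw [hUW, hS']
        calc (S * (W * D * Wᵀ) * S * (W * D * Wᵀ)).trace
            = ((S * (W * D * Wᵀ) * S * (W * D)) * Wᵀ).trace := by simp only [Matrix.mul_assoc]
          _ = (Wᵀ * (S * (W * D * Wᵀ) * S * (W * D))).trace := Matrix.trace_mul_comm _ _
          _ = _ := by simp only [Matrix.mul_assoc]
      rw [h1, hD, trace_diag_conj hS't]
      unfold sS sgn
      rw [← Equiv.sum_comp e.symm]
      apply Finset.sum_congr rfl
      intro i _
      rw [← Equiv.sum_comp e.symm]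
      rfl)
  refine le_trans q (le_of_eq ?_)
  unfold Hn
  rw [Equiv.sum_comp e1.symm (fun i => Real.negMulLog (x i)),
    Equiv.sum_comp e2.symm (fun i => Real.negMulLog (y i))]

end Pool.Agent.Lib.MP_0430e4_lc.QB
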