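import Pool.Agent.Lib.MP_0430e4_lc.QB.FbDef

/-!
# The bracket attains its infimum
-/

set_option autoImplicit false

namespace Pool.Agent.Lib.MP_0430e4_lc.QB

open Set

/-- `g x = H (1/2 - 1/2 sqrt (1 - x))` -/
noncomputable def gB (x : ℝ) : ℝ := Real.binEntropy (1 / 2 - 1 / 2 * Real.sqrt (1 - x))

theorem gB_continuous : Continuous gB := by
  unfold gB
  exact Real.binEntropy_continuous.comp (by fun_prop)

/-- `2 s ≤ log ((1+s)/(1-s))` -/
theorem two_mul_le_log_div {s : ℝ} (hs0 : 0 ≤ s) (hs1 : s < 1) :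
    2 * s ≤ Real.log (1 + s) - Real.log (1 - s) := by
  have h := Real.hasSum_log_sub_log_of_abs_lt_one (x := s) (by rw [abs_of_nonneg hs0]; exact hs1)
  have h2 := h.summable.sum_le_tsum (s := {0}) (fun i _ => by positivity)
  rw [h.tsum_eq] at h2
  simpa using h2

theorem gB_hasDerivAt {x : ℝ} (hx0 : 0 < x) (hx1 : x < 1) :
    HasDerivAt gB ((Real.log (1 + Real.sqrt (1 - x)) - Real.log (1 - Real.sqrt (1 - x)))
      * (1 / (4 * Real.sqrt (1 - x)))) x := by
  set s := Real.sqrt (1 - x) with hs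
  have hs0 : 0 < s := Real.sqrt_pos.mpr (by linarith)
  have hs1 : s < 1 := by
    rw [hs, Real.sqrt_lt' one_pos]
    linarith
  have h1 : HasDerivAt (fun x : ℝ => 1 / 2 - 1 / 2 * Real.sqrt (1 - x)) (1 / (4 * s)) x := by
    have h2 : HasDerivAt (fun x : ℝ => Real.sqrt (1 - x)) ((-1) / (2 * s)) x := by
      have h3 : HasDerivAt (fun x : ℝ => 1 - x) (-1) x := by
        simpa using (hasDerivAt_id x).const_sub 1
      exact h3.sqrt (by linarith)
    have h4 := (h2.const_mul (1 / 2)).const_sub (1 / 2)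
    have e : -(1 / 2 * ((-1) / (2 * s))) = 1 / (4 * s) := by
      have : s ≠ 0 := hs0.ne'
      field_simp
      norm_num
    rw [e] at h4
    exact h4
  have h5 : HasDerivAt Real.binEntropy (Real.log (1 - (1 / 2 - 1 / 2 * s))
      - Real.log (1 / 2 - 1 / 2 * s)) (1 / 2 - 1 / 2 * Real.sqrt (1 - x)) := by
    rw [← hs]
    exact Real.hasDerivAt_binEntropy (by linarith) (by linarith)
  have h6 := h5.comp x h1
  have h7 : Real.log (1 - (1 / 2 - 1 / 2 * s)) - Real.log (1 / 2 - 1 / 2 * s)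
      = Real.log (1 + s) - Real.log (1 - s) := by
    have e1 : 1 - (1 / 2 - 1 / 2 * s) = (1 + s) / 2 := by ring
    have e2 : 1 / 2 - 1 / 2 * s = (1 - s) / 2 := by ring
    rw [e1, e2, Real.log_div (by linarith) (by norm_num), Real.log_div (by linarith) (by norm_num)]
    ring
  rw [h7] at h6
  exact h6

/-- `g` grows at least with slope `1/2` -/
theorem gB_slope {a b : ℝ} (ha : 0 ≤ a) (hab : a ≤ b) (hb : b ≤ 1) :
    (b - a) / 2 ≤ gB b - gB a := by
  have hmono : MonotoneOn (fun x => gB x - x / 2) (Icc 0 1) := by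
    apply monotoneOn_of_deriv_nonneg (convex_Icc 0 1)
    · exact (gB_continuous.sub (continuous_id.div_const 2)).continuousOn
    · rw [interior_Icc]
      intro x hx
      exact ((gB_hasDerivAt hx.1 hx.2).sub
        ((hasDerivAt_id x).div_const 2)).differentiableAt.differentiableWithinAt
    · rw [interior_Icc]
      intro x hx
      have hd := (gB_hasDerivAt hx.1 hx.2).sub ((hasDerivAt_id x).div_const 2)
      have hs0 : 0 < Real.sqrt (1 - x) := Real.sqrt_pos.mpr (by linarith [hx.2])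
      have hs1 : Real.sqrt (1 - x) < 1 := by
        rw [Real.sqrt_lt' one_pos]
        linarith [hx.1]
      have h2 := two_mul_le_log_div hs0.le hs1
      have h3 : deriv (fun x => gB x - x / 2) x =
          (Real.log (1 + Real.sqrt (1 - x)) - Real.log (1 - Real.sqrt (1 - x)))
      * (1 / (4 * Real.sqrt (1 - x))) - 1 / 2 := hd.deriv
      rw [h3]
      have h4 : (1 : ℝ) / 2 ≤ (Real.log (1 + Real.sqrt (1 - x)) - Real.log (1 - Real.sqrt (1 - x)))
      * (1 / (4 * Real.sqrt (1 - x))) := by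
        rw [mul_one_div, le_div_iff₀ (by linarith)]
        linarith
      linarith
  have h := hmono (a := a) (b := b) ⟨ha, hab.trans hb⟩ ⟨ha.trans hab, hb⟩ hab
  simp only at h
  linarith

/-- near `0` -/
theorem gB_small {u : ℝ} (hu0 : 0 < u) (hu1 : u ≤ 1) : gB (u ^ 2) ≤ 4 * (u * Real.sqrt u) + u ^ 2 := by
  set p := 1 / 2 - 1 / 2 * Real.sqrt (1 - u ^ 2) with hp
  have hu2 : u ^ 2 ≤ 1 := by nlinarith
  have hsq : Real.sqrt (1 - u ^ 2) ^ 2 = 1 - u ^ 2 := Real.sq_sqrt (by linarith)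
  have hs0 : 0 ≤ Real.sqrt (1 - u ^ 2) := Real.sqrt_nonneg _
  have hu2p : 0 < u ^ 2 := by positivity
  have hs1 : Real.sqrt (1 - u ^ 2) < 1 := by
    rw [Real.sqrt_lt' one_pos]
    linarith
  have hp0 : 0 < p := by rw [hp]; linarith
  have hp1 : p ≤ 1 / 2 := by rw [hp]; linarith
  have hpu : p ≤ u ^ 2 := by
    rw [hp]
    nlinarith
  -- quartic root
  set q := Real.sqrt (Real.sqrt p) with hq
  have hq2 : q ^ 2 = Real.sqrt p := Real.sq_sqrt (Real.sqrt_nonneg _)
  have hq4 : q ^ 4 = p := by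
    have : q ^ 4 = (q ^ 2) ^ 2 := by ring
    rw [this, hq2, Real.sq_sqrt hp0.le]
  have hq0 : 0 < q := Real.sqrt_pos.mpr (Real.sqrt_pos.mpr hp0)
  have hqu : q ^ 2 ≤ u := by
    have : (q ^ 2) ^ 2 ≤ u ^ 2 := by
      have : (q ^ 2) ^ 2 = q ^ 4 := by ring
      rw [this, hq4]
      exact hpu
    exact (pow_le_pow_iff_left₀ (by positivity) hu0.le two_ne_zero).mp this
  have hq1 : q ≤ Real.sqrt u := Real.le_sqrt_of_sq_le hqu
  have hlogp : -Real.log p = 4 * (-Real.log q) := by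
    rw [← hq4, Real.log_pow]
    push_cast
    ring
  have hlogq : -Real.log q ≤ 1 / q - 1 := by
    have := Real.log_le_sub_one_of_pos (x := 1 / q) (by positivity)
    rw [one_div, Real.log_inv] at this
    rw [one_div]
    exact this
  have h1 : p * (-Real.log p) ≤ 4 * (u * Real.sqrt u) := by
    calc p * (-Real.log p) = 4 * (q ^ 4 * (-Real.log q)) := by rw [hlogp, hq4]; ring
      _ ≤ 4 * (q ^ 4 * (1 / q - 1)) := by gcongr
      _ ≤ 4 * (q ^ 4 * (1 / q)) := by gcongr; linarith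
      _ = 4 * (q ^ 2 * q) := by field_simp
      _ ≤ 4 * (u * Real.sqrt u) := by gcongr
  have hlog1 : -Real.log (1 - p) ≤ p / (1 - p) := by
    have := Real.one_sub_inv_le_log_of_pos (x := 1 - p) (by linarith)
    have e : 1 - (1 - p)⁻¹ = -(p / (1 - p)) := by
      have : (1 - p) ≠ 0 := by linarith
      field_simp
      ring
    rw [e] at this
    linarith
  have h2 : (1 - p) * (-Real.log (1 - p)) ≤ p := by
    calc (1 - p) * (-Real.log (1 - p)) ≤ (1 - p) * (p / (1 - p)) := by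
          gcongr
          linarith
      _ = p := by
          have : (1 - p) ≠ 0 := by linarith
          field_simp
  have h3 : gB (u ^ 2) = p * (-Real.log p) + (1 - p) * (-Real.log (1 - p)) := by
    unfold gB
    rw [← hp, Real.binEntropy, Real.log_inv, Real.log_inv]
  rw [h3]
  linarith

theorem Fb_eq (δ u : ℝ) :
    Fb δ u = 1 + gB (u ^ 2) / Real.log 2 - gB (u ^ 2 + 2 * δ * u + 2 * δ) / Real.log 2 := rfl

theorem Fb_min {δ : ℝ} (hδ : 0 < δ) (hδ1 : δ < 1 / 2) :
    ∃ u0, 0 < u0 ∧ u0 ≤ 1 - 2 * δ ∧ ∀ u, 0 < u → u ≤ 1 - 2 * δ → Fb δ u0 ≤ Fb δ u := by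
  have hcont : Continuous (Fb δ) := by
    have : Fb δ = fun u => 1 + gB (u ^ 2) / Real.log 2
        - gB (u ^ 2 + 2 * δ * u + 2 * δ) / Real.log 2 := funext (Fb_eq δ)
    rw [this]
    exact (continuous_const.add ((gB_continuous.comp (by fun_prop)).div_const _)).sub
      ((gB_continuous.comp (by fun_prop)).div_const _)
  have hne : (Icc (0 : ℝ) (1 - 2 * δ)).Nonempty := ⟨0, ⟨le_refl _, by linarith⟩⟩
  obtain ⟨u1, hu1, hmin⟩ := isCompact_Icc.exists_isMinOn hne hcont.continuousOn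
  have hmin' : ∀ u ∈ Icc (0 : ℝ) (1 - 2 * δ), Fb δ u1 ≤ Fb δ u := fun u hu => hmin hu
  rcases eq_or_lt_of_le hu1.1 with h0 | hpos
  · -- minimum at zero: find a point at least as good
    set v := min (1 - 2 * δ) (δ ^ 2 / 256) with hv
    have hv0 : 0 < v := lt_min (by linarith) (by positivity)
    have hv1 : v ≤ 1 - 2 * δ := min_le_left _ _
    have hv2 : v ≤ δ ^ 2 / 256 := min_le_right _ _
    have hv3 : v ≤ 1 := by nlinarith
    have hsv : Real.sqrt v ≤ δ / 16 := by
      rw [Real.sqrt_le_left (by positivity)]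
      calc v ≤ δ ^ 2 / 256 := hv2
        _ = (δ / 16) ^ 2 := by ring
    have hg1 := gB_small hv0 hv3
    have hg2 := gB_slope (a := 2 * δ) (b := v ^ 2 + 2 * δ * v + 2 * δ) (by linarith)
      (by nlinarith) (by nlinarith)
    have hg0 : 0 ≤ gB (0 ^ 2) := by
      unfold gB
      simp
    have hle : Fb δ v ≤ Fb δ 0 := by
      rw [Fb_eq, Fb_eq]
      have hlog : 0 < Real.log 2 := Real.log_pos (by norm_num)
      have e0 : (0 : ℝ) ^ 2 + 2 * δ * 0 + 2 * δ = 2 * δ := by ring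
      rw [e0]
      have key : gB (v ^ 2) - gB (v ^ 2 + 2 * δ * v + 2 * δ) ≤ gB (0 ^ 2) - gB (2 * δ) := by
        have h4 : 4 * (v * Real.sqrt v) ≤ v * (δ / 4) := by
          nlinarith [mul_le_mul_of_nonneg_left hsv hv0.le]
        have h5 : v ^ 2 / 2 ≤ v * (δ / 4) := by
          have : v ≤ δ / 4 := by nlinarith
          nlinarith
        nlinarith
      have h6 := div_le_div_of_nonneg_right key hlog.le
      rw [sub_div, sub_div] at h6
      linarith
    refine ⟨v, hv0, hv1, fun u hu hu' => ?_⟩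
    calc Fb δ v ≤ Fb δ 0 := hle
      _ = Fb δ u1 := by rw [h0]
      _ ≤ Fb δ u := hmin' u ⟨hu.le, hu'⟩
  · exact ⟨u1, hpos, hu1.2, fun u hu hu' => hmin' u ⟨hu.le, hu'⟩⟩

end Pool.Agent.Lib.MP_0430e4_lc.QB
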