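import Pool.Agent.Lib.MP_0430e4_lc.QB.Defs

/-!
# The three letter family
-/

set_option autoImplicit false
set_option linter.unusedSectionVars false

namespace Pool.Agent.Lib.MP_0430e4_lc.QB

open Finset Tensor Matrix Filter Topology

/-- signs `+ - -` -/
def eps3 : Fin 3 → Bool := ![false, true, true]

namespace K3Aaux

/-- the first orthogonal matrix -/
def OO (c s y z : ℝ) : Matrix (Fin 3) (Fin 3) ℝ :=
  !![c, -(y * s), z * s; s, y * c, -(z * c); 0, z, y]

theorem OO_orth {c s y z : ℝ} (e1 : c ^ 2 + s ^ 2 = 1) (e2 : y ^ 2 + z ^ 2 = 1) :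
    OO c s y z * (OO c s y z)ᵀ = 1 := by
  ext i j
  fin_cases i <;> fin_cases j <;>
    simp [OO, Matrix.mul_apply, Fin.sum_univ_three, Matrix.transpose_apply]
  · linear_combination s ^ 2 * e2 + e1
  · linear_combination (-(c * s)) * e2
  · ring
  · linear_combination (-(c * s)) * e2
  · linear_combination c ^ 2 * e2 + e1
  · ring
  · ring
  · ring
  · linear_combination e2

/-- conjugate of a diagonal matrix, entrywise -/
theorem OO_conj (c s y z p q : ℝ) :
    OO c s y z * Matrix.diagonal ![p, q, 0] * (OO c s y z)ᵀ =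
      !![p * c ^ 2 + q * (y * s) ^ 2, p * c * s - q * y ^ 2 * s * c, -(q * y * z * s);
        p * c * s - q * y ^ 2 * s * c, p * s ^ 2 + q * (y * c) ^ 2, q * y * z * c;
        -(q * y * z * s), q * y * z * c, q * z ^ 2] := by
  ext i j
  rw [Matrix.mul_apply]
  simp only [Matrix.mul_diagonal, Matrix.transpose_apply, Fin.sum_univ_three]
  fin_cases i <;> fin_cases j <;> simp [OO] <;> ring

/-- the second orthogonal matrix -/
noncomputable def RR (v w n : ℝ) : Matrix (Fin 3) (Fin 3) ℝ :=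
  !![1, 0, 0; 0, v / n, -(w / n); 0, w / n, v / n]

theorem RR_orth {v w n : ℝ} (hn : 0 < n) (h : v ^ 2 + w ^ 2 = n ^ 2) :
    RR v w n * (RR v w n)ᵀ = 1 := by
  have h1 : v / n * (v / n) + w / n * (w / n) = 1 := by
    field_simp
    linarith
  ext i j
  fin_cases i <;> fin_cases j <;>
    simp [RR, Matrix.mul_apply, Fin.sum_univ_three, Matrix.transpose_apply]
  · linarith
  · ring
  · ring
  · linarith

/-- diagonalisation of a symmetric two by two block -/
theorem exists_diag (A B C E : ℝ) (hB : B ≠ 0) (hd : 0 ≤ A * C - B ^ 2) (ht : 0 ≤ A + C) :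
    ∃ (O2 : Matrix (Fin 3) (Fin 3) ℝ) (m1 m2 : ℝ), O2 * O2ᵀ = 1 ∧ 0 ≤ m1 ∧ 0 ≤ m2 ∧ m2 ≤ m1 ∧
      m1 + m2 = A + C ∧ m1 * m2 = A * C - B ^ 2 ∧
      !![E, 0, 0; 0, A, B; 0, B, C] = O2 * Matrix.diagonal ![E, m1, m2] * O2ᵀ := by
  have hdisc : 0 ≤ (A - C) ^ 2 + 4 * B ^ 2 := by positivity
  set r := Real.sqrt ((A - C) ^ 2 + 4 * B ^ 2) with hr
  have hr2 : r ^ 2 = (A - C) ^ 2 + 4 * B ^ 2 := Real.sq_sqrt hdisc
  have hr0 : 0 ≤ r := Real.sqrt_nonneg _
  have hrt : r ≤ A + C := by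
    refine abs_le_of_sq_le_sq' ?_ ht |>.2
    rw [hr2]
    linarith
  set m1 := (A + C + r) / 2 with hm1
  set m2 := (A + C - r) / 2 with hm2
  have hsum : m1 + m2 = A + C := by
    rw [hm1, hm2]
    ring
  have hprod : m1 * m2 = A * C - B ^ 2 := by
    rw [hm1, hm2]
    linear_combination (-(1 / 4)) * hr2
  have hquad : m1 ^ 2 - (A + C) * m1 + (A * C - B ^ 2) = 0 := by
    have : m2 = A + C - m1 := by linarith
    rw [this] at hprod
    linarith
  have hN : 0 < B ^ 2 + (m1 - A) ^ 2 := by positivity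
  set n := Real.sqrt (B ^ 2 + (m1 - A) ^ 2) with hn
  have hn2 : n ^ 2 = B ^ 2 + (m1 - A) ^ 2 := Real.sq_sqrt hN.le
  have hn0 : 0 < n := Real.sqrt_pos.2 hN
  refine ⟨RR B (m1 - A) n, m1, m2, RR_orth hn0 hn2.symm, ?_, ?_, ?_, hsum, hprod, ?_⟩
  · rw [hm1]
    linarith
  · rw [hm2]
    linarith
  · rw [hm1, hm2]
    linarith
  · have hm2' : m2 = A + C - m1 := by linarith
    have k1 : (m1 * B ^ 2 + m2 * (m1 - A) ^ 2) / n ^ 2 = A := by
      rw [div_eq_iff (by positivity), hn2, hm2']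
      linear_combination (m1 - A) * (-1) * hquad
    have k2 : (m1 * (m1 - A) ^ 2 + m2 * B ^ 2) / n ^ 2 = C := by
      rw [div_eq_iff (by positivity), hn2, hm2']
      linear_combination (m1 - A) * hquad
    have k3 : (m1 - m2) * B * (m1 - A) / n ^ 2 = B := by
      rw [div_eq_iff (by positivity), hn2, hm2']
      linear_combination B * hquad
    have j1 : A = B / n * m1 * (B / n) + (m1 - A) / n * m2 * ((m1 - A) / n) := by
      refine k1.symm.trans ?_
      field_simp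
    have j2 : C = (m1 - A) / n * m1 * ((m1 - A) / n) + B / n * m2 * (B / n) := by
      refine k2.symm.trans ?_
      field_simp
    have j3 : B = B / n * m1 * ((m1 - A) / n) + -((m1 - A) / n * m2 * (B / n)) := by
      refine k3.symm.trans ?_
      field_simp
      ring
    have j4 : B = (m1 - A) / n * m1 * (B / n) + -(B / n * m2 * ((m1 - A) / n)) := by
      refine j3.trans ?_
      ring
    ext i j
    rw [Matrix.mul_apply]
    simp only [Matrix.mul_diagonal, Matrix.transpose_apply, Fin.sum_univ_three]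
    fin_cases i <;> fin_cases j <;> simp [RR]
    · exact j1
    · exact j3
    · exact j4
    · exact j2

end K3Aaux

open K3Aaux in
theorem k3_algebra {τ α x : ℝ} (hτ : 0 < τ) (hτα : τ < α) (hα : α ≤ 1 / 2) (hx : 0 < x)
    (hx1 : x < 1) :
    ∃ (S O1 O2 : Matrix (Fin 3) (Fin 3) ℝ) (m1 m2 : ℝ), Sᵀ = S ∧ O1 * O1ᵀ = 1 ∧ O2 * O2ᵀ = 1 ∧
      S * S = O1 * Matrix.diagonal ![1 - τ, τ, 0] * O1ᵀ ∧
      0 ≤ m1 ∧ 0 ≤ m2 ∧ m2 ≤ m1 ∧
      m1 + m2 = α + τ * x * ((α - τ) / (1 - 2 * τ)) ∧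
      m1 * m2 = τ * (1 - τ) * x * ((α - τ) / (1 - 2 * τ)) ∧
      blk eps3 (S * S) = O2 * Matrix.diagonal ![1 - (m1 + m2), m1, m2] * O2ᵀ ∧
      1 - (4 * α * (1 - α) - 4 * τ * (1 - τ)) / (1 + 2 * Real.sqrt (τ * (1 - τ))) - 4 * x
        ≤ sS eps3 S := by
  have hτ2 : τ < 1 / 2 := by linarith
  have h12 : 0 < 1 - 2 * τ := by linarith
  set p := (α - τ) / (1 - 2 * τ) with hp
  have hp0 : 0 < p := div_pos (by linarith) h12
  have hp1 : p ≤ 1 / 2 := by
    rw [hp, div_le_iff₀ h12]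
    linarith
  have hpe : (1 - 2 * τ) * p = α - τ := by
    rw [hp]
    field_simp
  set s := Real.sqrt p with hs
  set c := Real.sqrt (1 - p) with hc
  set y := Real.sqrt (1 - x) with hy
  set z := Real.sqrt x with hz
  set P := Real.sqrt (1 - τ) with hP
  set q := Real.sqrt τ with hq
  have s2 : s ^ 2 = p := Real.sq_sqrt hp0.le
  have c2 : c ^ 2 = 1 - p := Real.sq_sqrt (by linarith)
  have y2 : y ^ 2 = 1 - x := Real.sq_sqrt (by linarith)
  have z2 : z ^ 2 = x := Real.sq_sqrt hx.le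
  have P2 : P ^ 2 = 1 - τ := Real.sq_sqrt (by linarith)
  have q2 : q ^ 2 = τ := Real.sq_sqrt hτ.le
  have hc0 : 0 < c := Real.sqrt_pos.2 (by linarith)
  have hy0 : 0 < y := Real.sqrt_pos.2 (by linarith)
  have hz0 : 0 < z := Real.sqrt_pos.2 hx
  have e1 : c ^ 2 + s ^ 2 = 1 := by linarith
  have e2 : y ^ 2 + z ^ 2 = 1 := by linarith
  set O1 := OO c s y z with hO1
  have hO : O1 * O1ᵀ = 1 := OO_orth e1 e2
  have hO' : O1ᵀ * O1 = 1 := mul_eq_one_comm.mp hO
  set S := O1 * Matrix.diagonal ![P, q, 0] * O1ᵀ with hS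
  have hSt : Sᵀ = S := by
    rw [hS, Matrix.transpose_mul, Matrix.transpose_mul, Matrix.transpose_transpose,
      Matrix.diagonal_transpose, Matrix.mul_assoc]
  have hSS : S * S = O1 * Matrix.diagonal ![1 - τ, τ, 0] * O1ᵀ := by
    have h1 : S * S = O1 * (Matrix.diagonal ![P, q, 0] * Matrix.diagonal ![P, q, 0]) * O1ᵀ := by
      rw [hS]
      calc O1 * Matrix.diagonal ![P, q, 0] * O1ᵀ * (O1 * Matrix.diagonal ![P, q, 0] * O1ᵀ)
          = O1 * Matrix.diagonal ![P, q, 0] * (O1ᵀ * O1) * Matrix.diagonal ![P, q, 0] * O1ᵀ := by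
            simp only [Matrix.mul_assoc]
        _ = _ := by
            rw [hO', Matrix.mul_one]
            simp only [Matrix.mul_assoc]
    rw [h1, Matrix.diagonal_mul_diagonal]
    congr 3
    ext i
    fin_cases i <;> simp
    · rw [← P2]
      ring
    · rw [← q2]
      ring
  have hBne : τ * y * z * c ≠ 0 := by positivity
  have hdet : ((1 - τ) * s ^ 2 + τ * (y * c) ^ 2) * (τ * z ^ 2) - (τ * y * z * c) ^ 2
      = τ * (1 - τ) * x * p := by
    rw [← s2, ← z2]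
    ring
  have htr : ((1 - τ) * s ^ 2 + τ * (y * c) ^ 2) + τ * z ^ 2 = α + τ * x * p := by
    rw [mul_pow, s2, y2, c2, z2]
    linear_combination hpe
  obtain ⟨O2, m1, m2, g1, g2, g3, g4, g5, g6, g7⟩ := exists_diag
    ((1 - τ) * s ^ 2 + τ * (y * c) ^ 2) (τ * y * z * c) (τ * z ^ 2)
    ((1 - τ) * c ^ 2 + τ * (y * s) ^ 2) hBne (by
      rw [hdet]
      have : 0 < 1 - τ := by linarith
      positivity) (by
      rw [htr]
      have : 0 < α := by linarith
      positivity)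
  refine ⟨S, O1, O2, m1, m2, hSt, hO, g1, hSS, g2, g3, g4, ?_, ?_, ?_, ?_⟩
  · rw [g5, htr]
  · rw [g6, hdet]
  · have hE : 1 - (m1 + m2) = (1 - τ) * c ^ 2 + τ * (y * s) ^ 2 := by
      rw [g5, mul_pow, mul_pow, s2, y2, c2, z2]
      ring
    rw [hE, ← g7, hSS, hO1, OO_conj]
    ext i j
    fin_cases i <;> fin_cases j <;> simp [blk, eps3]
  · have hsS : sS eps3 S = (1 - τ) * (1 - 2 * p) ^ 2
        + 2 * (P * q) * (1 - x) * (4 * p * (1 - p)) + τ * ((1 - x) * (1 - 2 * p) + x) ^ 2 := by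
      rw [hS, hO1, OO_conj]
      simp [sS, sgn, eps3, Fin.sum_univ_three]
      have s4 : s ^ 4 = p ^ 2 := by rw [← s2]; ring
      have c4 : c ^ 4 = (1 - p) ^ 2 := by rw [← c2]; ring
      have y4 : y ^ 4 = (1 - x) ^ 2 := by rw [← y2]; ring
      have z4 : z ^ 4 = x ^ 2 := by rw [← z2]; ring
      ring_nf
      rw [s4, c4, y4, z4, s2, c2, y2, z2, P2, q2]
      ring
    rw [hsS]
    have hw : P * q = Real.sqrt (τ * (1 - τ)) := by
      rw [hP, hq, ← Real.sqrt_mul (by linarith), mul_comm]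
    rw [hw]
    set w := Real.sqrt (τ * (1 - τ)) with hw'
    have hw0 : 0 ≤ w := Real.sqrt_nonneg _
    have hw2 : w ^ 2 = τ * (1 - τ) := Real.sq_sqrt (mul_nonneg hτ.le (by linarith))
    have hw1 : w < 1 / 2 := by
      by_contra hcon
      rw [not_lt] at hcon
      linarith [mul_self_le_mul_self (show (0 : ℝ) ≤ 1 / 2 by norm_num) hcon, mul_pos h12 h12]
    have k1 : (1 - 2 * p) ^ 2 ≤ ((1 - x) * (1 - 2 * p) + x) ^ 2 := by
      refine pow_le_pow_left₀ (by linarith) ?_ 2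
      linarith [mul_pos hx hp0]
    have k2 : (4 * α * (1 - α) - 4 * τ * (1 - τ)) / (1 + 2 * w) = (1 - 2 * w) * (4 * p * (1 - p)) := by
      rw [div_eq_iff (by positivity)]
      have k3 : (1 - 2 * τ) ^ 2 = (1 - 2 * w) * (1 + 2 * w) := by
        linear_combination 4 * hw2
      have k4 : (1 - 2 * w) * (4 * p * (1 - p)) * (1 + 2 * w)
          = 4 * ((1 - 2 * τ) * p) * ((1 - 2 * τ) - (1 - 2 * τ) * p) := by
        linear_combination (-(4 * p * (1 - p))) * k3
      rw [k4, hpe]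
      ring
    rw [k2]
    have k5 : 0 ≤ 4 * p * (1 - p) := by
      have : 0 < 1 - p := by linarith
      positivity
    have k6 : 4 * p * (1 - p) ≤ 1 := by linarith [sq_nonneg (1 - 2 * p)]
    have k7 : τ * (1 - 2 * p) ^ 2 ≤ τ * ((1 - x) * (1 - 2 * p) + x) ^ 2 :=
      mul_le_mul_of_nonneg_left k1 hτ.le
    have k8 : 2 * w * x * (4 * p * (1 - p)) ≤ x := by
      have : 2 * w * (4 * p * (1 - p)) ≤ 1 := by
        linarith [mul_le_mul_of_nonneg_right (show 2 * w ≤ 1 by linarith) k5]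
      linarith [mul_le_mul_of_nonneg_right this hx.le]
    linarith

end Pool.Agent.Lib.MP_0430e4_lc.QB
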