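import Pool.Agent.Lib.MP_0430e4_lc.QB.Defs

/-!
# The entropy estimate for the three letter family
-/

set_option autoImplicit false
set_option linter.unusedSectionVars false

namespace Pool.Agent.Lib.MP_0430e4_lc.QB

open Finset Tensor Matrix Filter Topology

private lemma nml_lower {a b : ℝ} (ha : 0 < a) (hb : 0 < b) (hb1 : b ≤ 1) :
    Real.negMulLog a - |b - a| * (|Real.log a| + 1 / a) ≤ Real.negMulLog b := by
  have h1 : Real.log (b / a) ≤ b / a - 1 := Real.log_le_sub_one_of_pos (div_pos hb ha)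
  rw [Real.log_div hb.ne' ha.ne'] at h1
  have h2 : b * (Real.log b - Real.log a) ≤ b * (b / a - 1) :=
    mul_le_mul_of_nonneg_left h1 hb.le
  have h3 : b * (b / a - 1) = (b - a) * (b / a) := by
    field_simp
  have h4 : (b - a) * (Real.log a + b / a) ≤ |b - a| * (|Real.log a| + 1 / a) := by
    refine le_trans (le_abs_self _) ?_
    rw [abs_mul]
    apply mul_le_mul_of_nonneg_left _ (abs_nonneg _)
    refine le_trans (abs_add_le _ _) ?_
    rw [abs_of_nonneg (div_nonneg hb.le ha.le)]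
    have : b / a ≤ 1 / a := div_le_div_of_nonneg_right hb1 ha.le
    linarith
  unfold Real.negMulLog
  linarith

/-- pure calculus: `m2 ≥ κ x`, `m1 = α + O(x)` -/
theorem k3_entropy {τ α : ℝ} (hτ : 0 < τ) (hτα : τ < α) (hα : α ≤ 1 / 2) :
    ∃ C κ x0 : ℝ, 0 < κ ∧ 0 < x0 ∧ x0 ≤ 1 / 2 ∧ ∀ x m1 m2 : ℝ, 0 < x → x < x0 → 0 ≤ m1 →
      0 ≤ m2 → m2 ≤ m1 → m1 + m2 = α + τ * x * ((α - τ) / (1 - 2 * τ)) →
      m1 * m2 = τ * (1 - τ) * x * ((α - τ) / (1 - 2 * τ)) →
      Real.binEntropy α - Real.binEntropy τ + κ * x * Real.log (1 / x) - C * x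
        ≤ Hn ![1 - (m1 + m2), m1, m2] - Hn ![1 - τ, τ, 0] := by
  have hd : 0 < 1 - 2 * τ := by linarith
  set β := (α - τ) / (1 - 2 * τ) with hβ
  have hβ0 : 0 < β := div_pos (by linarith) hd
  have hβ1 : β ≤ 1 / 2 := by
    rw [hβ, div_le_iff₀ hd]
    linarith
  have hα0 : 0 < α := by linarith
  set κ2 := 2 * (τ * (1 - τ) * β) / α with hκ2
  set κ := τ * (1 - τ) * β / (α + τ * β) with hκ
  have hp : 0 < τ * (1 - τ) * β := mul_pos (mul_pos hτ (by linarith)) hβ0
  have hκ20 : 0 < κ2 := div_pos (by linarith) hα0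
  have hαβ : 0 < α + τ * β := by positivity
  have hκ0 : 0 < κ := div_pos hp hαβ
  refine ⟨τ * β * (|Real.log (1 - α)| + 1 / (1 - α)) + (τ * β + κ2) * (|Real.log α| + 1 / α)
    + κ * |Real.log κ2|, κ, min (1 / 2) (1 / (κ2 + 1)), hκ0, by positivity, min_le_left _ _, ?_⟩
  intro x m1 m2 hx hxx hm1 hm2 hm21 hsum hprod
  have hx1 : x < 1 / 2 := lt_of_lt_of_le hxx (min_le_left _ _)
  have hx2 : x < 1 / (κ2 + 1) := lt_of_lt_of_le hxx (min_le_right _ _)
  have hκx : κ2 * x ≤ 1 := by
    rw [lt_div_iff₀ (by linarith)] at hx2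
    linarith
  have hτβx : 0 < τ * x * β := by positivity
  have hm1a : α / 2 ≤ m1 := by linarith
  have hm1p : 0 < m1 := by linarith
  have hτβ : τ * β ≤ 1 / 4 := by nlinarith
  have hτβx1 : τ * x * β ≤ τ * β := by nlinarith
  have hm1u : m1 ≤ α + τ * β := by linarith
  -- bounds for m2
  have hm2l : κ * x ≤ m2 := by
    have h1 : τ * (1 - τ) * x * β ≤ (α + τ * β) * m2 := by
      rw [← hprod]
      exact mul_le_mul_of_nonneg_right hm1u hm2
    have h2 : κ * (α + τ * β) = τ * (1 - τ) * β := by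
      rw [hκ]; field_simp
    have h3 : (κ * x) * (α + τ * β) ≤ m2 * (α + τ * β) := by nlinarith
    exact le_of_mul_le_mul_right h3 hαβ
  have hm2u : m2 ≤ κ2 * x := by
    have h1 : α / 2 * m2 ≤ τ * (1 - τ) * x * β := by
      rw [← hprod]
      exact mul_le_mul_of_nonneg_right hm1a hm2
    have h2 : κ2 * α = 2 * (τ * (1 - τ) * β) := by
      rw [hκ2]; field_simp
    have h3 : m2 * α ≤ (κ2 * x) * α := by nlinarith
    exact le_of_mul_le_mul_right h3 hα0
  have hm2p : 0 < m2 := lt_of_lt_of_le (by positivity) hm2l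
  -- the three entropies
  have hE2 : κ * x * Real.log (1 / x) - κ * |Real.log κ2| * x ≤ Real.negMulLog m2 := by
    have h1 : Real.log m2 ≤ Real.log (κ2 * x) := Real.log_le_log hm2p hm2u
    have h2 : Real.log (κ2 * x) ≤ 0 := Real.log_nonpos (by positivity) hκx
    have h3 : Real.log (κ2 * x) = Real.log κ2 + Real.log x := Real.log_mul hκ20.ne' hx.ne'
    have h4 : Real.log (1 / x) = - Real.log x := by rw [one_div, Real.log_inv]
    have h5 : Real.negMulLog m2 ≥ m2 * (-Real.log (κ2 * x)) := by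
      have := mul_le_mul_of_nonneg_left h1 hm2p.le
      unfold Real.negMulLog
      linarith
    have h6 : κ * x * (-Real.log (κ2 * x)) ≤ m2 * (-Real.log (κ2 * x)) :=
      mul_le_mul_of_nonneg_right hm2l (by linarith)
    have h7 : Real.log κ2 ≤ |Real.log κ2| := le_abs_self _
    have h8 : 0 < κ * x := by positivity
    rw [h4]
    have h9 : κ * x * Real.log κ2 ≤ κ * x * |Real.log κ2| := mul_le_mul_of_nonneg_left h7 h8.le
    rw [h3] at h6 h5
    calc κ * x * (-Real.log x) - κ * |Real.log κ2| * x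
        = κ * x * (-Real.log x) - κ * x * |Real.log κ2| := by ring
      _ ≤ κ * x * (-Real.log x) - κ * x * Real.log κ2 := by linarith
      _ = κ * x * (-(Real.log κ2 + Real.log x)) := by ring
      _ ≤ m2 * (-(Real.log κ2 + Real.log x)) := h6
      _ ≤ Real.negMulLog m2 := h5
  have hE1 : Real.negMulLog α - (τ * β + κ2) * x * (|Real.log α| + 1 / α)
      ≤ Real.negMulLog m1 := by
    have h1 := nml_lower hα0 hm1p (by linarith)
    have h2 : |m1 - α| ≤ (τ * β + κ2) * x := by
      rw [abs_le]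
      constructor
      · have : m1 - α = τ * x * β - m2 := by linarith
        rw [this]; linarith
      · have : m1 - α = τ * x * β - m2 := by linarith
        rw [this]; linarith
    have h3 : 0 ≤ |Real.log α| + 1 / α := by positivity
    have h4 := mul_le_mul_of_nonneg_right h2 h3
    linarith
  have hE0 : Real.negMulLog (1 - α) - (τ * β) * x * (|Real.log (1 - α)| + 1 / (1 - α))
      ≤ Real.negMulLog (1 - (m1 + m2)) := by
    have h1 := nml_lower (a := 1 - α) (b := 1 - (m1 + m2)) (by linarith) (by rw [hsum]; linarith)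
      (by rw [hsum]; linarith)
    have h2 : |1 - (m1 + m2) - (1 - α)| = (τ * β) * x := by
      rw [hsum, show 1 - (α + τ * x * β) - (1 - α) = - ((τ * β) * x) by ring, abs_neg,
        abs_of_nonneg (by positivity)]
    rw [h2] at h1
    exact h1
  have hH : Hn ![1 - (m1 + m2), m1, m2] = Real.negMulLog (1 - (m1 + m2)) + Real.negMulLog m1
      + Real.negMulLog m2 := by
    simp [Hn, Fin.sum_univ_three]
  have hH0 : Hn ![1 - τ, τ, 0] = Real.binEntropy τ := by
    rw [Real.binEntropy_eq_negMulLog_add_negMulLog_one_sub]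
    simp [Hn, Fin.sum_univ_three, add_comm]
  rw [hH, hH0, Real.binEntropy_eq_negMulLog_add_negMulLog_one_sub α]
  have hfin : (τ * β * (|Real.log (1 - α)| + 1 / (1 - α)) + (τ * β + κ2) * (|Real.log α| + 1 / α)
      + κ * |Real.log κ2|) * x = (τ * β) * x * (|Real.log (1 - α)| + 1 / (1 - α))
      + (τ * β + κ2) * x * (|Real.log α| + 1 / α) + κ * |Real.log κ2| * x := by ring
  rw [hfin]
  linarith

end Pool.Agent.Lib.MP_0430e4_lc.QB
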