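import Pool.Agent.Lib.MP_0430e4_lc.QB.IP1

/-!
# Quantum bound: inner products with projections
-/

set_option autoImplicit false
set_option linter.unusedSectionVars false

namespace Pool.Agent.Lib.MP_0430e4_lc.QB

open Finset Tensor Matrix
open scoped MatrixOrder

variable {n k : ℕ} {α : Type*} [Fintype α] [DecidableEq α]

theorem ip_eq_trace (A B : Matrix α α ℝ) : ip A B = (Aᵀ * B).trace := by
  unfold ip
  simp only [Matrix.trace, Matrix.diag_apply, Matrix.mul_apply, Matrix.transpose_apply]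
  exact Finset.sum_comm

/-- moving a factor on the left -/
theorem ip_mul_left (M A B : Matrix α α ℝ) : ip (M * A) B = ip A (Mᵀ * B) := by
  rw [ip_eq_trace, ip_eq_trace, Matrix.transpose_mul, Matrix.mul_assoc]

/-- moving a factor on the right -/
theorem ip_mul_right (A M B : Matrix α α ℝ) : ip (A * M) B = ip A (B * Mᵀ) := by
  rw [ip_eq_trace, ip_eq_trace, Matrix.transpose_mul, Matrix.mul_assoc, Matrix.trace_mul_comm,
    Matrix.mul_assoc]

/-- `tr (A B) ≥ 0` for positive semidefinite `A, B` -/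
theorem ip_psd_nonneg {A B : Matrix α α ℝ} (hA : A.PosSemidef) (hB : B.PosSemidef) :
    0 ≤ ip A B := by
  obtain ⟨C, rfl⟩ : ∃ C : Matrix α α ℝ, A = Cᴴ * C :=
    CStarAlgebra.nonneg_iff_eq_star_mul_self.mp hA.nonneg
  have h : ip (Cᴴ * C) B = ∑ c, (star (C c) ⬝ᵥ (B *ᵥ (C c))) := by
    unfold ip
    have h1 : ∀ a b, (Cᴴ * C) a b * B a b = ∑ c, C c a * (B a b * C c b) := by
      intro a b
      rw [Matrix.mul_apply, Finset.sum_mul]
      refine Finset.sum_congr rfl fun c _ => ?_
      simp only [Matrix.conjTranspose_apply, star_trivial]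
      ring
    simp only [h1]
    have h2 : ∀ c, (star (C c) ⬝ᵥ (B *ᵥ (C c))) = ∑ a, ∑ b, C c a * (B a b * C c b) := by
      intro c
      simp only [dotProduct, Matrix.mulVec, star_trivial, Finset.mul_sum]
    simp only [h2]
    calc ∑ a, ∑ b, ∑ c, C c a * (B a b * C c b) = ∑ a, ∑ c, ∑ b, C c a * (B a b * C c b) :=
          Finset.sum_congr rfl fun a _ => Finset.sum_comm
      _ = _ := Finset.sum_comm
  rw [h]
  refine Finset.sum_nonneg fun c _ => ?_
  exact hB.dotProduct_mulVec_nonneg _

theorem proj_psd {P : Matrix α α ℝ} (hP : IsProj P) : P.PosSemidef := by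
  have h : P = Pᴴ * P := by
    rw [Matrix.conjTranspose_eq_transpose_of_trivial, hP.1, hP.2]
  rw [h]
  exact Matrix.posSemidef_conjTranspose_mul_self P

/-- multiplication by a projection does not increase the norm -/
theorem ip_proj_le {P : Matrix α α ℝ} (hP : IsProj P) (A : Matrix α α ℝ) :
    ip (P * A) (P * A) ≤ ip A A := by
  have h1 : A = P * A + (1 - P) * A := by
    rw [← add_mul, add_sub_cancel, one_mul]
  have h2 : ip (P * A) ((1 - P) * A) = 0 := by
    rw [ip_mul_left, hP.1, ← Matrix.mul_assoc, mul_sub, mul_one, hP.2, sub_self, Matrix.zero_mul]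
    simp [ip]
  have h3 : ip A A = ip (P * A) (P * A) + ip ((1 - P) * A) ((1 - P) * A) := by
    conv_lhs => rw [h1]
    rw [ip_add_left, ip_comm (P * A) (P * A + _), ip_comm ((1 - P) * A) (P * A + _), ip_add_left,
      ip_add_left, h2, ip_comm ((1 - P) * A) (P * A), h2]
    ring
  have h4 := ip_self_nonneg ((1 - P) * A)
  linarith

theorem ip_transpose (A B : Matrix α α ℝ) : ip Aᵀ Bᵀ = ip A B := by
  unfold ip
  simp only [Matrix.transpose_apply]
  exact Finset.sum_comm

theorem ip_proj_le' {P : Matrix α α ℝ} (hP : IsProj P) (A : Matrix α α ℝ) :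
    ip (A * P) (A * P) ≤ ip A A := by
  have h := ip_proj_le hP Aᵀ
  rw [ip_transpose, ← ip_transpose (P * Aᵀ)] at h
  rwa [Matrix.transpose_mul, Matrix.transpose_transpose, hP.1] at h

/-- `‖P S‖² = tr (P S²)` for symmetric `S` -/
theorem ip_proj_mul {P S : Matrix α α ℝ} (hP : IsProj P) (hS : Sᵀ = S) :
    ip (P * S) (P * S) = ip P (S * S) := by
  rw [ip_mul_right, hS, Matrix.mul_assoc, ip_comm, ip_mul_left, ip_comm, hP.1, hP.2]

/-- if `P T = T` for projections then `tr ((1-P) Y) ≤ tr ((1-T) Y)` for `Y` positive semidefinite -/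
theorem ip_one_sub_le {P T Y : Matrix α α ℝ} (hP : IsProj P) (hT : IsProj T) (h : P * T = T)
    (hY : Y.PosSemidef) : ip (1 - P) Y ≤ ip (1 - T) Y := by
  have h' : T * P = T := by
    have := congrArg Matrix.transpose h
    rwa [Matrix.transpose_mul, hP.1, hT.1] at this
  have hD : IsProj (P - T) := by
    refine ⟨?_, ?_⟩
    · rw [Matrix.transpose_sub, hP.1, hT.1]
    · rw [mul_sub, sub_mul, sub_mul, hP.2, hT.2, h, h']
      simp
  have h0 := ip_psd_nonneg (proj_psd hD) hY
  have e : (1 - T : Matrix α α ℝ) = (1 - P) + (P - T) := by abel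
  rw [e, ip_add_left]
  linarith

end Pool.Agent.Lib.MP_0430e4_lc.QB
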