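import Pool.Agent.Lib.MP_0430e4_lc.QB.Defs

/-!
# Trace and rank
-/

set_option autoImplicit false
set_option linter.unusedSectionVars false

namespace Pool.Agent.Lib.MP_0430e4_lc.QB

open Finset Tensor Matrix

variable {α : Type*} [Fintype α] [DecidableEq α]

/-- the trace of a projection is its rank -/
theorem trace_proj {P : Matrix α α ℝ} (hP : IsProj P) : P.trace = P.rank := by
  have h : LinearMap.IsProj (LinearMap.range P.mulVecLin) P.mulVecLin :=
    ⟨fun x => LinearMap.mem_range_self _ x, by
      rintro _ ⟨y, rfl⟩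
      rw [Matrix.mulVecLin_apply, Matrix.mulVecLin_apply, Matrix.mulVec_mulVec, hP.2]⟩
  have h1 := h.trace
  rw [← Matrix.toLin'_apply', Matrix.trace_toLin'_eq] at h1
  exact h1

/-- `(tr φ)² ≤ rank P * ‖φ‖²` if `P φ = φ` -/
theorem trace_sq_le {P φ : Matrix α α ℝ} (hP : IsProj P) (h : P * φ = φ) :
    φ.trace ^ 2 ≤ P.rank * ip φ φ := by
  have h1 : φ.trace = ∑ x : α × α, P x.1 x.2 * φ x.1 x.2 := by
    rw [Fintype.sum_prod_type]
    conv_lhs => rw [← h]
    unfold Matrix.trace
    rw [Finset.sum_comm]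
    apply Finset.sum_congr rfl
    intro a _
    rw [Matrix.diag_apply, Matrix.mul_apply]
    apply Finset.sum_congr rfl
    intro b _
    have : P a b = P b a := by
      conv_lhs => rw [← hP.1]
      rfl
    rw [this]
  have h2 : ∑ x : α × α, P x.1 x.2 ^ 2 = P.rank := by
    rw [← trace_proj hP, Fintype.sum_prod_type]
    conv_rhs => rw [← hP.2]
    unfold Matrix.trace
    apply Finset.sum_congr rfl
    intro a _
    rw [Matrix.diag_apply, Matrix.mul_apply]
    apply Finset.sum_congr rfl
    intro b _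
    have : P a b = P b a := by
      conv_lhs => rw [← hP.1]
      rfl
    rw [sq]
    nth_rw 2 [this]
  have h3 : ∑ x : α × α, φ x.1 x.2 ^ 2 = ip φ φ := by
    rw [Fintype.sum_prod_type]
    unfold ip
    apply Finset.sum_congr rfl
    intro a _
    apply Finset.sum_congr rfl
    intro b _
    ring
  rw [h1, ← h2, ← h3]
  exact Finset.sum_mul_sq_le_sq_mul_sq _ _ _

end Pool.Agent.Lib.MP_0430e4_lc.QB
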