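import Pool.Agent.Lib.MP_0430e4_lc.QB.TENS

/-!
# Quantum bound: typical words (Chebyshev)
-/

set_option autoImplicit false
set_option linter.unusedSectionVars false

namespace Pool.Agent.Lib.MP_0430e4_lc.QB

open Finset Tensor Matrix Filter Topology

variable {n k : ℕ}

/-- second moment of a centred sum -/
theorem typ_second {lam g : Fin k → ℝ} (h1 : ∑ i, lam i = 1) (hg : ∑ x, lam x * g x = 0) :
    ∑ a : Wd n k, (∏ i, lam (a i)) * (∑ i, g (a i)) ^ 2 = n * ∑ x, lam x * g x ^ 2 := by
  have key : ∀ i j : Fin n, ∑ a : Wd n k, (∏ l, lam (a l)) * (g (a i) * g (a j)) =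
      if i = j then ∑ x, lam x * g x ^ 2 else 0 := by
    intro i j
    have e : ∀ a : Wd n k, (∏ l, lam (a l)) * (g (a i) * g (a j)) =
        ∏ l, (lam (a l) * ((if l = i then g (a l) else 1) * (if l = j then g (a l) else 1))) := by
      intro a
      rw [Finset.prod_mul_distrib, Finset.prod_mul_distrib,
        Finset.prod_ite_eq' Finset.univ i (fun l => g (a l)),
        Finset.prod_ite_eq' Finset.univ j (fun l => g (a l)), if_pos (Finset.mem_univ i),
        if_pos (Finset.mem_univ j)]
    simp only [e]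
    rw [sum_words (fun l x => lam x * ((if l = i then g x else 1) * (if l = j then g x else 1)))]
    by_cases hij : i = j
    · subst hij
      rw [if_pos rfl]
      have e2 : ∀ l : Fin n, ∑ x, lam x * ((if l = i then g x else 1) *
          (if l = i then g x else 1)) = if l = i then ∑ x, lam x * g x ^ 2 else 1 := by
        intro l
        by_cases hl : l = i
        · simp only [if_pos hl, sq]
        · simp only [if_neg hl, mul_one, h1]
      simp only [e2]
      rw [Finset.prod_ite_eq' Finset.univ i (fun _ => ∑ x, lam x * g x ^ 2),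
        if_pos (Finset.mem_univ i)]
    · rw [if_neg hij]
      refine Finset.prod_eq_zero (Finset.mem_univ i) ?_
      simp only [if_neg hij, mul_one, if_true]
      exact hg
  have e0 : ∀ a : Wd n k, (∏ i, lam (a i)) * (∑ i, g (a i)) ^ 2 =
      ∑ i, ∑ j, (∏ l, lam (a l)) * (g (a i) * g (a j)) := by
    intro a
    rw [sq, Finset.sum_mul_sum, Finset.mul_sum]
    refine Finset.sum_congr rfl fun i _ => ?_
    rw [Finset.mul_sum]
  simp only [e0]
  rw [Finset.sum_comm]
  have e3 : ∀ i : Fin n, ∑ a : Wd n k, ∑ j, (∏ l, lam (a l)) * (g (a i) * g (a j)) =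
      ∑ x, lam x * g x ^ 2 := by
    intro i
    rw [Finset.sum_comm]
    simp only [key]
    simp
  simp only [e3]
  simp

theorem typ_words {lam : Fin k → ℝ} (h0 : ∀ i, 0 ≤ lam i) (h1 : ∑ i, lam i = 1) {η : ℝ}
    (hη : 0 < η) : ∀ᶠ n : ℕ in atTop, ∃ Y : Finset (Wd n k),
      (∀ (σ : Equiv.Perm (Fin n)) (a : Wd n k), a ∘ σ ∈ Y ↔ a ∈ Y) ∧
      (∀ a ∈ Y, Real.exp (-(n * (Hn lam + η))) ≤ ∏ i, lam (a i) ∧
        ∏ i, lam (a i) ≤ Real.exp (-(n * (Hn lam - η)))) ∧
      ∑ a ∈ univ \ Y, ∏ i, lam (a i) ≤ η := by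
  classical
  set g : Fin k → ℝ := fun x => -Real.log (lam x) - Hn lam with hgdef
  have hg : ∑ x, lam x * g x = 0 := by
    have e : ∀ x, lam x * g x = Real.negMulLog (lam x) - lam x * Hn lam := by
      intro x
      simp only [hgdef, Real.negMulLog]
      ring
    simp only [e]
    rw [Finset.sum_sub_distrib, ← Finset.sum_mul, h1, one_mul]
    simp only [Hn]
    ring
  set V : ℝ := ∑ x, lam x * g x ^ 2 with hV
  have hV0 : 0 ≤ V := Finset.sum_nonneg fun x _ => mul_nonneg (h0 x) (sq_nonneg _)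
  filter_upwards [eventually_ge_atTop (max 1 (Nat.ceil (V / η ^ 3)))] with n hn
  have hn1 : 1 ≤ n := (le_max_left _ _).trans hn
  have hn2 : V / η ^ 3 ≤ n := (Nat.le_ceil _).trans (by exact_mod_cast (le_max_right _ _).trans hn)
  have hnpos : (0 : ℝ) < n := by exact_mod_cast hn1
  refine ⟨univ.filter fun a => (∀ i, 0 < lam (a i)) ∧ |∑ i, g (a i)| ≤ n * η, ?_, ?_, ?_⟩
  · intro σ a
    simp only [Finset.mem_filter, Finset.mem_univ, true_and, Function.comp_apply]
    have e1 : (∀ i, 0 < lam (a (σ i))) ↔ ∀ i, 0 < lam (a i) :=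
      ⟨fun h i => by simpa using h (σ.symm i), fun h i => h (σ i)⟩
    have e2 : ∑ i, g (a (σ i)) = ∑ i, g (a i) := Equiv.sum_comp σ fun i => g (a i)
    rw [e1, e2]
  · intro a ha
    simp only [Finset.mem_filter, Finset.mem_univ, true_and] at ha
    obtain ⟨hpos, habs⟩ := ha
    have e : ∏ i, lam (a i) = Real.exp (-(∑ i, g (a i) + n * Hn lam)) := by
      have e1 : ∑ i, g (a i) + n * Hn lam = ∑ i, -Real.log (lam (a i)) := by
        simp only [hgdef]
        rw [Finset.sum_sub_distrib]
        simp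
      rw [e1, Finset.sum_neg_distrib, neg_neg, Real.exp_sum]
      refine Finset.prod_congr rfl fun i _ => ?_
      rw [Real.exp_log (hpos i)]
    rw [e]
    obtain ⟨ha1, ha2⟩ := abs_le.mp habs
    constructor
    · apply Real.exp_le_exp.mpr
      linarith
    · apply Real.exp_le_exp.mpr
      linarith
  · have hb : ∀ a ∈ univ \ (univ.filter fun a : Wd n k =>
        (∀ i, 0 < lam (a i)) ∧ |∑ i, g (a i)| ≤ n * η),
        ∏ i, lam (a i) ≤ ((∏ i, lam (a i)) * (∑ i, g (a i)) ^ 2) / (n * η) ^ 2 := by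
      intro a ha
      simp only [Finset.mem_sdiff, Finset.mem_filter, Finset.mem_univ, true_and] at ha
      by_cases hpos : ∀ i, 0 < lam (a i)
      · have hlt : n * η < |∑ i, g (a i)| := by
          by_contra hcon
          exact ha ⟨hpos, not_lt.mp hcon⟩
        have hsq : (n * η) ^ 2 ≤ (∑ i, g (a i)) ^ 2 := by
          rw [← sq_abs (∑ i, g (a i))]
          exact pow_le_pow_left₀ (by positivity) hlt.le 2
        rw [le_div_iff₀ (by positivity)]
        exact mul_le_mul_of_nonneg_left hsq (Finset.prod_nonneg fun i _ => h0 _)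
      · push Not at hpos
        obtain ⟨i, hi⟩ := hpos
        have hz : ∏ i, lam (a i) = 0 :=
          Finset.prod_eq_zero (Finset.mem_univ i) (le_antisymm hi (h0 _))
        rw [hz]
        simp
    refine (Finset.sum_le_sum hb).trans ?_
    rw [← Finset.sum_div]
    have h3 : ∑ a ∈ univ \ (univ.filter fun a : Wd n k =>
        (∀ i, 0 < lam (a i)) ∧ |∑ i, g (a i)| ≤ n * η),
        (∏ i, lam (a i)) * (∑ i, g (a i)) ^ 2 ≤ n * V := by
      rw [hV, ← typ_second h1 hg]
      exact Finset.sum_le_univ_sum_of_nonneg fun a =>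
        mul_nonneg (Finset.prod_nonneg fun i _ => h0 _) (sq_nonneg _)
    rw [div_le_iff₀ (by positivity)]
    refine h3.trans ?_
    have h4 : V ≤ n * η ^ 3 := by
      rwa [div_le_iff₀ (by positivity)] at hn2
    nlinarith

end Pool.Agent.Lib.MP_0430e4_lc.QB
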