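import Pool.Agent.Lib.MP_0430e4_lc.QB.TENS
import Pool.Agent.Lib.MP_0430e4_lc.QB.IP2
import Pool.Agent.Lib.MP_0430e4_lc.QB.TRSQ
import Pool.Agent.Lib.MP_0430e4_lc.QB.TYPW

/-!
# Quantum bound: typical projections
-/

set_option autoImplicit false
set_option linter.unusedSectionVars false

namespace Pool.Agent.Lib.MP_0430e4_lc.QB

open Finset Tensor Matrix Filter Topology

variable {n k : ℕ} {α : Type*} [Fintype α] [DecidableEq α]

/-- products of invariant matrices are invariant -/
theorem typ_SInv_mul {A B : Matrix (Wd n k) (Wd n k) ℝ} (hA : SInv A) (hB : SInv B) :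
    SInv (A * B) := by
  intro σ a b
  simp only [Matrix.mul_apply]
  have e : (fun c : Wd n k => A (a ∘ σ) (c ∘ σ) * B (c ∘ σ) (b ∘ σ)) =
      fun c => A a c * B c b := by
    funext c
    rw [hA, hB]
  rw [← e]
  symm
  exact Equiv.sum_comp (Equiv.arrowCongr σ.symm (Equiv.refl (Fin k)))
    (fun c : Wd n k => A (a ∘ σ) c * B c (b ∘ σ))

theorem tp_diagonal (lam : Fin k → ℝ) :
    tp n (Matrix.diagonal lam) = Matrix.diagonal fun a : Wd n k => ∏ i, lam (a i) := by
  ext a b
  simp only [tp, Matrix.of_apply, Matrix.diagonal_apply]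
  by_cases h : a = b
  · subst h
    simp
  · rw [if_neg h]
    obtain ⟨i, hi⟩ := Function.ne_iff.mp h
    exact Finset.prod_eq_zero (Finset.mem_univ i) (if_neg hi)

/-- conjugation by an orthogonal matrix is an isometry -/
theorem ip_conj {U A B : Matrix α α ℝ} (hU : Uᵀ * U = 1) :
    ip (U * A * Uᵀ) (U * B * Uᵀ) = ip A B := by
  rw [ip_mul_right, Matrix.transpose_transpose, Matrix.mul_assoc (U * B), hU, Matrix.mul_one,
    ip_mul_left, ← Matrix.mul_assoc, hU, Matrix.one_mul]

theorem ip_diagonal_right (A : Matrix α α ℝ) (d : α → ℝ) :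
    ip A (Matrix.diagonal d) = ∑ a, A a a * d a := by
  unfold ip
  refine Finset.sum_congr rfl fun a _ => ?_
  rw [Finset.sum_eq_single a]
  · rw [Matrix.diagonal_apply_eq]
  · intro b _ hb
    rw [Matrix.diagonal_apply_ne' _ hb, mul_zero]
  · intro h
    exact absurd (Finset.mem_univ a) h

/-- diagonal entries of a projection are in `[0,1]` -/
theorem proj_diag {P : Matrix α α ℝ} (hP : IsProj P) (a : α) : 0 ≤ P a a ∧ P a a ≤ 1 := by
  have h1 : P a a = ∑ b, P a b ^ 2 := by
    conv_lhs => rw [← hP.2]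
    rw [Matrix.mul_apply]
    refine Finset.sum_congr rfl fun b _ => ?_
    have h2 : P b a = P a b := by
      conv_lhs => rw [← hP.1]
      rfl
    rw [h2, sq]
  have h3 : P a a ^ 2 ≤ P a a := by
    conv_rhs => rw [h1]
    exact Finset.single_le_sum (f := fun b => P a b ^ 2) (fun b _ => sq_nonneg _)
      (Finset.mem_univ a)
  have h4 : 0 ≤ P a a := by
    rw [h1]
    exact Finset.sum_nonneg fun b _ => sq_nonneg _
  exact ⟨h4, by nlinarith⟩

theorem proj_conj {U P : Matrix α α ℝ} (hU : U * Uᵀ = 1) (hP : IsProj P) :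
    IsProj (Uᵀ * P * U) := by
  constructor
  · rw [Matrix.transpose_mul, Matrix.transpose_mul, Matrix.transpose_transpose, hP.1,
      Matrix.mul_assoc]
  · calc Uᵀ * P * U * (Uᵀ * P * U) = Uᵀ * P * (U * Uᵀ) * P * U := by
          simp only [Matrix.mul_assoc]
      _ = Uᵀ * (P * P) * U := by
          rw [hU, Matrix.mul_one, Matrix.mul_assoc Uᵀ P P]
      _ = Uᵀ * P * U := by rw [hP.2]

theorem typ {O X : Matrix (Fin k) (Fin k) ℝ} (hO : O * Oᵀ = 1) {lam : Fin k → ℝ}
    (h0 : ∀ i, 0 ≤ lam i) (h1 : ∑ i, lam i = 1) (hX : X = O * Matrix.diagonal lam * Oᵀ) {η : ℝ}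
    (hη : 0 < η) : ∀ᶠ n : ℕ in atTop,
      (∃ T : Matrix (Wd n k) (Wd n k) ℝ, IsProj T ∧ SInv T ∧
        (T.rank : ℝ) ≤ Real.exp (n * (Hn lam + η)) ∧ ip (1 - T) (tp n X) ≤ η) ∧
      ∀ R : Matrix (Wd n k) (Wd n k) ℝ, IsProj R →
        (R.rank : ℝ) ≤ Real.exp (n * (Hn lam - 2 * η)) → ip R (tp n X) ≤ 2 * η := by
  have hexp : ∀ᶠ n : ℕ in atTop, Real.exp (-((n : ℝ) * η)) ≤ η := by
    have ht : Tendsto (fun n : ℕ => Real.exp (-((n : ℝ) * η))) atTop (𝓝 0) := by
      apply Real.tendsto_exp_neg_atTop_nhds_zero.comp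
      exact Tendsto.atTop_mul_const hη tendsto_natCast_atTop_atTop
    exact (ht.eventually (ge_mem_nhds hη)).mono fun n hn => hn
  filter_upwards [typ_words h0 h1 hη, hexp] with n hY hn
  obtain ⟨Y, hYs, hYb, hYc⟩ := hY
  set U : Matrix (Wd n k) (Wd n k) ℝ := tp n O with hUdef
  have hUU : U * Uᵀ = 1 := by
    rw [hUdef, tp_transpose, tp_mul, hO, tp_one]
  have hUU' : Uᵀ * U = 1 := Matrix.mul_eq_one_comm_of_equiv (Equiv.refl _) |>.mp hUU
  set Lam : Wd n k → ℝ := fun a => ∏ i, lam (a i) with hLam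
  have hLam0 : ∀ a, 0 ≤ Lam a := fun a => Finset.prod_nonneg fun i _ => h0 _
  have hLam1 : ∑ a, Lam a = 1 := by
    rw [hLam, sum_words (fun _ j => lam j), h1]
    simp
  have hXt : tp n X = U * Matrix.diagonal Lam * Uᵀ := by
    rw [hX, ← tp_mul, ← tp_mul, tp_diagonal, ← tp_transpose]
  constructor
  · set d : Wd n k → ℝ := fun a => if a ∈ Y then 1 else 0 with hd
    refine ⟨U * Matrix.diagonal d * Uᵀ, ⟨?_, ?_⟩, ?_, ?_, ?_⟩
    · rw [Matrix.transpose_mul, Matrix.transpose_mul, Matrix.transpose_transpose,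
        Matrix.diagonal_transpose, Matrix.mul_assoc]
    · calc U * Matrix.diagonal d * Uᵀ * (U * Matrix.diagonal d * Uᵀ)
          = U * Matrix.diagonal d * (Uᵀ * U) * Matrix.diagonal d * Uᵀ := by
            simp only [Matrix.mul_assoc]
        _ = U * (Matrix.diagonal d * Matrix.diagonal d) * Uᵀ := by
            rw [hUU', Matrix.mul_one, Matrix.mul_assoc U]
        _ = U * Matrix.diagonal d * Uᵀ := by
            rw [Matrix.diagonal_mul_diagonal]
            congr 3
            funext a
            simp only [hd]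
            split_ifs <;> simp
    · refine typ_SInv_mul (typ_SInv_mul (tp_SInv O) ?_) ?_
      · intro σ a b
        simp only [Matrix.diagonal_apply, hd]
        have hab : (a ∘ σ = b ∘ σ) ↔ a = b := by
          constructor
          · intro h
            exact σ.surjective.injective_comp_right h
          · intro h
            rw [h]
        simp only [hab, hYs]
      · rw [hUdef, tp_transpose]
        exact tp_SInv _
    · have hr : (U * Matrix.diagonal d * Uᵀ).rank ≤ Y.card := by
        refine (Matrix.rank_mul_le_left _ _).trans ((Matrix.rank_mul_le_right _ _).trans ?_)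
        rw [Matrix.rank_diagonal]
        have : Fintype.card {i // d i ≠ 0} = Y.card := by
          rw [Fintype.card_subtype]
          congr 1
          ext a
          simp [hd]
        exact this.le
      have hc : (Y.card : ℝ) * Real.exp (-(n * (Hn lam + η))) ≤ 1 := by
        rw [← hLam1]
        calc (Y.card : ℝ) * Real.exp (-(n * (Hn lam + η)))
            = ∑ _a ∈ Y, Real.exp (-(n * (Hn lam + η))) := by
              rw [Finset.sum_const, nsmul_eq_mul]
          _ ≤ ∑ a ∈ Y, Lam a := Finset.sum_le_sum fun a ha => (hYb a ha).1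
          _ ≤ ∑ a, Lam a := Finset.sum_le_univ_sum_of_nonneg hLam0
      have hc2 : (Y.card : ℝ) ≤ Real.exp (n * (Hn lam + η)) := by
        have h3 : (Y.card : ℝ) = (Y.card : ℝ) * Real.exp (-(n * (Hn lam + η))) *
            Real.exp (n * (Hn lam + η)) := by
          rw [mul_assoc, ← Real.exp_add, neg_add_cancel, Real.exp_zero, mul_one]
        rw [h3]
        exact (mul_le_mul_of_nonneg_right hc (Real.exp_pos _).le).trans (one_mul _).le
      exact le_trans (by exact_mod_cast hr) hc2
    · have h2 : (1 : Matrix (Wd n k) (Wd n k) ℝ) - U * Matrix.diagonal d * Uᵀ =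
          U * (1 - Matrix.diagonal d) * Uᵀ := by
        rw [Matrix.mul_sub, Matrix.sub_mul, Matrix.mul_one, hUU]
      rw [h2, hXt, ip_conj hUU', ip_diagonal_right]
      refine le_trans (le_of_eq ?_) hYc
      rw [← Finset.sum_subset (Finset.subset_univ (univ \ Y))]
      · refine Finset.sum_congr rfl fun a ha => ?_
        rw [Matrix.sub_apply, Matrix.one_apply_eq, Matrix.diagonal_apply_eq]
        simp only [hd]
        rw [if_neg (Finset.mem_sdiff.mp ha).2, sub_zero, one_mul]
      · intro a _ ha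
        have haY : a ∈ Y := by
          by_contra hcon
          exact ha (Finset.mem_sdiff.mpr ⟨Finset.mem_univ a, hcon⟩)
        rw [Matrix.sub_apply, Matrix.one_apply_eq, Matrix.diagonal_apply_eq]
        simp only [hd]
        rw [if_pos haY, sub_self, zero_mul]
  · intro R hR hRr
    have hR' := proj_conj hUU hR
    have hip : ip R (tp n X) = ∑ a, (Uᵀ * R * U) a a * Lam a := by
      rw [← ip_diagonal_right, hXt]
      have e : R = U * (Uᵀ * R * U) * Uᵀ := by
        calc R = (U * Uᵀ) * R * (U * Uᵀ) := by rw [hUU, Matrix.one_mul, Matrix.mul_one]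
          _ = U * (Uᵀ * R * U) * Uᵀ := by simp only [Matrix.mul_assoc]
      conv_lhs => rw [e]
      rw [ip_conj hUU']
    have htr : ∑ a, (Uᵀ * R * U) a a = R.rank := by
      have e : (Uᵀ * R * U).trace = R.trace := by
        rw [Matrix.trace_mul_comm, ← Matrix.mul_assoc, hUU, Matrix.one_mul]
      rw [← trace_proj hR, ← e]
      rfl
    rw [hip, ← Finset.sum_sdiff (Finset.subset_univ Y), two_mul]
    refine add_le_add ?_ ?_
    · refine le_trans (Finset.sum_le_sum fun a _ => ?_) hYc
      exact (mul_le_mul_of_nonneg_right (proj_diag hR' a).2 (hLam0 a)).trans (one_mul _).le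
    · calc ∑ a ∈ Y, (Uᵀ * R * U) a a * Lam a
          ≤ ∑ a ∈ Y, (Uᵀ * R * U) a a * Real.exp (-(n * (Hn lam - η))) :=
            Finset.sum_le_sum fun a ha =>
              mul_le_mul_of_nonneg_left (hYb a ha).2 (proj_diag hR' a).1
        _ = (∑ a ∈ Y, (Uᵀ * R * U) a a) * Real.exp (-(n * (Hn lam - η))) := by
            rw [Finset.sum_mul]
        _ ≤ (∑ a, (Uᵀ * R * U) a a) * Real.exp (-(n * (Hn lam - η))) := by
            refine mul_le_mul_of_nonneg_right ?_ (Real.exp_pos _).le
            exact Finset.sum_le_univ_sum_of_nonneg fun a => (proj_diag hR' a).1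
        _ ≤ Real.exp (n * (Hn lam - 2 * η)) * Real.exp (-(n * (Hn lam - η))) := by
            rw [htr]
            exact mul_le_mul_of_nonneg_right hRr (Real.exp_pos _).le
        _ = Real.exp (-((n : ℝ) * η)) := by
            rw [← Real.exp_add]
            congr 1
            ring
        _ ≤ η := hn

end Pool.Agent.Lib.MP_0430e4_lc.QB
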