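import Pool.Agent.Lib.MP_0430e4_lc.QB.ASM
import Pool.Agent.Lib.MP_0430e4_lc.QB.TYPM

/-!
# The quantum bound for the exponent
-/

set_option autoImplicit false
set_option linter.unusedSectionVars false

namespace Pool.Agent.Lib.MP_0430e4_lc.QB

open Finset Tensor Matrix Filter Topology

variable {n k : ℕ} {α : Type*} [Fintype α] [DecidableEq α]

namespace LIMaux

theorem ell_le_one {δ : ℝ} (hδ : 0 ≤ δ) : ell δ ≤ 1 := by
  have h1 : IsCert ((1 - 2 * δ) * ((1 : ℕ) : ℝ)) (fun _ : Fin 1 → Bool => (1 : ℝ)) := by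
    apply isCert_one
    simp only [Fintype.card_fin]
    exact level_le hδ 1
  have h2 := ell_le_of_cert hδ le_rfl h1
  rw [val_one] at h2
  simp only [Fintype.card_fin, pow_one, Nat.cast_one, div_one] at h2
  rw [Real.logb_self_eq_one (by norm_num)] at h2
  exact h2

theorem ip_self_eq {S : Matrix (Fin k) (Fin k) ℝ} (hS : Sᵀ = S) : ip S S = (S * S).trace := by
  unfold ip Matrix.trace
  refine Finset.sum_congr rfl fun i _ => ?_
  rw [Matrix.diag_apply, Matrix.mul_apply]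
  refine Finset.sum_congr rfl fun j _ => ?_
  have : S j i = S i j := by
    conv_rhs => rw [← hS]
    rfl
  rw [this]

theorem trace_conj {O X : Matrix (Fin k) (Fin k) ℝ} (hO : O * Oᵀ = 1) {lam : Fin k → ℝ}
    (hX : X = O * Matrix.diagonal lam * Oᵀ) : X.trace = ∑ i, lam i := by
  have hO' : Oᵀ * O = 1 := mul_eq_one_comm.mp hO
  rw [hX, Matrix.trace_mul_comm, ← Matrix.mul_assoc, hO', Matrix.one_mul, Matrix.trace_diagonal]

theorem trace_blk (ε : Fin k → Bool) (X : Matrix (Fin k) (Fin k) ℝ) :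
    (blk ε X).trace = X.trace := by
  unfold Matrix.trace blk
  refine Finset.sum_congr rfl fun i _ => ?_
  simp

theorem Hn_nonneg {lam : Fin k → ℝ} (h0 : ∀ i, 0 ≤ lam i) (h1 : ∑ i, lam i = 1) :
    0 ≤ Hn lam := by
  unfold Hn
  refine Finset.sum_nonneg fun i _ => ?_
  refine Real.negMulLog_nonneg (h0 i) ?_
  rw [← h1]
  exact Finset.single_le_sum (fun j _ => h0 j) (Finset.mem_univ i)

theorem lim_log (c m A : ℝ) :
    Tendsto (fun n : ℕ => (c + m * Real.log (n + 1)) / n + A) atTop (𝓝 A) := by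
  have h1 : Tendsto (fun n : ℕ => Real.log ((n : ℝ) + 1) / n) atTop (𝓝 0) := by
    have h2 : Tendsto (fun n : ℕ => Real.log (((n + 1 : ℕ) : ℝ)) / ((n + 1 : ℕ) : ℝ)) atTop (𝓝 0) := by
      have h3 := (Real.isLittleO_log_id_atTop.tendsto_div_nhds_zero).comp
        (tendsto_natCast_atTop_atTop (R := ℝ))
      exact (tendsto_add_atTop_iff_nat 1).2 h3
    have h4 : Tendsto (fun n : ℕ => 1 + 1 / (n : ℝ)) atTop (𝓝 (1 + 0)) :=
      tendsto_const_nhds.add (tendsto_one_div_atTop_nhds_zero_nat)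
    have h5 := h2.mul h4
    rw [zero_mul] at h5
    refine h5.congr' ?_
    filter_upwards [eventually_ge_atTop 1] with n hn
    have hn0 : (0 : ℝ) < n := by exact_mod_cast hn
    push_cast
    field_simp
  have h2 : Tendsto (fun n : ℕ => c / (n : ℝ) + m * (Real.log ((n : ℝ) + 1) / n) + A) atTop
      (𝓝 (0 + m * 0 + A)) :=
    ((tendsto_const_div_atTop_nhds_zero_nat c).add (h1.const_mul m)).add_const A
  rw [mul_zero, zero_add, zero_add] at h2
  refine h2.congr fun n => ?_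
  ring

theorem exp_beats {a : ℝ} (ha : 0 < a) (m : ℕ) :
    ∀ᶠ n : ℕ in atTop, ((n + 1 : ℕ) : ℝ) ^ m ≤ Real.exp (n * a) := by
  have h := lim_log 0 m (-a)
  have h2 : ∀ᶠ n : ℕ in atTop, ((0 : ℝ) + m * Real.log (n + 1)) / n + -a < 0 :=
    h.eventually_lt_const (by linarith)
  filter_upwards [h2, eventually_ge_atTop 1] with n h3 hn
  have hn0 : (0 : ℝ) < n := by exact_mod_cast hn
  have h4 : m * Real.log ((n : ℝ) + 1) ≤ n * a := by
    have h5 : (m * Real.log ((n : ℝ) + 1)) / n < a := by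
      rw [zero_add] at h3
      linarith
    rw [div_lt_iff₀ hn0] at h5
    linarith
  have h6 : ((n + 1 : ℕ) : ℝ) ^ m = Real.exp (m * Real.log ((n : ℝ) + 1)) := by
    rw [← Real.log_pow, Real.exp_log (by positivity)]
    push_cast
    ring
  rw [h6]
  exact Real.exp_le_exp.2 h4

/-- one value of the parameter -/
theorem step (ε : Fin k → Bool) {S O1 O2 : Matrix (Fin k) (Fin k) ℝ} (hS : Sᵀ = S)
    (hO1 : O1 * O1ᵀ = 1) (hO2 : O2 * O2ᵀ = 1) {lam mu : Fin k → ℝ} (hl : ∀ i, 0 ≤ lam i)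
    (hm : ∀ i, 0 ≤ mu i) (hl1 : ∑ i, lam i = 1) (hX : S * S = O1 * Matrix.diagonal lam * O1ᵀ)
    (hB : blk ε (S * S) = O2 * Matrix.diagonal mu * O2ᵀ) {δ : ℝ} (hδ : 0 ≤ δ) {η : ℝ}
    (hη0 : 0 < η) (hη : η ≤ 1 / 16) (hs : 1 - 2 * δ ≤ sS ε S - 80 * η) (hmu : η ^ 2 < Hn mu) :
    ell δ ≤ 1 + (Hn lam - Hn mu + 2 * η ^ 2) / Real.log 2 := by
  have hlog2 : 0 < Real.log 2 := Real.log_pos (by norm_num)
  have htr : ip S S = 1 := by
    rw [ip_self_eq hS, trace_conj hO1 hX, hl1]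
  have hm1 : ∑ i, mu i = 1 := by
    rw [← trace_conj hO2 hB, trace_blk, trace_conj hO1 hX, hl1]
  have hη2 : 0 < η ^ 2 / 2 := by positivity
  have t1 := typ hO1 hl hl1 hX hη2
  have t2 := typ hO2 hm hm1 hB hη2
  have t3 := exp_beats (a := Hn mu - η ^ 2) (by linarith) (k * k)
  have hlim := lim_log (Real.log 2 / Real.log 2) (4 * ((k * k : ℕ) : ℝ) / Real.log 2)
    (1 + (Hn lam - Hn mu + 2 * η ^ 2) / Real.log 2)
  refine ge_of_tendsto hlim ?_
  filter_upwards [t1, t2, t3, eventually_ge_atTop 1] with n t1 t2 t3 hn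
  have hn0 : (0 : ℝ) < n := by exact_mod_cast hn
  obtain ⟨⟨T, hT, hTS, hTr, hT1⟩, -⟩ := t1
  have hR := t2.2
  set D : ℕ := (n + 1) ^ (k * k) with hD
  have hDpos : 0 < D := by positivity
  have hDr : (0 : ℝ) < D := by exact_mod_cast hDpos
  have hDcast : ((n + 1 : ℕ) : ℝ) ^ (k * k) = (D : ℝ) := by
    rw [hD]
    push_cast
    ring
  rw [hDcast] at t3
  set y : ℝ := Real.exp (n * (Hn mu - η ^ 2)) / D with hy
  have hy1 : 1 ≤ y := by
    rw [hy, le_div_iff₀ hDr, one_mul]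
    exact t3
  set N2 : ℕ := ⌊y⌋₊ with hN2
  have hN2pos : 0 < N2 := Nat.floor_pos.2 hy1
  have hN2le : (N2 : ℝ) ≤ y := Nat.floor_le (by linarith)
  have hN2ge : y / 2 ≤ N2 := by
    have h1 : y < N2 + 1 := Nat.lt_floor_add_one y
    have h2 : (1 : ℝ) ≤ N2 := by exact_mod_cast hN2pos
    linarith
  have hfb := finite_bound (N1 := D * T.rank) ε hS htr (by omega : 0 < n) hN2pos hη0.le hη hT hTS
    le_rfl (by
      refine le_trans hT1 ?_
      have : 0 ≤ η ^ 2 := sq_nonneg _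
      linarith) (by
      intro R hRp hRr
      have h1 : (R.rank : ℝ) ≤ Real.exp (n * (Hn mu - 2 * (η ^ 2 / 2))) := by
        have h2 : (R.rank : ℝ) ≤ D * N2 := by exact_mod_cast hRr
        have h3 : (D : ℝ) * N2 ≤ D * y := mul_le_mul_of_nonneg_left hN2le hDr.le
        have h4 : (D : ℝ) * y = Real.exp (n * (Hn mu - η ^ 2)) := by
          rw [hy]
          field_simp
        have h5 : Hn mu - 2 * (η ^ 2 / 2) = Hn mu - η ^ 2 := by ring
        rw [h5, ← h4]
        exact le_trans h2 h3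
      refine le_trans (hR R hRp h1) (le_of_eq ?_)
      ring)
  obtain ⟨h, l, hcert, hl', hval⟩ := hfb
  have hcert' : IsCert ((1 - 2 * δ) * n) h := by
    apply hcert.mono
    refine le_trans ?_ hl'
    rw [mul_comm]
    exact mul_le_mul_of_nonneg_left hs hn0.le
  refine (ell_le_of_cert hδ hn hcert').trans ?_
  have hv1 : 1 ≤ Tensor.val h := one_le_val hcert
  have hv0 : 0 < Tensor.val h := by linarith
  have hvb : Tensor.val h ≤ 2 ^ n * 2 * (D : ℝ) ^ 4 *
      Real.exp (n * (Hn lam - Hn mu + 2 * η ^ 2)) := by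
    refine le_trans hval ?_
    have e1 : (((n : ℝ) + 1) ^ (k * k)) = (D : ℝ) := by
      rw [← hDcast]
      push_cast
      ring
    rw [e1]
    push_cast
    have e2 : (D : ℝ) * (T.rank : ℝ) ≤ D * Real.exp (n * (Hn lam + η ^ 2 / 2)) :=
      mul_le_mul_of_nonneg_left hTr hDr.le
    have hN2r : (0 : ℝ) < N2 := by exact_mod_cast hN2pos
    have hy0 : 0 < y := by linarith
    calc 2 ^ n * (D : ℝ) ^ 2 * ((D : ℝ) * (T.rank : ℝ)) / N2
        ≤ 2 ^ n * (D : ℝ) ^ 2 * (D * Real.exp (n * (Hn lam + η ^ 2 / 2))) / (y / 2) := by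
          refine div_le_div₀ (by positivity) ?_ (by positivity) hN2ge
          exact mul_le_mul_of_nonneg_left e2 (by positivity)
      _ = 2 ^ n * 2 * (D : ℝ) ^ 4 * (Real.exp (n * (Hn lam + η ^ 2 / 2))
            / Real.exp (n * (Hn mu - η ^ 2))) := by
          rw [hy]
          field_simp
      _ = 2 ^ n * 2 * (D : ℝ) ^ 4 * Real.exp (n * (Hn lam - Hn mu + 3 / 2 * η ^ 2)) := by
          rw [← Real.exp_sub]
          congr 2
          ring
      _ ≤ 2 ^ n * 2 * (D : ℝ) ^ 4 * Real.exp (n * (Hn lam - Hn mu + 2 * η ^ 2)) := by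
          refine mul_le_mul_of_nonneg_left (Real.exp_le_exp.2 ?_) (by positivity)
          refine mul_le_mul_of_nonneg_left ?_ hn0.le
          have : 0 ≤ η ^ 2 := sq_nonneg _
          linarith
  have hlog : Real.log (Tensor.val h) ≤ n * Real.log 2 + Real.log 2 +
      4 * ((k * k : ℕ) : ℝ) * Real.log ((n : ℝ) + 1) + n * (Hn lam - Hn mu + 2 * η ^ 2) := by
    refine le_trans (Real.log_le_log hv0 hvb) (le_of_eq ?_)
    rw [Real.log_mul (by positivity) (Real.exp_pos _).ne', Real.log_exp,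
      Real.log_mul (by positivity) (by positivity), Real.log_mul (by positivity) (by norm_num),
      Real.log_pow, Real.log_pow, ← hDcast, Real.log_pow]
    push_cast
    ring
  rw [Real.logb, div_div, mul_comm (Real.log 2)]
  rw [div_le_iff₀ (by positivity)]
  refine le_trans hlog (le_of_eq ?_)
  field_simp
  ring

end LIMaux

open LIMaux in
theorem quantum_bound (ε : Fin k → Bool) {S O1 O2 : Matrix (Fin k) (Fin k) ℝ} (hS : Sᵀ = S)
    (hO1 : O1 * O1ᵀ = 1) (hO2 : O2 * O2ᵀ = 1) {lam mu : Fin k → ℝ} (hl : ∀ i, 0 ≤ lam i)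
    (hm : ∀ i, 0 ≤ mu i) (hl1 : ∑ i, lam i = 1) (hX : S * S = O1 * Matrix.diagonal lam * O1ᵀ)
    (hB : blk ε (S * S) = O2 * Matrix.diagonal mu * O2ᵀ) {δ : ℝ} (hδ : 0 < δ)
    (hs : 1 - 2 * δ ≤ sS ε S) :
    ell δ ≤ 1 - (Hn mu - Hn lam) / Real.log 2 := by
  have hlog2 : 0 < Real.log 2 := Real.log_pos (by norm_num)
  have hl0 : 0 ≤ Hn lam := Hn_nonneg hl hl1
  rcases le_or_gt (Hn mu) (Hn lam) with hc | hc
  · refine le_trans (ell_le_one hδ.le) ?_
    have : (Hn mu - Hn lam) / Real.log 2 ≤ 0 := div_nonpos_of_nonpos_of_nonneg (by linarith) hlog2.le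
    linarith
  have hmu : 0 < Hn mu := by linarith
  -- strict inequality first
  have hstrict : ∀ δ' : ℝ, δ < δ' → ell δ' ≤ 1 - (Hn mu - Hn lam) / Real.log 2 := by
    intro δ' hδ'
    have hlim : Tendsto (fun η : ℝ => 1 + (Hn lam - Hn mu + 2 * η ^ 2) / Real.log 2) (𝓝[>] 0)
        (𝓝 (1 + (Hn lam - Hn mu + 2 * 0 ^ 2) / Real.log 2)) := by
      have hcont : Continuous fun η : ℝ => 1 + (Hn lam - Hn mu + 2 * η ^ 2) / Real.log 2 := by
        fun_prop
      exact (hcont.tendsto 0).mono_left nhdsWithin_le_nhds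
    have e1 : 1 + (Hn lam - Hn mu + 2 * 0 ^ 2) / Real.log 2 = 1 - (Hn mu - Hn lam) / Real.log 2 := by
      ring
    rw [e1] at hlim
    refine ge_of_tendsto hlim ?_
    have hpos : 0 < min (min (1 / 16) ((δ' - δ) / 40)) (min 1 (Hn mu / 2)) := by
      refine lt_min (lt_min (by norm_num) (by linarith)) (lt_min one_pos (by linarith))
    filter_upwards [Ioo_mem_nhdsGT hpos] with η hη
    have a1 : η < 1 / 16 := lt_of_lt_of_le hη.2 (le_trans (min_le_left _ _) (min_le_left _ _))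
    have a2 : η < (δ' - δ) / 40 := lt_of_lt_of_le hη.2 (le_trans (min_le_left _ _) (min_le_right _ _))
    have a3 : η < 1 := lt_of_lt_of_le hη.2 (le_trans (min_le_right _ _) (min_le_left _ _))
    have a4 : η < Hn mu / 2 := lt_of_lt_of_le hη.2 (le_trans (min_le_right _ _) (min_le_right _ _))
    have a0 : 0 < η := hη.1
    refine step ε hS hO1 hO2 hl hm hl1 hX hB (by linarith) a0 a1.le (by linarith) ?_
    nlinarith
  have hc' : ContinuousAt ell δ := ell_continuousOn.continuousAt (Ioi_mem_nhds hδ)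
  have ht : Tendsto ell (𝓝[>] δ) (𝓝 (ell δ)) := hc'.tendsto.mono_left nhdsWithin_le_nhds
  refine le_of_tendsto ht ?_
  filter_upwards [self_mem_nhdsWithin] with δ' hδ'
  exact hstrict δ' hδ'

end Pool.Agent.Lib.MP_0430e4_lc.QB
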