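import Pool.Agent.Lib.MP_0430e4_lc.QB.FbDef
import Pool.Agent.Lib.MP_0430e4_lc.QB.K3A
import Pool.Agent.Lib.MP_0430e4_lc.QB.K3B
import Pool.Agent.Lib.MP_0430e4_lc.QB.LIM

/-!
# The exponent of tensor certificates lies strictly below the second linear programming bound
-/

set_option autoImplicit false
set_option linter.unusedSectionVars false

namespace Pool.Agent.Lib.MP_0430e4_lc.QB

open Finset Tensor Matrix Filter Topology

/-- the Lipschitz estimate of the convex function `ell` -/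
private lemma ell_lip {δ x : ℝ} (hδ : 0 < δ) (hx : 0 < x) :
    ell δ ≤ ell (δ + 2 * x) + x * (4 * (ell (δ / 2) - ell δ) / δ) := by
  have h1 := ell_convexOn.slope_mono_adjacent (x := δ / 2) (y := δ) (z := δ + 2 * x)
    (by rw [Set.mem_Ici]; linarith) (by rw [Set.mem_Ici]; linarith) (by linarith) (by linarith)
  have h2 : δ - δ / 2 = δ / 2 := by ring
  have h3 : δ + 2 * x - δ = 2 * x := by ring
  rw [h2, h3, div_le_div_iff₀ (by linarith) (by linarith)] at h1
  have h4 : x * (4 * (ell (δ / 2) - ell δ) / δ) = 4 * x * (ell (δ / 2) - ell δ) / δ := by ring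
  have h5 : (ell δ - ell (δ + 2 * x)) ≤ 4 * x * (ell (δ / 2) - ell δ) / δ := by
    rw [le_div_iff₀ hδ]
    nlinarith
  rw [h4]
  linarith

theorem ell_lt_Fb {δ u : ℝ} (hδ : 0 < δ) (hu : 0 < u) (hu1 : u ≤ 1 - 2 * δ) :
    ell δ < Fb δ u := by
  have hv : 0 ≤ 1 - (u ^ 2 + 2 * δ * u + 2 * δ) := by
    have : 1 - (u ^ 2 + 2 * δ * u + 2 * δ) = (1 + u) * (1 - 2 * δ - u) := by ring
    rw [this]
    apply mul_nonneg <;> linarith
  have hs2 : 0 < 1 - u ^ 2 := by nlinarith
  set τ := 1 / 2 - 1 / 2 * Real.sqrt (1 - u ^ 2) with hτ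
  set α := 1 / 2 - 1 / 2 * Real.sqrt (1 - (u ^ 2 + 2 * δ * u + 2 * δ)) with hα
  have hτ0 : 0 < τ := by
    have : Real.sqrt (1 - u ^ 2) < 1 := by
      rw [Real.sqrt_lt' one_pos]
      nlinarith
    rw [hτ]; linarith
  have hτα : τ < α := by
    have : Real.sqrt (1 - (u ^ 2 + 2 * δ * u + 2 * δ)) < Real.sqrt (1 - u ^ 2) := by
      apply Real.sqrt_lt_sqrt hv
      nlinarith [mul_pos hδ hu]
    rw [hτ, hα]; linarith
  have hα2 : α ≤ 1 / 2 := by
    have := Real.sqrt_nonneg (1 - (u ^ 2 + 2 * δ * u + 2 * δ))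
    rw [hα]; linarith
  have hτsq : 4 * τ * (1 - τ) = u ^ 2 := by
    have h1 := Real.sq_sqrt hs2.le
    have h2 : 4 * τ * (1 - τ) = 1 - Real.sqrt (1 - u ^ 2) ^ 2 := by rw [hτ]; ring
    rw [h2, h1]; ring
  have hαsq : 4 * α * (1 - α) = u ^ 2 + 2 * δ * u + 2 * δ := by
    have h1 := Real.sq_sqrt hv
    have h2 : 4 * α * (1 - α) = 1 - Real.sqrt (1 - (u ^ 2 + 2 * δ * u + 2 * δ)) ^ 2 := by
      rw [hα]; ring
    rw [h2, h1]; ring
  have hsq : 2 * Real.sqrt (τ * (1 - τ)) = u := by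
    have h1 : τ * (1 - τ) = (u / 2) ^ 2 := by nlinarith
    rw [h1, Real.sqrt_sq (by linarith)]
    ring
  have hlevel : (4 * α * (1 - α) - 4 * τ * (1 - τ)) / (1 + 2 * Real.sqrt (τ * (1 - τ)))
      = 2 * δ := by
    rw [hτsq, hαsq, hsq, div_eq_iff (by linarith)]
    ring
  obtain ⟨C, κ, x0, hκ, hx0, hx02, hent⟩ := k3_entropy hτ0 hτα hα2
  have hlog2 : 0 < Real.log 2 := Real.log_pos (by norm_num)
  set L := 4 * (ell (δ / 2) - ell δ) / δ with hL
  set A := (|C| + |L| * Real.log 2 + 1) / κ with hA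
  set x := min (x0 / 2) (Real.exp (-A)) with hx
  have hx_pos : 0 < x := lt_min (by linarith) (Real.exp_pos _)
  have hxx0 : x < x0 := lt_of_le_of_lt (min_le_left _ _) (by linarith)
  have hx1 : x < 1 := by linarith
  have hlogx : A ≤ Real.log (1 / x) := by
    rw [one_div, Real.log_inv]
    have h1 : Real.log x ≤ -A := by
      rw [Real.log_le_iff_le_exp hx_pos]
      exact min_le_right _ _
    linarith
  obtain ⟨S, O1, O2, m1, m2, hS, hO1, hO2, hX, hm1, hm2, hm21, hsum, hprod, hB, hlev⟩ :=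
    k3_algebra hτ0 hτα hα2 hx_pos hx1
  have hβ : (α - τ) / (1 - 2 * τ) ≤ 1 / 2 := by
    rw [div_le_iff₀ (by linarith)]
    linarith
  have hβ0 : 0 ≤ (α - τ) / (1 - 2 * τ) := div_nonneg (by linarith) (by linarith)
  have hsum1 : m1 + m2 ≤ 1 := by
    rw [hsum]
    have h1 : τ * x * ((α - τ) / (1 - 2 * τ)) ≤ 1 / 2 * 1 * (1 / 2) := by
      apply mul_le_mul _ hβ hβ0 (by norm_num)
      apply mul_le_mul _ hx1.le hx_pos.le (by norm_num)
      linarith
    linarith
  have hq := quantum_bound (δ := δ + 2 * x) eps3 hS hO1 hO2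
    (lam := ![1 - τ, τ, 0]) (mu := ![1 - (m1 + m2), m1, m2])
    (by
      intro i
      fin_cases i
      · show (0 : ℝ) ≤ 1 - τ
        linarith
      · exact hτ0.le
      · exact le_refl _)
    (by
      intro i
      fin_cases i
      · show (0 : ℝ) ≤ 1 - (m1 + m2)
        linarith
      · exact hm1
      · exact hm2)
    (by simp [Fin.sum_univ_three]) hX hB (by linarith)
    (by
      rw [hlevel] at hlev
      linarith)
  have he := hent x m1 m2 hx_pos hxx0 hm1 hm2 hm21 hsum hprod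
  have hlip := ell_lip hδ hx_pos
  rw [← hL] at hlip
  have hFb : Fb δ u = 1 - (Real.binEntropy α - Real.binEntropy τ) / Real.log 2 := by
    unfold Fb
    rw [← hτ, ← hα]
    ring
  rw [hFb]
  have h1 : (Real.binEntropy α - Real.binEntropy τ + κ * x * Real.log (1 / x) - C * x)
      / Real.log 2 ≤ (Hn ![1 - (m1 + m2), m1, m2] - Hn ![1 - τ, τ, 0]) / Real.log 2 :=
    div_le_div_of_nonneg_right he hlog2.le
  have h2 : (Real.binEntropy α - Real.binEntropy τ + κ * x * Real.log (1 / x) - C * x)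
      / Real.log 2 = (Real.binEntropy α - Real.binEntropy τ) / Real.log 2
        + x * (κ * Real.log (1 / x) - C) / Real.log 2 := by
    ring
  have h3 : x * L < x * (κ * Real.log (1 / x) - C) / Real.log 2 := by
    rw [lt_div_iff₀ hlog2, mul_assoc]
    apply mul_lt_mul_of_pos_left _ hx_pos
    have h4 : κ * A = |C| + |L| * Real.log 2 + 1 := by
      rw [hA]; field_simp
    have h5 : κ * A ≤ κ * Real.log (1 / x) := mul_le_mul_of_nonneg_left hlogx hκ.le
    have h6 : C ≤ |C| := le_abs_self _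
    have h7 : L * Real.log 2 ≤ |L| * Real.log 2 :=
      mul_le_mul_of_nonneg_right (le_abs_self _) hlog2.le
    linarith
  linarith

end Pool.Agent.Lib.MP_0430e4_lc.QB
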