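import Pool.Agent.Lib.MP_0430e4_lc.QB.Defs

/-!
# Quantum bound: Hadamard products with the kernel `κ` and the block diagonal part
-/

set_option autoImplicit false
set_option linter.unusedSectionVars false

namespace Pool.Agent.Lib.MP_0430e4_lc.QB

open Finset Tensor Matrix

variable {n k : ℕ} {α : Type*} [Fintype α] [DecidableEq α]

/-- compression by a diagonal matrix keeps positive semidefiniteness -/
theorem diag_psd (d : α → ℝ) {φ : Matrix α α ℝ} (h : φ.PosSemidef) :
    (Matrix.of fun a b => d a * d b * φ a b : Matrix α α ℝ).PosSemidef := by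
  have h1 := h.conjTranspose_mul_mul_same (Matrix.diagonal d)
  have h2 : (Matrix.of fun a b => d a * d b * φ a b : Matrix α α ℝ) =
      (Matrix.diagonal d)ᴴ * φ * Matrix.diagonal d := by
    ext a b
    rw [Matrix.diagonal_conjTranspose, Matrix.mul_diagonal, Matrix.diagonal_mul]
    simp only [Matrix.of_apply, Pi.star_apply, star_trivial]
    ring
  rw [h2]
  exact h1

theorem KU_psd (ε : Fin k → Bool) {φ : Matrix (Wd n k) (Wd n k) ℝ} (h : φ.PosSemidef) :
    (KU ε φ).PosSemidef := by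
  have e : KU ε φ = ∑ i : Fin n, (Matrix.of fun a b => sgn ε (a i) * sgn ε (b i) * φ a b :
      Matrix (Wd n k) (Wd n k) ℝ) := by
    ext a b
    rw [Matrix.sum_apply]
    simp only [KU, kap, Matrix.of_apply, Finset.sum_mul]
  rw [e]
  exact Matrix.posSemidef_sum _ fun i _ => diag_psd (fun a => sgn ε (a i)) h

theorem bdp_psd (ε : Fin k → Bool) {φ : Matrix (Wd n k) (Wd n k) ℝ} (h : φ.PosSemidef) :
    (bdp ε φ).PosSemidef := by
  have e : bdp ε φ = ∑ y : Fin n → Bool, (Matrix.of fun a b =>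
      (if yw ε a = y then (1 : ℝ) else 0) * (if yw ε b = y then (1 : ℝ) else 0) * φ a b :
      Matrix (Wd n k) (Wd n k) ℝ) := by
    ext a b
    rw [Matrix.sum_apply]
    simp only [bdp, Matrix.of_apply]
    rw [Finset.sum_eq_single (yw ε a)]
    · by_cases hab : yw ε a = yw ε b
      · simp [hab]
      · rw [if_neg hab, if_pos rfl, if_neg (Ne.symm hab)]
        simp
    · intro y _ hy
      rw [if_neg (Ne.symm hy)]
      simp
    · intro hh
      exact absurd (Finset.mem_univ _) hh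
  rw [e]
  exact Matrix.posSemidef_sum _ fun y _ =>
    diag_psd (fun a => if yw ε a = y then (1 : ℝ) else 0) h

theorem abs_sgn (ε : Fin k → Bool) (j : Fin k) : |sgn ε j| = 1 := by
  unfold sgn
  split_ifs <;> simp

theorem abs_kap_le (ε : Fin k → Bool) (a b : Wd n k) : |kap ε a b| ≤ n := by
  unfold kap
  refine (Finset.abs_sum_le_sum_abs _ _).trans ?_
  simp only [abs_mul, abs_sgn, mul_one]
  simp

theorem kap_comp (ε : Fin k → Bool) (σ : Equiv.Perm (Fin n)) (a b : Wd n k) :
    kap ε (a ∘ σ) (b ∘ σ) = kap ε a b := by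
  unfold kap
  exact Equiv.sum_comp σ (fun i => sgn ε (a i) * sgn ε (b i))

theorem KU_SInv (ε : Fin k → Bool) {φ : Matrix (Wd n k) (Wd n k) ℝ} (h : SInv φ) :
    SInv (KU ε φ) := by
  intro σ a b
  simp only [KU, Matrix.of_apply]
  rw [kap_comp, h σ a b]

theorem yw_comp (ε : Fin k → Bool) (σ : Equiv.Perm (Fin n)) (a : Wd n k) :
    yw ε (a ∘ σ) = yw ε a ∘ σ := rfl

theorem yw_comp_eq (ε : Fin k → Bool) (σ : Equiv.Perm (Fin n)) (a b : Wd n k) :
    yw ε (a ∘ σ) = yw ε (b ∘ σ) ↔ yw ε a = yw ε b := by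
  rw [yw_comp, yw_comp]
  exact σ.surjective.injective_comp_right.eq_iff

theorem bdp_SInv (ε : Fin k → Bool) {φ : Matrix (Wd n k) (Wd n k) ℝ} (h : SInv φ) :
    SInv (bdp ε φ) := by
  intro σ a b
  simp only [bdp, Matrix.of_apply, yw_comp_eq, h σ a b]

theorem bdp_Blk (ε : Fin k → Bool) (φ : Matrix (Wd n k) (Wd n k) ℝ) : Blk ε (bdp ε φ) := by
  intro a b hab
  simp only [bdp, Matrix.of_apply, if_neg hab]

theorem bdp_trace (ε : Fin k → Bool) (φ : Matrix (Wd n k) (Wd n k) ℝ) :
    (bdp ε φ).trace = φ.trace := by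
  simp [bdp, Matrix.trace]

end Pool.Agent.Lib.MP_0430e4_lc.QB
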