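import Pool.Agent.Lib.MP_0430e4_lc.QB.IP2
import Pool.Agent.Lib.MP_0430e4_lc.QB.HAD1

/-!
# Quantum bound: the certificate of a positive semidefinite matrix
-/

set_option autoImplicit false
set_option linter.unusedSectionVars false

namespace Pool.Agent.Lib.MP_0430e4_lc.QB

open Finset Tensor Matrix

variable {n k : ℕ} {α : Type*} [Fintype α] [DecidableEq α]

/-- conjugation by `U_v` -/
def cjU (ε : Fin k → Bool) (φ : Matrix (Wd n k) (Wd n k) ℝ) (v : Fin n → Bool) :
    Matrix (Wd n k) (Wd n k) ℝ :=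
  Matrix.of fun a b => chi v (yw ε a) * chi v (yw ε b) * φ a b

theorem cert_hq_eq (ε : Fin k → Bool) (φ : Matrix (Wd n k) (Wd n k) ℝ) (v : Fin n → Bool) :
    hq ε φ v = ip (cjU ε φ v) φ := by
  unfold hq ip cjU
  simp only [Matrix.of_apply]
  refine Finset.sum_congr rfl fun a _ => Finset.sum_congr rfl fun b _ => ?_
  ring

theorem cert_cjU_psd (ε : Fin k → Bool) {φ : Matrix (Wd n k) (Wd n k) ℝ} (h : φ.PosSemidef)
    (v : Fin n → Bool) : (cjU ε φ v).PosSemidef := diag_psd (fun a => chi v (yw ε a)) h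

theorem cert_chi_flp (ε : Fin k → Bool) (v : Fin n → Bool) (i : Fin n) (a : Wd n k) :
    chi (flp v i) (yw ε a) = sgn ε (a i) * chi v (yw ε a) := by
  rw [chi_comm, chi_flp, chi_comm]
  rfl

theorem cert_sum_flp (ε : Fin k → Bool) (φ : Matrix (Wd n k) (Wd n k) ℝ) (v : Fin n → Bool) :
    ∑ i, hq ε φ (flp v i) = ip (cjU ε φ v) (KU ε φ) := by
  unfold hq ip cjU KU kap
  simp only [Matrix.of_apply]
  rw [Finset.sum_comm]
  refine Finset.sum_congr rfl fun a _ => ?_
  rw [Finset.sum_comm]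
  refine Finset.sum_congr rfl fun b _ => ?_
  rw [Finset.sum_mul, Finset.mul_sum]
  refine Finset.sum_congr rfl fun i _ => ?_
  rw [cert_chi_flp, cert_chi_flp]
  ring

theorem cert_sum_chi (x : Fin n → Bool) : 0 ≤ ∑ y : Fin n → Bool, chi x y := by
  rw [sum_chi]
  refine Finset.prod_nonneg fun i _ => ?_
  split_ifs <;> norm_num

theorem cert_fourier (ε : Fin k → Bool) (φ : Matrix (Wd n k) (Wd n k) ℝ) (x : Fin n → Bool) :
    0 ≤ ∑ v, hq ε φ v * chi x v := by
  unfold hq
  have h1 : ∑ v : Fin n → Bool, (∑ a, ∑ b, φ a b ^ 2 * (chi v (yw ε a) * chi v (yw ε b))) * chi x v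
      = ∑ a, ∑ b, φ a b ^ 2 *
        ∑ v : Fin n → Bool, chi (fun i => xor (xor (yw ε a i) (yw ε b i)) (x i)) v := by
    simp only [Finset.sum_mul, Finset.mul_sum]
    rw [Finset.sum_comm]
    refine Finset.sum_congr rfl fun a _ => ?_
    rw [Finset.sum_comm]
    refine Finset.sum_congr rfl fun b _ => Finset.sum_congr rfl fun v _ => ?_
    rw [chi_xor, chi_xor, chi_comm v (yw ε a), chi_comm v (yw ε b)]
    ring
  rw [h1]
  exact Finset.sum_nonneg fun a _ => Finset.sum_nonneg fun b _ =>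
    mul_nonneg (sq_nonneg _) (cert_sum_chi _)

theorem cert_hq_zero (ε : Fin k → Bool) (φ : Matrix (Wd n k) (Wd n k) ℝ) :
    hq ε φ (fun _ => false) = ip φ φ := by
  unfold hq ip
  refine Finset.sum_congr rfl fun a _ => Finset.sum_congr rfl fun b _ => ?_
  rw [chi_zero_left, chi_zero_left]
  ring

theorem isCert_hq (ε : Fin k → Bool) {φ : Matrix (Wd n k) (Wd n k) ℝ} (hφ : φ.PosSemidef)
    (hne : φ ≠ 0) {l : ℝ} (hl : (KU ε φ - l • φ).PosSemidef) : IsCert l (hq ε φ) where
  nonneg v := by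
    rw [cert_hq_eq]
    exact ip_psd_nonneg (cert_cjU_psd ε hφ v) hφ
  fourier x := cert_fourier ε φ x
  adj v := by
    rw [cert_sum_flp, cert_hq_eq]
    have h1 := ip_psd_nonneg (cert_cjU_psd ε hφ v) hl
    have h2 : ip (cjU ε φ v) (KU ε φ - l • φ) = ip (cjU ε φ v) (KU ε φ) - l * ip (cjU ε φ v) φ := by
      unfold ip
      simp only [Matrix.sub_apply, Matrix.smul_apply, smul_eq_mul, Finset.mul_sum,
        ← Finset.sum_sub_distrib]
      refine Finset.sum_congr rfl fun a _ => Finset.sum_congr rfl fun b _ => ?_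
      ring
    rw [h2] at h1
    linarith
  pos := by
    rw [cert_hq_zero]
    exact lt_of_le_of_ne (ip_self_nonneg _) fun h => hne ((ip_self_eq_zero φ).1 h.symm)

theorem cert_sum_chi_eq (y z : Fin n → Bool) :
    ∑ v : Fin n → Bool, chi v y * chi v z = if y = z then (2 : ℝ) ^ n else 0 := by
  have h1 : ∑ v : Fin n → Bool, chi v y * chi v z
      = ∑ v : Fin n → Bool, chi (fun i => xor (y i) (z i)) v := by
    refine Finset.sum_congr rfl fun v _ => ?_
    rw [chi_xor, chi_comm v y, chi_comm v z]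
  rw [h1, sum_chi]
  by_cases h : y = z
  · subst h
    rw [if_pos rfl]
    have h2 : ∀ i : Fin n, (if xor (y i) (y i) = true then (0 : ℝ) else 2) = 2 := by
      intro i
      simp
    rw [Finset.prod_congr rfl fun i _ => h2 i, Finset.prod_const, Finset.card_univ,
      Fintype.card_fin]
  · rw [if_neg h]
    obtain ⟨i, hi⟩ := Function.ne_iff.1 h
    refine Finset.prod_eq_zero (Finset.mem_univ i) (if_pos ?_)
    revert hi
    cases y i <;> cases z i <;> simp

theorem val_hq (ε : Fin k → Bool) (φ : Matrix (Wd n k) (Wd n k) ℝ) :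
    Tensor.val (hq ε φ) = 2 ^ n * ip (bdp ε φ) (bdp ε φ) / ip φ φ := by
  unfold Tensor.val
  rw [cert_hq_zero]
  congr 1
  have h1 : ∑ v : Fin n → Bool, hq ε φ v
      = ∑ a, ∑ b, φ a b ^ 2 * ∑ v : Fin n → Bool, chi v (yw ε a) * chi v (yw ε b) := by
    unfold hq
    simp only [Finset.mul_sum]
    rw [Finset.sum_comm]
    refine Finset.sum_congr rfl fun a _ => ?_
    rw [Finset.sum_comm]
  rw [h1]
  unfold ip bdp
  simp only [Matrix.of_apply, Finset.mul_sum]
  refine Finset.sum_congr rfl fun a _ => Finset.sum_congr rfl fun b _ => ?_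
  rw [← Finset.mul_sum, cert_sum_chi_eq]
  by_cases h : yw ε a = yw ε b
  · rw [if_pos h, if_pos h]
    ring
  · rw [if_neg h, if_neg h]
    ring

end Pool.Agent.Lib.MP_0430e4_lc.QB
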