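import Pool.Agent.Lib.MP_0430e4_lc.QB.Defs

/-!
# The commutants of the two groups
-/

set_option autoImplicit false
set_option linter.unusedSectionVars false

namespace Pool.Agent.Lib.MP_0430e4_lc.QB

open Finset Tensor Matrix

variable {n k : ℕ}

theorem DIM1_pm_mul (σ : Equiv.Perm (Fin n)) (M : Matrix (Wd n k) (Wd n k) ℝ) (a b : Wd n k) :
    (Pm k σ * M) a b = M (a ∘ σ) b := by
  rw [Matrix.mul_apply, Finset.sum_eq_single (a ∘ σ)]
  · simp [Pm]
  · intro c _ hc
    simp [Pm, hc]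
  · intro h
    exact absurd (Finset.mem_univ _) h

theorem DIM1_mul_pm (σ : Equiv.Perm (Fin n)) (M : Matrix (Wd n k) (Wd n k) ℝ) (a b : Wd n k) :
    (M * Pm k σ) a (b ∘ σ) = M a b := by
  rw [Matrix.mul_apply, Finset.sum_eq_single b]
  · simp [Pm]
  · intro c _ hc
    have : ¬ (b ∘ σ = c ∘ σ) := by
      intro h
      apply hc
      have h2 := congrArg (fun f : Fin n → Fin k => f ∘ σ.symm) h
      simp only [Function.comp_assoc, Equiv.self_comp_symm, Function.comp_id] at h2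
      exact h2.symm
    simp [Pm, this]
  · intro h
    exact absurd (Finset.mem_univ _) h

theorem DIM1_comm_iff (M : Matrix (Wd n k) (Wd n k) ℝ) :
    (∀ σ : Equiv.Perm (Fin n), Pm k σ * M = M * Pm k σ) ↔ SInv M := by
  constructor
  · intro h σ a b
    have h1 := congrFun (congrFun (h σ) a) (b ∘ σ)
    rw [DIM1_pm_mul, DIM1_mul_pm] at h1
    exact h1
  · intro h σ
    ext a b
    have hb : b = (b ∘ σ.symm) ∘ σ := by
      rw [Function.comp_assoc, Equiv.symm_comp_self, Function.comp_id]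
    rw [hb, DIM1_pm_mul, DIM1_mul_pm, h σ a (b ∘ σ.symm)]

theorem mem_cmt_G1 (M : Matrix (Wd n k) (Wd n k) ℝ) : M ∈ cmt (G1 n k) ↔ SInv M := by
  rw [← DIM1_comm_iff]
  constructor
  · intro h σ
    exact h (Pm k σ) ⟨σ, rfl⟩
  · rintro h g ⟨σ, rfl⟩
    exact h σ

theorem DIM1_chi_sep {x y : Fin n → Bool} (h : x ≠ y) : ∃ v : Fin n → Bool, chi v x ≠ chi v y := by
  obtain ⟨i, hi⟩ := Function.ne_iff.mp h
  refine ⟨fun j => decide (j = i), ?_⟩
  have key : ∀ z : Fin n → Bool, chi (fun j => decide (j = i)) z = if z i = true then -1 else 1 := by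
    intro z
    unfold chi
    rw [Finset.prod_eq_single i]
    · simp
    · intro j _ hj
      simp [hj]
    · intro h
      exact absurd (Finset.mem_univ _) h
  rw [key, key]
  cases hx : x i <;> cases hy : y i
  · exact absurd (hx.trans hy.symm) hi
  · norm_num
  · norm_num
  · exact absurd (hx.trans hy.symm) hi

theorem mem_cmt_G2 (ε : Fin k → Bool) (M : Matrix (Wd n k) (Wd n k) ℝ) :
    M ∈ cmt (G2 n ε) ↔ SInv M ∧ Blk ε M := by
  constructor
  · intro h
    refine ⟨(DIM1_comm_iff M).mp fun σ => h (Pm k σ) (Or.inl ⟨σ, rfl⟩), ?_⟩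
    intro a b hab
    obtain ⟨v, hv⟩ := DIM1_chi_sep hab
    have h1 := congrFun (congrFun (h (Um ε v) (Or.inr ⟨v, rfl⟩)) a) b
    unfold Um at h1
    rw [Matrix.diagonal_mul, Matrix.mul_diagonal] at h1
    have h2 : (chi v (yw ε a) - chi v (yw ε b)) * M a b = 0 := by linarith
    rcases mul_eq_zero.mp h2 with h3 | h3
    · exact absurd (sub_eq_zero.mp h3) hv
    · exact h3
  · rintro ⟨h1, h2⟩ g hg
    rcases hg with ⟨σ, rfl⟩ | ⟨v, rfl⟩
    · exact (DIM1_comm_iff M).mpr h1 σ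
    · unfold Um
      ext a b
      rw [Matrix.diagonal_mul, Matrix.mul_diagonal]
      by_cases hab : yw ε a = yw ε b
      · rw [hab, mul_comm]
      · rw [h2 a b hab]
        ring

theorem DIM1_pm_transpose (σ : Equiv.Perm (Fin n)) : (Pm k σ)ᵀ = Pm k σ.symm := by
  ext a b
  rw [Matrix.transpose_apply]
  unfold Pm
  rw [Matrix.of_apply, Matrix.of_apply]
  have : a = b ∘ σ ↔ b = a ∘ σ.symm := by
    constructor
    · intro h
      rw [h, Function.comp_assoc, Equiv.self_comp_symm, Function.comp_id]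
    · intro h
      rw [h, Function.comp_assoc, Equiv.symm_comp_self, Function.comp_id]
  simp only [this]

theorem G1_transpose : ∀ g ∈ G1 n k, gᵀ ∈ G1 n k := by
  rintro g ⟨σ, rfl⟩
  exact ⟨σ.symm, DIM1_pm_transpose σ⟩

theorem G2_transpose (ε : Fin k → Bool) : ∀ g ∈ G2 n ε, gᵀ ∈ G2 n ε := by
  rintro g (⟨σ, rfl⟩ | ⟨v, rfl⟩)
  · exact Or.inl ⟨σ.symm, DIM1_pm_transpose σ⟩
  · refine Or.inr ⟨v, ?_⟩
    unfold Um
    rw [Matrix.diagonal_transpose]

end Pool.Agent.Lib.MP_0430e4_lc.QB
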