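import Pool.Agent.Lib.MP_0430e4_lc.QB.Defs

/-!
# Invariant projections generated by a projection of the commutant
-/

set_option autoImplicit false
set_option linter.unusedSectionVars false

namespace Pool.Agent.Lib.MP_0430e4_lc.QB

open Finset Tensor Matrix

variable {α : Type*} [Fintype α] [DecidableEq α]

/-- orthogonal projection matrix of a subspace -/
theorem exists_proj_of_submodule (U : Submodule ℝ (α → ℝ)) :
    ∃ W : Matrix α α ℝ, IsProj W ∧ (∀ x, W *ᵥ x ∈ U) ∧ (∀ x ∈ U, W *ᵥ x = x) ∧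
      W.rank ≤ Module.finrank ℝ U := by
  classical
  let e : EuclideanSpace ℝ α ≃ₗ[ℝ] (α → ℝ) := (WithLp.linearEquiv 2 ℝ (α → ℝ))
  let U' : Submodule ℝ (EuclideanSpace ℝ α) := U.comap e.toLinearMap
  let b := stdOrthonormalBasis ℝ U'
  have hd : Module.finrank ℝ U' = Module.finrank ℝ U := by
    have := LinearEquiv.finrank_eq (e.submoduleMap U')
    rw [this]
    have h2 : U'.map (e : EuclideanSpace ℝ α →ₗ[ℝ] (α → ℝ)) = U :=
      Submodule.map_comap_eq_of_surjective e.surjective U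
    rw [h2]
  let B : Matrix α (Fin (Module.finrank ℝ U')) ℝ :=
    Matrix.of fun a i => (b i : EuclideanSpace ℝ α) a
  have hBB : Bᵀ * B = 1 := by
    ext i j
    rw [Matrix.mul_apply]
    have h1 := b.inner_eq_ite i j
    rw [Submodule.coe_inner, PiLp.inner_apply] at h1
    simp only [B, Matrix.transpose_apply, Matrix.of_apply, Matrix.one_apply]
    rw [← h1]
    apply Finset.sum_congr rfl
    intro a _
    simp [mul_comm]
  have hmem : ∀ c : Fin (Module.finrank ℝ U') → ℝ, B *ᵥ c ∈ U := by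
    intro c
    have h1 : B *ᵥ c = e (∑ i, c i • (b i : EuclideanSpace ℝ α)) := by
      ext a
      rw [map_sum]
      simp only [Matrix.mulVec, dotProduct, B, Matrix.of_apply, map_smul, Finset.sum_apply,
        Pi.smul_apply, smul_eq_mul]
      apply Finset.sum_congr rfl
      intro i _
      rw [mul_comm]
      rfl
    rw [h1]
    have h2 : ∑ i, c i • (b i : EuclideanSpace ℝ α) ∈ U' :=
      Submodule.sum_mem _ fun i _ => Submodule.smul_mem _ _ (b i).2
    exact h2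
  have hexp : ∀ x ∈ U, ∃ c : Fin (Module.finrank ℝ U') → ℝ, B *ᵥ c = x := by
    intro x hx
    have hx' : e.symm x ∈ U' := by
      show e (e.symm x) ∈ U
      rw [LinearEquiv.apply_symm_apply]
      exact hx
    refine ⟨fun i => b.repr ⟨e.symm x, hx'⟩ i, ?_⟩
    have h1 := b.sum_repr ⟨e.symm x, hx'⟩
    have h2 : ∑ i, b.repr ⟨e.symm x, hx'⟩ i • (b i : EuclideanSpace ℝ α) = e.symm x := by
      have h3 := congrArg (fun u : U' => (u : EuclideanSpace ℝ α)) h1
      simpa using h3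
    have h4 : B *ᵥ (fun i => b.repr ⟨e.symm x, hx'⟩ i)
        = e (∑ i, b.repr ⟨e.symm x, hx'⟩ i • (b i : EuclideanSpace ℝ α)) := by
      ext a
      rw [map_sum]
      simp only [Matrix.mulVec, dotProduct, B, Matrix.of_apply, map_smul, Finset.sum_apply,
        Pi.smul_apply, smul_eq_mul]
      apply Finset.sum_congr rfl
      intro i _
      rw [mul_comm]
      rfl
    rw [h4, h2, LinearEquiv.apply_symm_apply]
  refine ⟨B * Bᵀ, ⟨?_, ?_⟩, ?_, ?_, ?_⟩
  · rw [Matrix.transpose_mul, Matrix.transpose_transpose]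
  · rw [Matrix.mul_assoc, ← Matrix.mul_assoc Bᵀ B, hBB, Matrix.one_mul]
  · intro x
    rw [← Matrix.mulVec_mulVec]
    exact hmem _
  · intro x hx
    obtain ⟨c, rfl⟩ := hexp x hx
    rw [Matrix.mulVec_mulVec, Matrix.mul_assoc, hBB, Matrix.mul_one]
  · refine (Matrix.rank_mul_le_left _ _).trans ?_
    refine (Matrix.rank_le_card_width _).trans ?_
    rw [Fintype.card_fin, hd]

/-- a projection commutes with `M` if its range is invariant under `M` and its transpose -/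
theorem proj_comm_of_inv {W M : Matrix α α ℝ} (hW : IsProj W) (h1 : W * (M * W) = M * W)
    (h2 : W * (Mᵀ * W) = Mᵀ * W) : M * W = W * M := by
  have h3 := congrArg Matrix.transpose h2
  simp only [Matrix.transpose_mul, Matrix.transpose_transpose] at h3
  rw [hW.1] at h3
  rw [← h1, ← Matrix.mul_assoc]
  exact h3

theorem cmt_mul {G : Set (Matrix α α ℝ)} {M N : Matrix α α ℝ} (hM : M ∈ cmt G)
    (hN : N ∈ cmt G) : M * N ∈ cmt G := by
  intro g hg
  rw [← Matrix.mul_assoc, hM g hg, Matrix.mul_assoc, hN g hg, Matrix.mul_assoc]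

theorem cmt_one {G : Set (Matrix α α ℝ)} : (1 : Matrix α α ℝ) ∈ cmt G := by
  intro g _
  rw [Matrix.mul_one, Matrix.one_mul]

theorem cmt_transpose {G : Set (Matrix α α ℝ)} (hG : ∀ g ∈ G, gᵀ ∈ G) {M : Matrix α α ℝ}
    (hM : M ∈ cmt G) : Mᵀ ∈ cmt G := by
  intro g hg
  have h1 := congrArg Matrix.transpose (hM gᵀ (hG g hg))
  simp only [Matrix.transpose_mul, Matrix.transpose_transpose] at h1
  exact h1.symm

/-- The subspace `cmt G · range T`. -/
theorem exists_gen {G : Set (Matrix α α ℝ)} (hG : ∀ g ∈ G, gᵀ ∈ G) {T : Matrix α α ℝ}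
    (hT : IsProj T) (hTc : T ∈ cmt G) :
    ∃ W, IsProj W ∧ W ∈ cmt G ∧ (∀ M ∈ cmt G, M * W = W * M) ∧
      W.rank ≤ Module.finrank ℝ (cmt G) * T.rank ∧ W * T = T := by
  classical
  let bas := Module.finBasis ℝ (cmt G)
  let Φ : (Fin (Module.finrank ℝ (cmt G)) → LinearMap.range T.mulVecLin) →ₗ[ℝ] (α → ℝ) :=
    ∑ i, ((bas i : Matrix α α ℝ).mulVecLin ∘ₗ (LinearMap.range T.mulVecLin).subtype) ∘ₗ
      LinearMap.proj i
  have hΦ : ∀ y, Φ y = ∑ i, (bas i : Matrix α α ℝ) *ᵥ (y i : α → ℝ) := by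
    intro y
    simp [Φ, LinearMap.sum_apply]
  let U := LinearMap.range Φ
  have hmem : ∀ M ∈ cmt G, ∀ y ∈ LinearMap.range T.mulVecLin, M *ᵥ y ∈ U := by
    intro M hM y hy
    refine ⟨fun i => bas.repr ⟨M, hM⟩ i • ⟨y, hy⟩, ?_⟩
    rw [hΦ]
    have h1 := congrArg (fun u : cmt G => (u : Matrix α α ℝ)) (bas.sum_repr ⟨M, hM⟩)
    simp only [Submodule.coe_sum, Submodule.coe_smul] at h1
    conv_rhs => rw [← h1]
    rw [Matrix.sum_mulVec]
    apply Finset.sum_congr rfl
    intro i _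
    rw [Submodule.coe_smul, Matrix.mulVec_smul, Matrix.smul_mulVec]
  have hind : ∀ u ∈ U, ∀ f : Matrix α α ℝ,
      (∀ M ∈ cmt G, ∀ y ∈ LinearMap.range T.mulVecLin, f *ᵥ (M *ᵥ y) ∈ U) → f *ᵥ u ∈ U := by
    rintro _ ⟨y, rfl⟩ f hf
    rw [hΦ, Matrix.mulVec_sum]
    exact Submodule.sum_mem _ fun i _ => hf _ (bas i).2 _ (y i).2
  have hinvM : ∀ M ∈ cmt G, ∀ u ∈ U, M *ᵥ u ∈ U := by
    intro M hM u hu
    apply hind u hu
    intro N hN y hy
    rw [Matrix.mulVec_mulVec]
    exact hmem _ (cmt_mul hM hN) y hy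
  have hinvG : ∀ g ∈ G, ∀ u ∈ U, g *ᵥ u ∈ U := by
    intro g hg u hu
    apply hind u hu
    intro N hN y hy
    rw [Matrix.mulVec_mulVec, hN g hg, ← Matrix.mulVec_mulVec]
    apply hmem N hN
    obtain ⟨z, rfl⟩ := hy
    refine ⟨g *ᵥ z, ?_⟩
    rw [Matrix.mulVecLin_apply, Matrix.mulVecLin_apply, Matrix.mulVec_mulVec,
      Matrix.mulVec_mulVec, hTc g hg]
  obtain ⟨W, hW, hWU, hUW, hWr⟩ := exists_proj_of_submodule U
  have key : ∀ M : Matrix α α ℝ, (∀ u ∈ U, M *ᵥ u ∈ U) → W * (M * W) = M * W := by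
    intro M hM
    rw [Matrix.ext_iff_mulVec]
    intro x
    rw [← Matrix.mulVec_mulVec, ← Matrix.mulVec_mulVec]
    exact hUW _ (hM _ (hWU x))
  refine ⟨W, hW, ?_, ?_, ?_, ?_⟩
  · intro g hg
    exact proj_comm_of_inv hW (key g (hinvG g hg)) (key _ (hinvG _ (hG g hg)))
  · intro M hM
    exact proj_comm_of_inv hW (key M (hinvM M hM)) (key _ (hinvM _ (cmt_transpose hG hM)))
  · refine hWr.trans ?_
    refine (LinearMap.finrank_range_le Φ).trans ?_
    rw [Module.finrank_pi_fintype, Finset.sum_const, Finset.card_univ, Fintype.card_fin,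
      smul_eq_mul]
    rfl
  · rw [Matrix.ext_iff_mulVec]
    intro x
    rw [← Matrix.mulVec_mulVec]
    apply hUW
    have := hmem 1 cmt_one (T *ᵥ x) ⟨x, rfl⟩
    rwa [Matrix.one_mulVec] at this

end Pool.Agent.Lib.MP_0430e4_lc.QB
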