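import Pool.Agent.Lib.MP_0430e4_lc.QB.TRSQ
import Pool.Agent.Lib.MP_0430e4_lc.QB.GEN

/-!
# Quantum bound: flatness of a positive semidefinite matrix of the commutant
-/

set_option autoImplicit false
set_option linter.unusedSectionVars false

namespace Pool.Agent.Lib.MP_0430e4_lc.QB

open Finset Tensor Matrix

variable {α : Type*} [Fintype α] [DecidableEq α]

theorem flat_aeval {φ U : Matrix α α ℝ} {d : α → ℝ} (hUU : star U * U = 1)
    (hUU' : U * star U = 1) (hφ : φ = U * Matrix.diagonal d * star U) (q : Polynomial ℝ) :
    Polynomial.aeval φ q = U * Matrix.diagonal (fun i => q.eval (d i)) * star U := by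
  induction q using Polynomial.induction_on' with
  | add p q hp hq =>
    rw [map_add, hp, hq, ← add_mul, ← mul_add, Matrix.diagonal_add]
    congr 3
    funext i
    rw [Polynomial.eval_add]
  | monomial n a =>
    have hpow : φ ^ n = U * Matrix.diagonal (fun i => d i ^ n) * star U := by
      induction n with
      | zero => simp [hUU']
      | succ n ih =>
        rw [pow_succ, ih, hφ]
        calc U * Matrix.diagonal (fun i => d i ^ n) * star U * (U * Matrix.diagonal d * star U)
            = U * Matrix.diagonal (fun i => d i ^ n) * (star U * U) * Matrix.diagonal d * star U := by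
              simp only [Matrix.mul_assoc]
          _ = U * (Matrix.diagonal (fun i => d i ^ n) * Matrix.diagonal d) * star U := by
              rw [hUU, Matrix.mul_one, Matrix.mul_assoc U]
          _ = _ := by
              rw [Matrix.diagonal_mul_diagonal]
              congr 3
    rw [Polynomial.aeval_monomial, hpow, Algebra.algebraMap_eq_smul_one, smul_one_mul]
    rw [← Matrix.smul_mul, ← Matrix.mul_smul]
    congr 2
    ext i j
    by_cases hij : i = j
    · subst hij
      simp [Polynomial.eval_monomial]
    · simp [hij]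

theorem flat_aeval_mem {G : Set (Matrix α α ℝ)} {e : Matrix α α ℝ} (h : e ∈ cmt G)
    (q : Polynomial ℝ) : Polynomial.aeval e q ∈ cmt G := by
  induction q using Polynomial.induction_on' with
  | add p q hp hq =>
    rw [map_add]
    exact (cmt G).add_mem hp hq
  | monomial n a =>
    rw [Polynomial.aeval_monomial, Algebra.algebraMap_eq_smul_one, smul_one_mul]
    refine (cmt G).smul_mem a ?_
    induction n with
    | zero =>
      rw [pow_zero]
      exact cmt_one
    | succ n ih =>
      rw [pow_succ]
      exact cmt_mul ih h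

theorem flat_trace {U : Matrix α α ℝ} (hUU : star U * U = 1) (d : α → ℝ) :
    (U * Matrix.diagonal d * star U).trace = ∑ i, d i := by
  rw [Matrix.trace_mul_comm, ← Matrix.mul_assoc, hUU, Matrix.one_mul, Matrix.trace_diagonal]

theorem flat_mul {U : Matrix α α ℝ} (hUU : star U * U = 1) (d d' : α → ℝ) :
    U * Matrix.diagonal d * star U * (U * Matrix.diagonal d' * star U)
      = U * Matrix.diagonal (fun i => d i * d' i) * star U := by
  calc U * Matrix.diagonal d * star U * (U * Matrix.diagonal d' * star U)
      = U * Matrix.diagonal d * (star U * U) * Matrix.diagonal d' * star U := by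
        simp only [Matrix.mul_assoc]
    _ = U * (Matrix.diagonal d * Matrix.diagonal d') * star U := by
        rw [hUU, Matrix.mul_one, Matrix.mul_assoc U]
    _ = _ := by rw [Matrix.diagonal_mul_diagonal]

theorem flat {G : Set (Matrix α α ℝ)} {D N : ℕ} {S e : Matrix α α ℝ}
    (hS : ∀ T, IsProj T → T ∈ cmt G → D * T.rank ≤ N → S * T = T)
    (he : e.PosSemidef) (hec : e ∈ cmt G) (hSe : S * e = 0) :
    (N : ℝ) * ip e e ≤ D * e.trace ^ 2 := by
  classical
  by_cases h0 : e = 0
  · subst h0
    simp [ip]
  have hH : e.IsHermitian := he.1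
  have hT : eᵀ = e := by
    have := hH
    unfold Matrix.IsHermitian at this
    rw [Matrix.conjTranspose_eq_transpose_of_trivial] at this
    exact this
  set d : α → ℝ := hH.eigenvalues with hd
  set U : Matrix α α ℝ := (hH.eigenvectorUnitary : Matrix α α ℝ) with hU
  have hUU : star U * U = 1 := Unitary.coe_star_mul_self _
  have hUU' : U * star U = 1 := Unitary.coe_mul_star_self _
  have hφ : e = U * Matrix.diagonal d * star U := by
    have := hH.spectral_theorem
    rw [Unitary.conjStarAlgAut_apply] at this
    exact this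
  have hd0 : ∀ i, 0 ≤ d i := fun i => he.eigenvalues_nonneg i
  have hne : ∃ i, d i ≠ 0 := by
    by_contra hc
    push Not at hc
    apply h0
    have hdd : d = fun _ => 0 := funext hc
    rw [hφ, hdd]
    simp
  obtain ⟨i1, hi1⟩ := hne
  obtain ⟨i0, -, hi0⟩ := Finset.exists_max_image univ d ⟨i1, mem_univ i1⟩
  set l : ℝ := d i0 with hl
  have hlpos : 0 < l := lt_of_lt_of_le (lt_of_le_of_ne (hd0 i1) (Ne.symm hi1)) (hi0 i1 (mem_univ _))
  -- the polynomial
  set s : Finset ℝ := insert 0 (univ.image d) with hs
  set p : Polynomial ℝ := Lagrange.interpolate s (fun x => x) (fun x => if x = l then 1 else 0)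
    with hp
  have hev : ∀ x ∈ s, p.eval x = if x = l then 1 else 0 := by
    intro x hx
    rw [hp]
    exact Lagrange.eval_interpolate_at_node (fun x => if x = l then (1 : ℝ) else 0)
      (Function.injective_id.injOn) hx
  set P : Matrix α α ℝ := Polynomial.aeval e p with hP
  have hPd : P = U * Matrix.diagonal (fun i => if d i = l then (1 : ℝ) else 0) * star U := by
    rw [hP, flat_aeval hUU hUU' hφ p]
    congr 3
    funext i
    refine hev _ ?_
    rw [hs, mem_insert]
    exact Or.inr (mem_image_of_mem d (mem_univ i))
  have hPproj : IsProj P := by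
    refine ⟨?_, ?_⟩
    · rw [hPd, Matrix.transpose_mul, Matrix.transpose_mul, Matrix.diagonal_transpose,
        Matrix.star_eq_conjTranspose, Matrix.conjTranspose_eq_transpose_of_trivial,
        Matrix.transpose_transpose, Matrix.mul_assoc]
    · rw [hPd, flat_mul hUU]
      congr 3
      funext i
      by_cases h : d i = l
      · simp [h]
      · simp [h]
  have hPc : P ∈ cmt G := flat_aeval_mem hec p
  have hSP : S * P = 0 := by
    have hc : p.coeff 0 = 0 := by
      rw [Polynomial.coeff_zero_eq_eval_zero, hev 0 (by rw [hs]; exact mem_insert_self _ _),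
        if_neg (ne_of_lt hlpos)]
    obtain ⟨q, hq⟩ := Polynomial.X_dvd_iff.2 hc
    rw [hP, hq, map_mul, Polynomial.aeval_X, ← Matrix.mul_assoc, hSe, Matrix.zero_mul]
  have htrP : P.trace = ∑ i, (if d i = l then (1 : ℝ) else 0) := by
    rw [hPd, flat_trace hUU]
  have htrP1 : 1 ≤ P.trace := by
    rw [htrP]
    have h1 : (if d i0 = l then (1 : ℝ) else 0) ≤ ∑ i, (if d i = l then (1 : ℝ) else 0) :=
      Finset.single_le_sum (f := fun i => if d i = l then (1 : ℝ) else 0)
        (fun i _ => by split_ifs <;> norm_num) (mem_univ i0)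
    rw [if_pos rfl] at h1
    exact h1
  have hN : (N : ℝ) ≤ D * P.trace := by
    by_contra hcon
    push Not at hcon
    rw [trace_proj hPproj] at hcon
    have h1 : D * P.rank ≤ N := by
      have : (D : ℝ) * P.rank ≤ N := hcon.le
      exact_mod_cast this
    have h2 := hS P hPproj hPc h1
    rw [hSP] at h2
    rw [← h2, Matrix.trace_zero] at htrP1
    linarith
  have htre : e.trace = ∑ i, d i := by
    conv_lhs => rw [hφ]
    exact flat_trace hUU d
  have hip : ip e e = ∑ i, d i * d i := by
    have h1 : ip e e = (e * e).trace := by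
      unfold ip
      rw [Matrix.trace]
      simp only [Matrix.diag_apply, Matrix.mul_apply]
      refine Finset.sum_congr rfl fun a _ => Finset.sum_congr rfl fun b _ => ?_
      have h2 : e b a = e a b := congrFun (congrFun hT a) b
      rw [h2]
    rw [h1]
    conv_lhs => rw [hφ]
    rw [flat_mul hUU, flat_trace hUU]
  have htr0 : 0 ≤ e.trace := by
    rw [htre]
    exact Finset.sum_nonneg fun i _ => hd0 i
  have h1 : ip e e ≤ l * e.trace := by
    rw [hip, htre, Finset.mul_sum]
    exact Finset.sum_le_sum fun i _ => mul_le_mul_of_nonneg_right (hi0 i (mem_univ i)) (hd0 i)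
  have h2 : l * P.trace ≤ e.trace := by
    rw [htrP, htre, Finset.mul_sum]
    refine Finset.sum_le_sum fun i _ => ?_
    by_cases h : d i = l
    · rw [if_pos h, mul_one, h]
    · rw [if_neg h, mul_zero]
      exact hd0 i
  calc (N : ℝ) * ip e e ≤ N * (l * e.trace) := mul_le_mul_of_nonneg_left h1 (Nat.cast_nonneg N)
    _ ≤ D * P.trace * (l * e.trace) :=
        mul_le_mul_of_nonneg_right hN (mul_nonneg hlpos.le htr0)
    _ = D * (l * P.trace * e.trace) := by ring
    _ ≤ D * (e.trace * e.trace) := by
        refine mul_le_mul_of_nonneg_left ?_ (Nat.cast_nonneg D)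
        exact mul_le_mul_of_nonneg_right h2 htr0
    _ = D * e.trace ^ 2 := by ring

end Pool.Agent.Lib.MP_0430e4_lc.QB
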