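import Pool.Agent.Lib.MP_0430e4_lc.QB.Defs

/-!
# Quantum bound: block diagonal factors commute with the kernel operators
-/

set_option autoImplicit false
set_option linter.unusedSectionVars false

namespace Pool.Agent.Lib.MP_0430e4_lc.QB

open Finset Tensor Matrix

variable {n k : ℕ} {α : Type*} [Fintype α] [DecidableEq α]

theorem sgn_congr {ε : Fin k → Bool} {i j : Fin k} (h : ε i = ε j) : sgn ε i = sgn ε j := by
  unfold sgn
  rw [h]

theorem kap_congr_left {ε : Fin k → Bool} {a c : Wd n k} (h : yw ε a = yw ε c) (b : Wd n k) :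
    kap ε a b = kap ε c b := by
  unfold kap
  refine Finset.sum_congr rfl fun i _ => ?_
  have h' : ε (a i) = ε (c i) := congrFun h i
  rw [sgn_congr h']

theorem kap_congr_right {ε : Fin k → Bool} {b c : Wd n k} (h : yw ε b = yw ε c) (a : Wd n k) :
    kap ε a b = kap ε a c := by
  unfold kap
  refine Finset.sum_congr rfl fun i _ => ?_
  have h' : ε (b i) = ε (c i) := congrFun h i
  rw [sgn_congr h']

theorem KU_mul_left (ε : Fin k → Bool) {Q : Matrix (Wd n k) (Wd n k) ℝ} (hQ : Blk ε Q)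
    (φ : Matrix (Wd n k) (Wd n k) ℝ) : KU ε (Q * φ) = Q * KU ε φ := by
  ext a b
  rw [Matrix.mul_apply]
  simp only [KU, Matrix.of_apply]
  rw [Matrix.mul_apply, Finset.mul_sum]
  refine Finset.sum_congr rfl fun c _ => ?_
  by_cases h : yw ε a = yw ε c
  · rw [kap_congr_left h]
    ring
  · rw [hQ a c h]
    ring

theorem KU_mul_right (ε : Fin k → Bool) {Q : Matrix (Wd n k) (Wd n k) ℝ} (hQ : Blk ε Q)
    (φ : Matrix (Wd n k) (Wd n k) ℝ) : KU ε (φ * Q) = KU ε φ * Q := by
  ext a b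
  rw [Matrix.mul_apply]
  simp only [KU, Matrix.of_apply]
  rw [Matrix.mul_apply, Finset.mul_sum]
  refine Finset.sum_congr rfl fun c _ => ?_
  by_cases h : yw ε c = yw ε b
  · rw [kap_congr_right h]
    ring
  · rw [hQ c b h]
    ring

theorem bdp_mul_left (ε : Fin k → Bool) {Q : Matrix (Wd n k) (Wd n k) ℝ} (hQ : Blk ε Q)
    (φ : Matrix (Wd n k) (Wd n k) ℝ) : bdp ε (Q * φ) = Q * bdp ε φ := by
  ext a b
  rw [Matrix.mul_apply]
  simp only [bdp, Matrix.of_apply]
  by_cases hab : yw ε a = yw ε b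
  · rw [if_pos hab, Matrix.mul_apply]
    refine Finset.sum_congr rfl fun c _ => ?_
    by_cases h : yw ε a = yw ε c
    · rw [if_pos (h.symm.trans hab)]
    · rw [hQ a c h]
      ring
  · rw [if_neg hab]
    symm
    refine Finset.sum_eq_zero fun c _ => ?_
    by_cases h : yw ε a = yw ε c
    · rw [if_neg (fun h' => hab (h.trans h')), mul_zero]
    · rw [hQ a c h, zero_mul]

theorem ip_blk (ε : Fin k → Bool) {R : Matrix (Wd n k) (Wd n k) ℝ} (hR : Blk ε R)
    (φ : Matrix (Wd n k) (Wd n k) ℝ) : ip R φ = ip R (bdp ε φ) := by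
  unfold ip
  refine Finset.sum_congr rfl fun a _ => Finset.sum_congr rfl fun b _ => ?_
  simp only [bdp, Matrix.of_apply]
  by_cases h : yw ε a = yw ε b
  · rw [if_pos h]
  · rw [hR a b h, zero_mul, zero_mul]

end Pool.Agent.Lib.MP_0430e4_lc.QB
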