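import Pool.Agent.Lib.MP_0430e4_lc.QB.Defs

/-!
# Quantum bound: the Hilbert-Schmidt inner product
-/

set_option autoImplicit false
set_option linter.unusedSectionVars false

namespace Pool.Agent.Lib.MP_0430e4_lc.QB

open Finset Tensor Matrix

variable {n k : ℕ} {α : Type*} [Fintype α] [DecidableEq α]

theorem ip_comm (A B : Matrix α α ℝ) : ip A B = ip B A := by
  unfold ip
  exact Finset.sum_congr rfl fun a _ => Finset.sum_congr rfl fun b _ => mul_comm _ _

theorem ip_add_left (A B C : Matrix α α ℝ) : ip (A + B) C = ip A C + ip B C := by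
  unfold ip
  simp only [Matrix.add_apply, add_mul, Finset.sum_add_distrib]

theorem ip_smul_left (c : ℝ) (A B : Matrix α α ℝ) : ip (c • A) B = c * ip A B := by
  unfold ip
  simp only [Matrix.smul_apply, smul_eq_mul, mul_assoc, Finset.mul_sum]

theorem ip_self_nonneg (A : Matrix α α ℝ) : 0 ≤ ip A A :=
  Finset.sum_nonneg fun _ _ => Finset.sum_nonneg fun _ _ => mul_self_nonneg _

theorem ip_self_eq_zero (A : Matrix α α ℝ) : ip A A = 0 ↔ A = 0 := by
  constructor
  · intro h
    unfold ip at h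
    ext a b
    rw [Finset.sum_eq_zero_iff_of_nonneg
      (fun a _ => Finset.sum_nonneg fun b _ => mul_self_nonneg _)] at h
    have h1 := h a (Finset.mem_univ a)
    rw [Finset.sum_eq_zero_iff_of_nonneg (fun b _ => mul_self_nonneg _)] at h1
    exact mul_self_eq_zero.mp (h1 b (Finset.mem_univ b))
  · rintro rfl
    simp [ip]

theorem ip_eq_prod (A B : Matrix α α ℝ) : ip A B = ∑ p : α × α, A p.1 p.2 * B p.1 p.2 := by
  unfold ip
  rw [Fintype.sum_prod_type]

theorem ip_cs (A B : Matrix α α ℝ) : ip A B ^ 2 ≤ ip A A * ip B B := by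
  rw [ip_eq_prod, ip_eq_prod, ip_eq_prod]
  have h := Finset.sum_mul_sq_le_sq_mul_sq Finset.univ (fun p : α × α => A p.1 p.2)
    (fun p => B p.1 p.2)
  simpa only [sq] using h

/-- `|⟨A, B⟩| ≤ ‖A‖ ‖B‖` -/
theorem abs_ip_le (A B : Matrix α α ℝ) :
    |ip A B| ≤ Real.sqrt (ip A A) * Real.sqrt (ip B B) := by
  rw [← Real.sqrt_mul (ip_self_nonneg A)]
  exact Real.abs_le_sqrt (ip_cs A B)

/-- `sqrt (ip · ·)` is a norm -/
theorem ip_tri (A B : Matrix α α ℝ) :
    Real.sqrt (ip (A + B) (A + B)) ≤ Real.sqrt (ip A A) + Real.sqrt (ip B B) := by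
  have h1 : ip (A + B) (A + B) = ip A A + 2 * ip A B + ip B B := by
    rw [ip_add_left, ip_comm A (A + B), ip_comm B (A + B), ip_add_left, ip_add_left, ip_comm B A]
    ring
  have h2 := (abs_le.mp (abs_ip_le A B)).2
  have h3 := Real.sq_sqrt (ip_self_nonneg A)
  have h4 := Real.sq_sqrt (ip_self_nonneg B)
  refine Real.sqrt_le_iff.mpr ⟨by positivity, ?_⟩
  rw [h1]
  nlinarith

end Pool.Agent.Lib.MP_0430e4_lc.QB
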