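import Pool.Agent.Lib.MP_0430e4_lc.QB.Defs

/-!
# POSP: the positive part of a symmetric matrix as a polynomial without constant term
-/

set_option autoImplicit false
set_option linter.unusedSectionVars false

namespace Pool.Agent.Lib.MP_0430e4_lc.QB

open Finset Matrix

variable {α : Type*} [Fintype α] [DecidableEq α]

theorem posp_aeval_diagonal (d : α → ℝ) (p : Polynomial ℝ) :
    Polynomial.aeval (Matrix.diagonal d) p = Matrix.diagonal (fun i => p.eval (d i)) := by
  induction p using Polynomial.induction_on' with
  | add p q hp hq =>
    rw [map_add, hp, hq, Matrix.diagonal_add]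
    congr 1
    funext i
    rw [Polynomial.eval_add]
  | monomial n a =>
    rw [Polynomial.aeval_monomial, Matrix.diagonal_pow, Matrix.algebraMap_eq_diagonal,
      Matrix.diagonal_mul_diagonal]
    congr 1
    funext i
    simp [Polynomial.eval_monomial]

theorem exists_pos_part {φ : Matrix α α ℝ} (h : φᵀ = φ) :
    ∃ p : Polynomial ℝ, p.coeff 0 = 0 ∧ (Polynomial.aeval φ p).PosSemidef ∧
      (Polynomial.aeval φ p - φ).PosSemidef ∧
      Polynomial.aeval φ p * (Polynomial.aeval φ p - φ) = 0 := by
  classical
  have hH : φ.IsHermitian := by
    unfold Matrix.IsHermitian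
    rw [Matrix.conjTranspose_eq_transpose_of_trivial]
    exact h
  set d : α → ℝ := hH.eigenvalues with hd
  set U : Matrix α α ℝ := (hH.eigenvectorUnitary : Matrix α α ℝ) with hU
  have hUU : star U * U = 1 := Unitary.coe_star_mul_self _
  have hUU' : U * star U = 1 := Unitary.coe_mul_star_self _
  have hφ : φ = U * Matrix.diagonal d * star U := by
    have := hH.spectral_theorem
    rw [Unitary.conjStarAlgAut_apply] at this
    exact this
  -- the polynomial
  set s : Finset ℝ := insert 0 (univ.image d) with hs
  set p : Polynomial ℝ := Lagrange.interpolate s (fun x => x) (fun x => max x 0) with hp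
  have hev : ∀ x ∈ s, p.eval x = max x 0 := by
    intro x hx
    rw [hp]
    exact Lagrange.eval_interpolate_at_node (fun x => max x 0)
      (Function.injective_id.injOn) hx
  have hpoly : Polynomial.aeval φ p = U * Matrix.diagonal (fun i => max (d i) 0) * star U := by
    have key : ∀ q : Polynomial ℝ, Polynomial.aeval φ q
        = U * Matrix.diagonal (fun i => q.eval (d i)) * star U := by
      intro q
      induction q using Polynomial.induction_on' with
      | add p q hp hq =>
        rw [map_add, hp, hq, ← add_mul, ← mul_add, Matrix.diagonal_add]
        congr 3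
        funext i
        rw [Polynomial.eval_add]
      | monomial n a =>
        have hpow : φ ^ n = U * Matrix.diagonal (fun i => d i ^ n) * star U := by
          induction n with
          | zero => simp [hUU']
          | succ n ih =>
            rw [pow_succ, ih, hφ]
            calc U * Matrix.diagonal (fun i => d i ^ n) * star U * (U * Matrix.diagonal d * star U)
                = U * Matrix.diagonal (fun i => d i ^ n) * (star U * U) * Matrix.diagonal d * star U := by
                  simp only [Matrix.mul_assoc]
              _ = U * (Matrix.diagonal (fun i => d i ^ n) * Matrix.diagonal d) * star U := by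
                  rw [hUU, Matrix.mul_one, Matrix.mul_assoc U]
              _ = _ := by
                  rw [Matrix.diagonal_mul_diagonal]
                  congr 3
        rw [Polynomial.aeval_monomial, hpow, Algebra.algebraMap_eq_smul_one, smul_one_mul]
        rw [← Matrix.smul_mul, ← Matrix.mul_smul]
        congr 2
        ext i j
        by_cases hij : i = j
        · subst hij
          simp [Polynomial.eval_monomial]
        · simp [hij]
    rw [key p]
    congr 3
    funext i
    apply hev
    rw [hs, mem_insert]
    exact Or.inr (mem_image_of_mem d (mem_univ i))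
  have hsub : Polynomial.aeval φ p - φ
      = U * Matrix.diagonal (fun i => max (d i) 0 - d i) * star U := by
    rw [hpoly]
    conv_lhs => rw [hφ]
    rw [← sub_mul, ← mul_sub, Matrix.diagonal_sub]
  have hpsd : ∀ e : α → ℝ, (∀ i, 0 ≤ e i) → (U * Matrix.diagonal e * star U).PosSemidef := by
    intro e he
    have h1 : (Matrix.diagonal e).PosSemidef := Matrix.PosSemidef.diagonal he
    have h2 := h1.mul_mul_conjTranspose_same U
    exact h2
  refine ⟨p, ?_, ?_, ?_, ?_⟩
  · rw [Polynomial.coeff_zero_eq_eval_zero, hev 0 (by rw [hs]; exact mem_insert_self _ _)]
    simp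
  · rw [hpoly]
    exact hpsd _ (fun i => le_max_right _ _)
  · rw [hsub]
    exact hpsd _ (fun i => sub_nonneg.mpr (le_max_left _ _))
  · rw [hsub, hpoly]
    calc U * Matrix.diagonal (fun i => max (d i) 0) * star U
          * (U * Matrix.diagonal (fun i => max (d i) 0 - d i) * star U)
        = U * Matrix.diagonal (fun i => max (d i) 0) * (star U * U)
          * Matrix.diagonal (fun i => max (d i) 0 - d i) * star U := by
          simp only [Matrix.mul_assoc]
      _ = U * (Matrix.diagonal (fun i => max (d i) 0)
          * Matrix.diagonal (fun i => max (d i) 0 - d i)) * star U := by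
          rw [hUU, Matrix.mul_one, Matrix.mul_assoc U]
      _ = 0 := by
          rw [Matrix.diagonal_mul_diagonal]
          have : (fun i => max (d i) 0 * (max (d i) 0 - d i)) = fun _ => (0 : ℝ) := by
            funext i
            rcases le_total (d i) 0 with h0 | h0
            · rw [max_eq_right h0]; ring
            · rw [max_eq_left h0]; ring
          rw [this]
          simp

end Pool.Agent.Lib.MP_0430e4_lc.QB
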