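import Pool.Agent.Lib.MP_0430e4_lc.QB.HAD1
import Pool.Agent.Lib.MP_0430e4_lc.QB.HAD2
import Pool.Agent.Lib.MP_0430e4_lc.QB.IP1
import Pool.Agent.Lib.MP_0430e4_lc.QB.IP2
import Pool.Agent.Lib.MP_0430e4_lc.QB.POSP

/-!
# Module PF (Perron-Frobenius) of the quantum bound
-/

set_option autoImplicit false
set_option linter.unusedSectionVars false

namespace Pool.Agent.Lib.MP_0430e4_lc.QB

open Finset Tensor Matrix Filter Topology

variable {n k : ℕ} {α : Type*} [Fintype α] [DecidableEq α]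

theorem pf_ip_zero_of_mul {A B : Matrix α α ℝ} (hA : Aᵀ = A) (h : A * B = 0) : ip A B = 0 := by
  have h1 : (Aᵀ * B).trace = 0 := by rw [hA, h]; simp
  rw [← h1]
  unfold ip Matrix.trace
  simp only [Matrix.diag_apply, Matrix.mul_apply, Matrix.transpose_apply]
  rw [Finset.sum_comm]

theorem pf_ip_eq_trace (A B : Matrix α α ℝ) : ip A B = (Aᵀ * B).trace := by
  unfold ip Matrix.trace
  simp only [Matrix.diag_apply, Matrix.mul_apply, Matrix.transpose_apply]
  rw [Finset.sum_comm]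

theorem pf_ip_smul_right (c : ℝ) (A B : Matrix α α ℝ) : ip A (c • B) = c * ip A B := by
  rw [ip_comm, ip_smul_left, ip_comm]

theorem pf_ip_add_right (A B C : Matrix α α ℝ) : ip A (B + C) = ip A B + ip A C := by
  rw [ip_comm, ip_add_left, ip_comm B, ip_comm C]

theorem pf_KU_add (ε : Fin k → Bool) (A B : Matrix (Wd n k) (Wd n k) ℝ) :
    KU ε (A + B) = KU ε A + KU ε B := by
  ext a b; simp [KU, mul_add]

theorem pf_KU_smul (ε : Fin k → Bool) (c : ℝ) (A : Matrix (Wd n k) (Wd n k) ℝ) :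
    KU ε (c • A) = c • KU ε A := by
  ext a b; simp [KU]; ring

theorem pf_kap_comm (ε : Fin k → Bool) (a b : Wd n k) : kap ε a b = kap ε b a := by
  unfold kap; exact Finset.sum_congr rfl fun i _ => mul_comm _ _

theorem pf_ip_KU_symm (ε : Fin k → Bool) (A B : Matrix (Wd n k) (Wd n k) ℝ) :
    ip A (KU ε B) = ip B (KU ε A) := by
  unfold ip KU
  refine Finset.sum_congr rfl fun a _ => Finset.sum_congr rfl fun b _ => ?_
  simp only [Matrix.of_apply]; ring

theorem pf_KU_transpose (ε : Fin k → Bool) {A : Matrix (Wd n k) (Wd n k) ℝ} (h : Aᵀ = A) :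
    (KU ε A)ᵀ = KU ε A := by
  ext a b
  have h1 : A b a = A a b := by
    have := congrFun (congrFun h a) b
    simpa using this
  simp [KU, Matrix.transpose_apply, h1, pf_kap_comm ε a b]

/-- the space in which we maximise -/
def PfL (E φ : Matrix (Wd n k) (Wd n k) ℝ) : Prop := φᵀ = φ ∧ SInv φ ∧ E * φ = φ

theorem pf_LL_add {E A B : Matrix (Wd n k) (Wd n k) ℝ} (hA : PfL E A) (hB : PfL E B) :
    PfL E (A + B) := by
  refine ⟨?_, ?_, ?_⟩
  · rw [Matrix.transpose_add, hA.1, hB.1]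
  · intro σ a b
    simp only [Matrix.add_apply, hA.2.1 σ a b, hB.2.1 σ a b]
  · rw [mul_add, hA.2.2, hB.2.2]

theorem pf_LL_smul {E A : Matrix (Wd n k) (Wd n k) ℝ} (c : ℝ) (hA : PfL E A) : PfL E (c • A) := by
  refine ⟨?_, ?_, ?_⟩
  · rw [Matrix.transpose_smul, hA.1]
  · intro σ a b
    simp only [Matrix.smul_apply, hA.2.1 σ a b]
  · rw [Matrix.mul_smul, hA.2.2]

theorem pf_SInv_mul {A B : Matrix (Wd n k) (Wd n k) ℝ} (hA : SInv A) (hB : SInv B) :
    SInv (A * B) := by
  intro σ a b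
  simp only [Matrix.mul_apply]
  rw [← Equiv.sum_comp (Equiv.arrowCongr σ.symm (Equiv.refl (Fin k)))]
  refine Finset.sum_congr rfl fun c _ => ?_
  have h1 : (Equiv.arrowCongr σ.symm (Equiv.refl (Fin k))) c = c ∘ σ := by
    ext i; simp [Equiv.arrowCongr]
  rw [h1, hA σ a c, hB σ c b]

theorem pf_SInv_one : SInv (1 : Matrix (Wd n k) (Wd n k) ℝ) := by
  intro σ a b
  simp only [Matrix.one_apply]
  have : (a ∘ σ = b ∘ σ) ↔ a = b := by
    constructor
    · intro h
      ext i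
      have := congrFun h (σ.symm i)
      simpa using congrArg Fin.val this
    · intro h; rw [h]
  simp only [this]

theorem pf_SInv_aeval {A : Matrix (Wd n k) (Wd n k) ℝ} (hA : SInv A) (p : Polynomial ℝ) :
    SInv (Polynomial.aeval A p) := by
  induction p using Polynomial.induction_on' with
  | add p q hp hq =>
    intro σ a b
    simp only [map_add, Matrix.add_apply, hp σ a b, hq σ a b]
  | monomial m c =>
    have hpow : SInv (A ^ m) := by
      induction m with
      | zero => rw [pow_zero]; exact pf_SInv_one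
      | succ m ih => rw [pow_succ]; exact pf_SInv_mul ih hA
    intro σ a b
    rw [Polynomial.aeval_monomial, ← Algebra.smul_def]
    simp only [Matrix.smul_apply, hpow σ a b]

theorem pf_ip_quad (A B : Matrix α α ℝ) (t : ℝ) :
    ip (A + t • B) (A + t • B) = ip A A + 2 * t * ip B A + t ^ 2 * ip B B := by
  rw [ip_add_left, pf_ip_add_right, pf_ip_add_right, ip_smul_left, ip_smul_left,
    pf_ip_smul_right, pf_ip_smul_right, ip_comm A B]; ring

theorem pf_ip_KU_quad (ε : Fin k → Bool) (A B : Matrix (Wd n k) (Wd n k) ℝ) (t : ℝ) :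
    ip (A + t • B) (KU ε (A + t • B))
      = ip A (KU ε A) + 2 * t * ip B (KU ε A) + t ^ 2 * ip B (KU ε B) := by
  rw [pf_KU_add, pf_KU_smul, ip_add_left, pf_ip_add_right, pf_ip_add_right, ip_smul_left,
    ip_smul_left, pf_ip_smul_right, pf_ip_smul_right, pf_ip_KU_symm ε A B]; ring

theorem pf_exists_max_LL (ε : Fin k → Bool) {E φ0 : Matrix (Wd n k) (Wd n k) ℝ} (h : PfL E φ0)
    (h0 : φ0 ≠ 0) :
    ∃ φ, PfL E φ ∧ ip φ φ = 1 ∧ ∀ ψ, PfL E ψ → ip ψ (KU ε ψ) ≤ ip φ (KU ε φ) * ip ψ ψ := by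
  classical
  set S : Set (Wd n k → Wd n k → ℝ) := {φ | PfL E (Matrix.of φ) ∧ ip (Matrix.of φ) (Matrix.of φ) = 1}
    with hS
  have hscale : ∀ ψ : Matrix (Wd n k) (Wd n k) ℝ, PfL E ψ → ψ ≠ 0 →
      PfL E ((Real.sqrt (ip ψ ψ))⁻¹ • ψ) ∧
        ip ((Real.sqrt (ip ψ ψ))⁻¹ • ψ) ((Real.sqrt (ip ψ ψ))⁻¹ • ψ) = 1 := by
    intro ψ hψ hψ0
    refine ⟨pf_LL_smul _ hψ, ?_⟩
    have hpos : 0 < ip ψ ψ := by
      rcases (ip_self_nonneg ψ).lt_or_eq with h | h
      · exact h
      · exact absurd ((ip_self_eq_zero ψ).1 h.symm) hψ0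
    rw [ip_smul_left, pf_ip_smul_right, ← mul_assoc, ← mul_inv, Real.mul_self_sqrt hpos.le,
      inv_mul_cancel₀ hpos.ne']
  have hcl : IsClosed S := by
    have e1 : S = {φ | ∀ a b, φ b a = φ a b} ∩ {φ | ∀ (σ : Equiv.Perm (Fin n)) a b,
        φ (a ∘ σ) (b ∘ σ) = φ a b} ∩ {φ | ∀ a b, ∑ c, E a c * φ c b = φ a b} ∩
        {φ | ∑ a, ∑ b, φ a b * φ a b = 1} := by
      ext φ
      simp only [hS, Set.mem_ofPred_eq, Set.mem_inter_iff, PfL, SInv, ip, Matrix.of_apply]
      constructor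
      · rintro ⟨⟨h1, h2, h3⟩, h4⟩
        refine ⟨⟨⟨fun a b => ?_, h2⟩, fun a b => ?_⟩, h4⟩
        · simpa using congrFun (congrFun h1 a) b
        · simpa [Matrix.mul_apply] using congrFun (congrFun h3 a) b
      · rintro ⟨⟨⟨h1, h2⟩, h3⟩, h4⟩
        refine ⟨⟨?_, h2, ?_⟩, h4⟩
        · ext a b; simpa using h1 a b
        · ext a b; simpa [Matrix.mul_apply] using h3 a b
    rw [e1]
    refine ((IsClosed.inter ?_ ?_).inter ?_).inter ?_
    · simp only [Set.ofPred_forall]
      refine isClosed_iInter fun a => isClosed_iInter fun b => ?_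
      exact isClosed_eq (by fun_prop) (by fun_prop)
    · simp only [Set.ofPred_forall]
      refine isClosed_iInter fun σ => isClosed_iInter fun a => isClosed_iInter fun b => ?_
      exact isClosed_eq (by fun_prop) (by fun_prop)
    · simp only [Set.ofPred_forall]
      refine isClosed_iInter fun a => isClosed_iInter fun b => ?_
      exact isClosed_eq (by fun_prop) (by fun_prop)
    · exact isClosed_eq (by fun_prop) (by fun_prop)
  have hbd : Bornology.IsBounded S := by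
    rw [isBounded_iff_forall_norm_le]
    refine ⟨1, fun φ hφ => ?_⟩
    rw [pi_norm_le_iff_of_nonneg zero_le_one]
    intro a
    rw [pi_norm_le_iff_of_nonneg zero_le_one]
    intro b
    have h1 : φ a b * φ a b ≤ 1 := by
      rw [← hφ.2]
      unfold ip
      have e1 : φ a b * φ a b ≤ ∑ b', φ a b' * φ a b' :=
        Finset.single_le_sum (f := fun b' => φ a b' * φ a b') (fun i _ => mul_self_nonneg _)
          (Finset.mem_univ b)
      have e2 : ∑ b', φ a b' * φ a b' ≤ ∑ a', ∑ b', φ a' b' * φ a' b' :=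
        Finset.single_le_sum (f := fun a' => ∑ b', φ a' b' * φ a' b')
          (fun i _ => Finset.sum_nonneg fun j _ => mul_self_nonneg _) (Finset.mem_univ a)
      exact e1.trans e2
    rw [Real.norm_eq_abs]
    exact abs_le_one_iff_mul_self_le_one.2 h1
  have hcomp : IsCompact S := Metric.isCompact_of_isClosed_isBounded hcl hbd
  have hne : S.Nonempty := ⟨_, hscale φ0 h h0⟩
  have hcont : ContinuousOn (fun φ : Wd n k → Wd n k → ℝ => ip (Matrix.of φ) (KU ε (Matrix.of φ))) S := by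
    apply Continuous.continuousOn
    unfold ip KU
    simp only [Matrix.of_apply]
    fun_prop
  obtain ⟨φ, hφS, hφmax⟩ := hcomp.exists_isMaxOn hne hcont
  refine ⟨Matrix.of φ, hφS.1, hφS.2, fun ψ hψ => ?_⟩
  by_cases hψ0 : ψ = 0
  · subst hψ0
    simp [ip]
  have hpos : 0 < ip ψ ψ := by
    rcases (ip_self_nonneg ψ).lt_or_eq with h | h
    · exact h
    · exact absurd ((ip_self_eq_zero ψ).1 h.symm) hψ0
  have h1 := hφmax (hscale ψ hψ hψ0)
  simp only [Set.mem_ofPred_eq] at h1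
  have h2 : ip ((Real.sqrt (ip ψ ψ))⁻¹ • ψ) (KU ε ((Real.sqrt (ip ψ ψ))⁻¹ • ψ))
      = (ip ψ ψ)⁻¹ * ip ψ (KU ε ψ) := by
    rw [pf_KU_smul, ip_smul_left, pf_ip_smul_right, ← mul_assoc, ← mul_inv,
      Real.mul_self_sqrt hpos.le]
  have h3 : (ip ψ ψ)⁻¹ * ip ψ (KU ε ψ) ≤ ip (Matrix.of φ) (KU ε (Matrix.of φ)) := by
    rw [← h2]; exact h1
  rw [inv_mul_le_iff₀ hpos] at h3
  linarith [h3]

theorem exists_pf (ε : Fin k → Bool) {P Q φ0 : Matrix (Wd n k) (Wd n k) ℝ} (hP : IsProj P)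
    (hPS : SInv P) (hPc : ∀ M, SInv M → M * P = P * M) (hQ : IsProj Q) (hQS : SInv Q)
    (hQb : Blk ε Q) (h0t : φ0ᵀ = φ0) (h0S : SInv φ0) (h0R : P * Q * φ0 * (Q * P) = φ0)
    (h0 : φ0 ≠ 0) :
    ∃ (φ : Matrix (Wd n k) (Wd n k) ℝ) (l : ℝ), φ.PosSemidef ∧ φ ≠ 0 ∧ SInv φ ∧
      P * Q * φ * (Q * P) = φ ∧ ip φ0 (KU ε φ0) ≤ l * ip φ0 φ0 ∧
      (KU ε φ - l • φ).PosSemidef := by
  classical
  have hQP' : Q * P = P * Q := hPc Q hQS
  obtain ⟨E, hE⟩ : ∃ E, E = P * Q := ⟨_, rfl⟩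
  have hQP : Q * P = E := by rw [hE, hQP']
  rw [← hE] at h0R
  rw [← hE]
  have hEE : E * E = E := by
    rw [hE]
    calc P * Q * (P * Q) = P * (Q * P) * Q := by simp only [mul_assoc]
      _ = (P * P) * (Q * Q) := by rw [hQP']; simp only [mul_assoc]
      _ = P * Q := by rw [hP.2, hQ.2]
  have hEt : Eᵀ = E := by rw [hE, Matrix.transpose_mul, hP.1, hQ.1, hQP']
  have hES : SInv E := by rw [hE]; exact pf_SInv_mul hPS hQS
  have hQE : Q * E = E := by
    rw [hE, ← mul_assoc, hQP', mul_assoc, hQ.2]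
  have hPE : P * E = E := by rw [hE, ← mul_assoc, hP.2]
  -- membership
  have hLL : ∀ φ : Matrix (Wd n k) (Wd n k) ℝ, PfL E φ → φ * E = φ := by
    intro φ h
    have := congrArg Matrix.transpose h.2.2
    rw [Matrix.transpose_mul, hEt, h.1] at this
    exact this
  have h0L : PfL E φ0 := by
    refine ⟨h0t, h0S, ?_⟩
    calc E * φ0 = E * (E * φ0 * (Q * P)) := by rw [h0R]
      _ = E * E * φ0 * (Q * P) := by simp only [mul_assoc]
      _ = φ0 := by rw [hEE, h0R]
  obtain ⟨ψ0, hψL, hψ1, hψmax⟩ := pf_exists_max_LL ε h0L h0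
  set l := ip ψ0 (KU ε ψ0) with hl
  obtain ⟨p, hp0, hApsd, hBpsd, hAB⟩ := exists_pos_part hψL.1
  set A := Polynomial.aeval ψ0 p with hA
  set B := A - ψ0 with hB
  obtain ⟨q, hq⟩ : ∃ q, p = Polynomial.X * q := by
    have : Polynomial.X ∣ p := Polynomial.X_dvd_iff.2 hp0
    exact this
  have hAt : Aᵀ = A := by
    have := hApsd.1
    rw [Matrix.IsHermitian, Matrix.conjTranspose_eq_transpose_of_trivial] at this
    exact this
  have hAL : PfL E A := by
    refine ⟨hAt, pf_SInv_aeval hψL.2.1 p, ?_⟩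
    rw [hA, hq, map_mul, Polynomial.aeval_X, ← mul_assoc, hψL.2.2]
  have hBL : PfL E B := by
    have := pf_LL_add hAL (pf_LL_smul (-1) hψL)
    rwa [neg_one_smul, ← sub_eq_add_neg] at this
  set φ := A + B with hφ
  have hφL : PfL E φ := pf_LL_add hAL hBL
  have hφpsd : φ.PosSemidef := hApsd.add hBpsd
  have hψAB : ψ0 = A + (-1 : ℝ) • B := by
    rw [neg_one_smul, hB]; abel
  have hABip : ip A B = 0 := pf_ip_zero_of_mul hAt hAB
  have hφφ : ip φ φ = 1 := by
    have e1 : ip φ φ = ip A A + 2 * ip A B + ip B B := by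
      rw [hφ, ip_add_left, pf_ip_add_right, pf_ip_add_right, ip_comm B A]; ring
    have e2 : ip ψ0 ψ0 = ip A A - 2 * ip A B + ip B B := by
      rw [hψAB, ip_add_left, pf_ip_add_right, pf_ip_add_right, ip_smul_left, ip_smul_left,
        pf_ip_smul_right, pf_ip_smul_right, ip_comm B A]; ring
    rw [e1, hABip]
    rw [hψ1, hABip] at e2
    linarith
  have hform : l ≤ ip φ (KU ε φ) := by
    have e1 : ip φ (KU ε φ) = ip A (KU ε A) + 2 * ip A (KU ε B) + ip B (KU ε B) := by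
      rw [hφ, pf_KU_add, ip_add_left, pf_ip_add_right, pf_ip_add_right, pf_ip_KU_symm ε B A]; ring
    have e2 : l = ip A (KU ε A) - 2 * ip A (KU ε B) + ip B (KU ε B) := by
      rw [hl, hψAB, pf_KU_add, pf_KU_smul, ip_add_left, pf_ip_add_right, pf_ip_add_right, ip_smul_left,
        ip_smul_left, pf_ip_smul_right, pf_ip_smul_right, pf_ip_KU_symm ε B A]; ring
    have e3 : 0 ≤ ip A (KU ε B) := ip_psd_nonneg hApsd (KU_psd ε hBpsd)
    linarith
  have hφne : φ ≠ 0 := by
    intro h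
    rw [h] at hφφ
    simp [ip] at hφφ
  -- variation
  have hvar : ∀ ψ, PfL E ψ → ip ψ (KU ε φ) = l * ip ψ φ := by
    intro ψ hψ
    set a := ip ψ (KU ε φ) - l * ip ψ φ with ha
    set b := l * ip ψ ψ - ip ψ (KU ε ψ) with hb
    have hb0 : 0 ≤ b := by
      have := hψmax ψ hψ
      linarith
    have key : ∀ t : ℝ, 2 * t * a ≤ t ^ 2 * b := by
      intro t
      have h1 := hψmax (φ + t • ψ) (pf_LL_add hφL (pf_LL_smul t hψ))
      rw [pf_ip_KU_quad, pf_ip_quad, hφφ] at h1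
      rw [ha, hb]
      nlinarith [h1, hform]
    have ha0 : a = 0 := by
      by_contra hne
      rcases hb0.lt_or_eq with hbp | hbz
      · have := key (a / b)
        have e1 : 2 * (a / b) * a = 2 * (a ^ 2 / b) := by ring
        have e2 : (a / b) ^ 2 * b = a ^ 2 / b := by
          field_simp
        rw [e1, e2] at this
        have : 0 < a ^ 2 / b := by positivity
        linarith
      · have := key a
        rw [← hbz] at this
        have h2 : 0 < a ^ 2 := by positivity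
        nlinarith
    linarith [ha0, ha]
  have hKS : SInv (KU ε φ) := KU_SInv ε hφL.2.1
  have hKt : (KU ε φ)ᵀ = KU ε φ := pf_KU_transpose ε hφL.1
  -- the compressed equation
  have hEK : E * KU ε φ * E = l • φ := by
    have hTL : PfL E (E * KU ε φ * E) := by
      refine ⟨?_, pf_SInv_mul (pf_SInv_mul hES hKS) hES, ?_⟩
      · rw [Matrix.transpose_mul, Matrix.transpose_mul, hEt, hKt, mul_assoc]
      · rw [← mul_assoc, ← mul_assoc, hEE]
    set η := E * KU ε φ * E + (-l) • φ with hη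
    have hηL : PfL E η := pf_LL_add hTL (pf_LL_smul _ hφL)
    have h1 : ip η (E * KU ε φ * E) = ip η (KU ε φ) := by
      rw [pf_ip_eq_trace, pf_ip_eq_trace, hηL.1]
      calc (η * (E * KU ε φ * E)).trace = ((η * E) * KU ε φ * E).trace := by
            simp only [mul_assoc]
        _ = (E * ((η * E) * KU ε φ)).trace := by rw [Matrix.trace_mul_comm]
        _ = (E * η * KU ε φ).trace := by rw [hLL η hηL, mul_assoc]
        _ = (η * KU ε φ).trace := by rw [hηL.2.2]
    have h2 : ip η η = 0 := by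
      conv_lhs => rw [hη]
      rw [← hη]
      have : ip (E * KU ε φ * E + (-l) • φ) η = ip η (E * KU ε φ * E) + (-l) * ip η φ := by
        rw [ip_add_left, ip_smul_left, ip_comm _ η, ip_comm φ η]
      rw [this, h1, hvar η hηL]
      ring
    have h3 : η = 0 := (ip_self_eq_zero η).1 h2
    rw [hη] at h3
    have := eq_neg_of_add_eq_zero_left h3
    rw [this, neg_smul, neg_neg]
  have hQφ : Q * φ = φ := by
    rw [← hφL.2.2, ← mul_assoc, hQE]
  have hφQ : φ * Q = φ := by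
    have := congrArg Matrix.transpose hQφ
    rw [Matrix.transpose_mul, hQ.1, hφL.1] at this
    exact this
  have hQK : Q * KU ε φ = KU ε φ := by
    rw [← KU_mul_left ε hQb, hQφ]
  have hKQ : KU ε φ * Q = KU ε φ := by
    rw [← KU_mul_right ε hQb, hφQ]
  have hPK : P * KU ε φ * P = l • φ := by
    rw [← hEK]
    calc P * KU ε φ * P = P * (Q * KU ε φ * Q) * P := by rw [hQK, hKQ]
      _ = E * KU ε φ * (Q * P) := by rw [hE]; simp only [mul_assoc]
      _ = E * KU ε φ * E := by rw [hQP]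
  have hcomm : KU ε φ * P = P * KU ε φ := hPc _ hKS
  have hKpsd : (KU ε φ).PosSemidef := KU_psd ε hφpsd
  have hfin : KU ε φ - l • φ = (1 - P) * KU ε φ * (1 - P) := by
    rw [← hPK]
    have e1 : P * KU ε φ * P = P * KU ε φ := by
      rw [mul_assoc, hcomm, ← mul_assoc, hP.2]
    have e2 : (1 - P) * KU ε φ * (1 - P)
        = KU ε φ - P * KU ε φ - KU ε φ * P + P * KU ε φ * P := by
      noncomm_ring
    rw [e2, hcomm, e1]
    abel
  refine ⟨φ, l, hφpsd, hφne, hφL.2.1, ?_, hψmax φ0 h0L, ?_⟩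
  · rw [hφL.2.2, hQP, hLL φ hφL]
  · rw [hfin]
    have := hKpsd.conjTranspose_mul_mul_same (1 - P)
    rw [Matrix.conjTranspose_eq_transpose_of_trivial] at this
    have h2 : (1 - P)ᵀ = 1 - P := by
      rw [Matrix.transpose_sub, Matrix.transpose_one, hP.1]
    rwa [h2] at this

end Pool.Agent.Lib.MP_0430e4_lc.QB
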