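import Pool.Agent.Lib.MP_0430e4_lc.QB.GEN

/-!
# The sum of the small invariant subspaces
-/

set_option autoImplicit false
set_option linter.unusedSectionVars false

namespace Pool.Agent.Lib.MP_0430e4_lc.QB

open Finset Tensor Matrix

variable {α : Type*} [Fintype α] [DecidableEq α]

/-- the matrices of the commutant that are fixed by `S` -/
def fixS (G : Set (Matrix α α ℝ)) (S : Matrix α α ℝ) : Submodule ℝ (Matrix α α ℝ) where
  carrier := {M | M ∈ cmt G ∧ S * M = M}
  add_mem' := by
    rintro a b ⟨ha, ha'⟩ ⟨hb, hb'⟩
    exact ⟨(cmt G).add_mem ha hb, by rw [Matrix.mul_add, ha', hb']⟩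
  zero_mem' := ⟨(cmt G).zero_mem, by rw [Matrix.mul_zero]⟩
  smul_mem' := by
    rintro c x ⟨hx, hx'⟩
    exact ⟨(cmt G).smul_mem c hx, by rw [Matrix.mul_smul, hx']⟩

theorem fixS_le (G : Set (Matrix α α ℝ)) (S : Matrix α α ℝ) : fixS G S ≤ cmt G :=
  fun _ h => h.1

private theorem rank_add_le' (A B : Matrix α α ℝ) : (A + B).rank ≤ A.rank + B.rank := by
  unfold Matrix.rank
  rw [Matrix.mulVecLin_add]
  refine (Submodule.finrank_mono (LinearMap.range_add_le A.mulVecLin B.mulVecLin)).trans ?_
  exact Submodule.finrank_add_le_finrank_add_finrank _ _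

/-- The largest projection of the commutant of `G` and its commutant that is small. -/
theorem exists_small {G : Set (Matrix α α ℝ)} (hG : ∀ g ∈ G, gᵀ ∈ G) {D : ℕ}
    (hD : Module.finrank ℝ (cmt G) ≤ D) (N : ℕ) :
    ∃ S, IsProj S ∧ S ∈ cmt G ∧ (∀ M ∈ cmt G, M * S = S * M) ∧ S.rank ≤ D * N ∧
      ∀ T, IsProj T → T ∈ cmt G → D * T.rank ≤ N → S * T = T := by
  classical
  by_contra hcon
  push Not at hcon
  have hle : ∀ S : Matrix α α ℝ, Module.finrank ℝ (fixS G S) ≤ D := fun S =>
    (Submodule.finrank_mono (fixS_le G S)).trans hD
  have hstep : ∀ m : ℕ, ∃ S, IsProj S ∧ S ∈ cmt G ∧ (∀ M ∈ cmt G, M * S = S * M) ∧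
      S.rank ≤ N * Module.finrank ℝ (fixS G S) ∧ m ≤ Module.finrank ℝ (fixS G S) := by
    intro m
    induction m with
    | zero =>
      refine ⟨0, ⟨Matrix.transpose_zero, by rw [Matrix.mul_zero]⟩, (cmt G).zero_mem, ?_, ?_,
        Nat.zero_le _⟩
      · intro M _
        rw [Matrix.mul_zero, Matrix.zero_mul]
      · rw [Matrix.rank_zero]
        exact Nat.zero_le _
    | succ m ih =>
      obtain ⟨S, hS, hSc, hScc, hSr, hSm⟩ := ih
      obtain ⟨T, hT, hTc, hTr, hST⟩ := hcon S hS hSc hScc (by
        refine hSr.trans ?_
        rw [Nat.mul_comm D N]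
        exact Nat.mul_le_mul_left N (hle S))
      obtain ⟨W, hW, hWc, hWcc, hWr, hWT⟩ := exists_gen hG hT hTc
      have hWN : W.rank ≤ N := (hWr.trans (Nat.mul_le_mul_right _ hD)).trans hTr
      have hcomm : W * S = S * W := hScc W hWc
      have hSS' : (S + W - S * W) * S = S := by
        rw [sub_mul, add_mul, hS.2, Matrix.mul_assoc, hcomm, ← Matrix.mul_assoc, hS.2]
        abel
      have hproj : IsProj (S + W - S * W) := by
        constructor
        · rw [Matrix.transpose_sub, Matrix.transpose_add, Matrix.transpose_mul, hS.1, hW.1, hcomm]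
        · have h1 : (S + W - S * W) * W = W := by
            rw [sub_mul, add_mul, Matrix.mul_assoc, hW.2]
            abel
          have h2 : (S + W - S * W) * (S * W) = S * W := by
            rw [← Matrix.mul_assoc, hSS']
          calc (S + W - S * W) * (S + W - S * W)
              = (S + W - S * W) * S + (S + W - S * W) * W - (S + W - S * W) * (S * W) := by
                rw [Matrix.mul_sub, Matrix.mul_add]
            _ = S + W - S * W := by rw [hSS', h1, h2]
      have hmemc : S + W - S * W ∈ cmt G :=
        (cmt G).sub_mem ((cmt G).add_mem hSc hWc) (cmt_mul hSc hWc)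
      refine ⟨S + W - S * W, hproj, hmemc, ?_, ?_, ?_⟩
      · intro M hM
        rw [Matrix.mul_sub, Matrix.mul_add, Matrix.sub_mul, Matrix.add_mul, hScc M hM, hWcc M hM,
          ← Matrix.mul_assoc, hScc M hM, Matrix.mul_assoc, hWcc M hM, Matrix.mul_assoc]
      · have hlt : fixS G S < fixS G (S + W - S * W) := by
          refine lt_of_le_of_ne ?_ ?_
          · rintro M ⟨hM, hM'⟩
            refine ⟨hM, ?_⟩
            rw [← hM', ← Matrix.mul_assoc, hSS']
          · intro heq
            have h1 : S + W - S * W ∈ fixS G (S + W - S * W) := ⟨hmemc, hproj.2⟩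
            rw [← heq] at h1
            have h2 : S * (S + W - S * W) = S + W - S * W := h1.2
            rw [Matrix.mul_sub, Matrix.mul_add, hS.2, ← Matrix.mul_assoc, hS.2] at h2
            have h3 : W = S * W := by
              have h4 : S = S + W - S * W := by
                rw [← h2]
                abel
              have h5 : S + W - S * W - S = W - S * W := by abel
              have h6 : W - S * W = 0 := by
                rw [← h5, ← h4, sub_self]
              exact sub_eq_zero.mp h6
            apply hST
            calc S * T = S * (W * T) := by rw [hWT]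
              _ = (S * W) * T := by rw [Matrix.mul_assoc]
              _ = W * T := by rw [← h3]
              _ = T := hWT
        have hfl := Submodule.finrank_lt_finrank_of_lt hlt
        have hr : (S + W - S * W).rank ≤ S.rank + W.rank := by
          have h1 : S + W - S * W = S + (1 - S) * W := by
            rw [Matrix.sub_mul, Matrix.one_mul]
            abel
          rw [h1]
          exact (rank_add_le' _ _).trans (Nat.add_le_add_left (Matrix.rank_mul_le_right _ _) _)
        calc (S + W - S * W).rank ≤ S.rank + W.rank := hr
          _ ≤ N * Module.finrank ℝ (fixS G S) + N := Nat.add_le_add hSr hWN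
          _ = N * (Module.finrank ℝ (fixS G S) + 1) := by ring
          _ ≤ N * Module.finrank ℝ (fixS G (S + W - S * W)) := Nat.mul_le_mul_left N hfl
      · have hlt : fixS G S < fixS G (S + W - S * W) := by
          refine lt_of_le_of_ne ?_ ?_
          · rintro M ⟨hM, hM'⟩
            refine ⟨hM, ?_⟩
            rw [← hM', ← Matrix.mul_assoc, hSS']
          · intro heq
            have h1 : S + W - S * W ∈ fixS G (S + W - S * W) := ⟨hmemc, hproj.2⟩
            rw [← heq] at h1
            have h2 : S * (S + W - S * W) = S + W - S * W := h1.2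
            rw [Matrix.mul_sub, Matrix.mul_add, hS.2, ← Matrix.mul_assoc, hS.2] at h2
            have h3 : W = S * W := by
              have h4 : S = S + W - S * W := by
                rw [← h2]
                abel
              have h5 : S + W - S * W - S = W - S * W := by abel
              have h6 : W - S * W = 0 := by
                rw [← h5, ← h4, sub_self]
              exact sub_eq_zero.mp h6
            apply hST
            calc S * T = S * (W * T) := by rw [hWT]
              _ = (S * W) * T := by rw [Matrix.mul_assoc]
              _ = W * T := by rw [← h3]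
              _ = T := hWT
        have hfl := Submodule.finrank_lt_finrank_of_lt hlt
        omega
  obtain ⟨S, -, -, -, -, h⟩ := hstep (D + 1)
  have := hle S
  omega

end Pool.Agent.Lib.MP_0430e4_lc.QB
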