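import Pool.Agent.Lib.MP_0430e4_lc.QB.Defs

/-!
# Quantum bound: tensor powers
-/

set_option autoImplicit false
set_option linter.unusedSectionVars false

namespace Pool.Agent.Lib.MP_0430e4_lc.QB

open Finset Tensor Matrix

variable {n k : ℕ}

/-- sums over words factorise -/
theorem sum_words (f : Fin n → Fin k → ℝ) :
    ∑ a : Wd n k, ∏ i, f i (a i) = ∏ i, ∑ j, f i j := by
  rw [Finset.prod_univ_sum, Fintype.piFinset_univ]

/-- double sums over words factorise -/
theorem sum_words2 (g : Fin n → Fin k → Fin k → ℝ) :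
    ∑ a : Wd n k, ∑ b : Wd n k, ∏ i, g i (a i) (b i) = ∏ i, ∑ x, ∑ y, g i x y := by
  have h1 : ∀ a : Wd n k, ∑ b : Wd n k, ∏ i, g i (a i) (b i) = ∏ i, ∑ y, g i (a i) y := by
    intro a
    exact sum_words (fun i y => g i (a i) y)
  simp only [h1]
  exact sum_words (fun i x => ∑ y, g i x y)

theorem tp_mul (X Y : Matrix (Fin k) (Fin k) ℝ) : tp n X * tp n Y = tp n (X * Y) := by
  ext a b
  simp only [tp, Matrix.mul_apply, Matrix.of_apply]
  rw [← sum_words (fun i j => X (a i) j * Y j (b i))]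
  refine Finset.sum_congr rfl fun c _ => ?_
  rw [Finset.prod_mul_distrib]

theorem tp_one : tp n (1 : Matrix (Fin k) (Fin k) ℝ) = 1 := by
  ext a b
  simp only [tp, Matrix.of_apply, Matrix.one_apply]
  by_cases h : a = b
  · subst h
    simp
  · rw [if_neg h]
    obtain ⟨i, hi⟩ := Function.ne_iff.mp h
    exact Finset.prod_eq_zero (Finset.mem_univ i) (if_neg hi)

theorem tp_transpose (X : Matrix (Fin k) (Fin k) ℝ) : (tp n X)ᵀ = tp n Xᵀ := by
  ext a b
  simp only [tp, Matrix.transpose_apply, Matrix.of_apply]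

theorem tp_SInv (X : Matrix (Fin k) (Fin k) ℝ) : SInv (tp n X) := by
  intro σ a b
  simp only [tp, Matrix.of_apply, Function.comp_apply]
  exact Equiv.prod_comp σ (fun i => X (a i) (b i))

theorem tp_trace (X : Matrix (Fin k) (Fin k) ℝ) : (tp n X).trace = X.trace ^ n := by
  simp only [Matrix.trace, Matrix.diag_apply, tp, Matrix.of_apply]
  rw [sum_words (fun _ j => X j j)]
  simp

theorem bdp_tp (ε : Fin k → Bool) (X : Matrix (Fin k) (Fin k) ℝ) :
    bdp ε (tp n X) = tp n (blk ε X) := by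
  ext a b
  simp only [bdp, blk, tp, Matrix.of_apply]
  by_cases h : yw ε a = yw ε b
  · rw [if_pos h]
    refine Finset.prod_congr rfl fun i _ => ?_
    have hi : ε (a i) = ε (b i) := congrFun h i
    rw [if_pos hi]
  · rw [if_neg h]
    obtain ⟨i, hi⟩ := Function.ne_iff.mp h
    have hi' : ¬ ε (a i) = ε (b i) := hi
    exact (Finset.prod_eq_zero (Finset.mem_univ i) (if_neg hi')).symm

theorem ip_tp (X Y : Matrix (Fin k) (Fin k) ℝ) : ip (tp n X) (tp n Y) = (ip X Y) ^ n := by
  simp only [ip, tp, Matrix.of_apply]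
  have h1 : ∀ a b : Wd n k, (∏ i, X (a i) (b i)) * ∏ i, Y (a i) (b i) =
      ∏ i, X (a i) (b i) * Y (a i) (b i) := fun a b => Finset.prod_mul_distrib.symm
  simp only [h1]
  rw [sum_words2 (fun _ x y => X x y * Y x y)]
  simp

/-- for each `i` the sum over `a, b` of `sgn (a i) sgn (b i) ∏ j, S (a j) (b j)^2` factorises -/
theorem ip_KU_tp (ε : Fin k → Bool) {S : Matrix (Fin k) (Fin k) ℝ} (hS : ip S S = 1) :
    ip (tp n S) (KU ε (tp n S)) = n * sS ε S := by
  have hS' : ∑ x, ∑ y, S x y ^ 2 = 1 := by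
    rw [← hS]
    simp only [ip, sq]
  have key : ∀ i : Fin n, ∑ a : Wd n k, ∑ b : Wd n k,
      (sgn ε (a i) * sgn ε (b i)) * ∏ j, S (a j) (b j) ^ 2 = sS ε S := by
    intro i
    have h1 : ∀ a b : Wd n k, (sgn ε (a i) * sgn ε (b i)) * ∏ j, S (a j) (b j) ^ 2 =
        ∏ j, ((if j = i then sgn ε (a j) * sgn ε (b j) else 1) * S (a j) (b j) ^ 2) := by
      intro a b
      rw [Finset.prod_mul_distrib]
      congr 1
      rw [Finset.prod_ite_eq' Finset.univ i (fun j => sgn ε (a j) * sgn ε (b j)),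
        if_pos (Finset.mem_univ i)]
    simp only [h1]
    rw [sum_words2 (fun j x y => (if j = i then sgn ε x * sgn ε y else 1) * S x y ^ 2)]
    have h2 : ∀ j : Fin n, ∑ x, ∑ y, (if j = i then sgn ε x * sgn ε y else 1) * S x y ^ 2 =
        if j = i then sS ε S else 1 := by
      intro j
      by_cases h : j = i
      · simp only [if_pos h, sS]
      · simp only [if_neg h, one_mul]
        exact hS'
    simp only [h2]
    rw [Finset.prod_ite_eq' Finset.univ i (fun _ => sS ε S), if_pos (Finset.mem_univ i)]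
  have h0 : ip (tp n S) (KU ε (tp n S)) = ∑ i : Fin n, ∑ a : Wd n k, ∑ b : Wd n k,
      (sgn ε (a i) * sgn ε (b i)) * ∏ j, S (a j) (b j) ^ 2 := by
    simp only [ip, KU, kap, tp, Matrix.of_apply]
    have h3 : ∀ a b : Wd n k, (∏ i, S (a i) (b i)) *
        ((∑ i, sgn ε (a i) * sgn ε (b i)) * ∏ i, S (a i) (b i)) =
        ∑ i : Fin n, (sgn ε (a i) * sgn ε (b i)) * ∏ j, S (a j) (b j) ^ 2 := by
      intro a b
      rw [← Finset.sum_mul, Finset.prod_pow]
      ring
    simp only [h3]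
    rw [Finset.sum_comm' (t' := Finset.univ) (s' := fun _ => Finset.univ) (by simp)]
    have h4 : ∀ a : Wd n k, ∑ b : Wd n k, ∑ i : Fin n,
        (sgn ε (a i) * sgn ε (b i)) * ∏ j, S (a j) (b j) ^ 2 = ∑ i : Fin n, ∑ b : Wd n k,
        (sgn ε (a i) * sgn ε (b i)) * ∏ j, S (a j) (b j) ^ 2 := fun a => Finset.sum_comm
    rw [Finset.sum_comm]
    simp only [h4]
    exact Finset.sum_comm
  rw [h0]
  simp only [key]
  simp

end Pool.Agent.Lib.MP_0430e4_lc.QB
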