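import Pool.Agent.Lib.MP_0430e4_lc.QB.RAY
import Pool.Agent.Lib.MP_0430e4_lc.QB.SMALL
import Pool.Agent.Lib.MP_0430e4_lc.QB.TRSQ
import Pool.Agent.Lib.MP_0430e4_lc.QB.IP2
import Pool.Agent.Lib.MP_0430e4_lc.QB.HAD2
import Pool.Agent.Lib.MP_0430e4_lc.QB.TENS
import Pool.Agent.Lib.MP_0430e4_lc.QB.CERT
import Pool.Agent.Lib.MP_0430e4_lc.QB.PF
import Pool.Agent.Lib.MP_0430e4_lc.QB.FLAT
import Pool.Agent.Lib.MP_0430e4_lc.QB.DIM1
import Pool.Agent.Lib.MP_0430e4_lc.QB.DIM2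

/-!
# Quantum bound: the finite bound
-/

set_option autoImplicit false
set_option linter.unusedSectionVars false

namespace Pool.Agent.Lib.MP_0430e4_lc.QB

open Finset Tensor Matrix

variable {n k : ℕ} {α : Type*} [Fintype α] [DecidableEq α]

/-! ## Auxiliary facts -/

theorem asm_proj_mul {P Q : Matrix α α ℝ} (hP : IsProj P) (hQ : IsProj Q) (h : P * Q = Q * P) :
    IsProj (P * Q) := by
  refine ⟨?_, ?_⟩
  · rw [Matrix.transpose_mul, hP.1, hQ.1, h]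
  · calc P * Q * (P * Q) = P * (Q * P) * Q := by simp only [Matrix.mul_assoc]
      _ = P * (P * Q) * Q := by rw [h]
      _ = (P * P) * (Q * Q) := by simp only [Matrix.mul_assoc]
      _ = P * Q := by rw [hP.2, hQ.2]

theorem asm_proj_sub {P : Matrix α α ℝ} (hP : IsProj P) : IsProj (1 - P) := by
  refine ⟨?_, ?_⟩
  · rw [Matrix.transpose_sub, hP.1, Matrix.transpose_one]
  · rw [Matrix.sub_mul, Matrix.one_mul, Matrix.mul_sub, Matrix.mul_one, hP.2, sub_self, sub_zero]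

/-- compression by `P Q` moves `A` by at most `2 (‖(1-P) A‖ + ‖(1-Q) A‖)` -/
theorem asm_compress {P R A : Matrix α α ℝ} (hP : IsProj P) (hR : IsProj R)
    (h : P * R = R * P) (hA : Aᵀ = A) {η : ℝ} (hη : 0 ≤ η)
    (h1 : ip ((1 - P) * A) ((1 - P) * A) ≤ η ^ 2) (h2 : ip (R * A) (R * A) ≤ η ^ 2) :
    ip (A - P * (1 - R) * A * ((1 - R) * P)) (A - P * (1 - R) * A * ((1 - R) * P))
      ≤ (4 * η) ^ 2 := by
  have hQ : IsProj (1 - R) := asm_proj_sub hR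
  have hPQ : P * (1 - R) = (1 - R) * P := by
    rw [Matrix.mul_sub, Matrix.sub_mul, Matrix.mul_one, Matrix.one_mul, h]
  have hW : IsProj (P * (1 - R)) := asm_proj_mul hP hQ hPQ
  set W : Matrix α α ℝ := P * (1 - R) with hWdef
  rw [← hPQ]
  have hW1 : IsProj (1 - W) := asm_proj_sub hW
  -- norm of (1 - W) A
  have e1 : (1 - W) * A = (1 - P) * A + P * (R * A) := by
    rw [hWdef]
    noncomm_ring
  have n1 : Real.sqrt (ip ((1 - P) * A) ((1 - P) * A)) ≤ η := by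
    rw [← Real.sqrt_sq hη]
    exact Real.sqrt_le_sqrt h1
  have n2 : Real.sqrt (ip (P * (R * A)) (P * (R * A))) ≤ η := by
    rw [← Real.sqrt_sq hη]
    exact Real.sqrt_le_sqrt ((ip_proj_le hP _).trans h2)
  have n3 : Real.sqrt (ip ((1 - W) * A) ((1 - W) * A)) ≤ 2 * η := by
    rw [e1]
    refine (ip_tri _ _).trans ?_
    linarith
  have n4 : Real.sqrt (ip (A * (1 - W)) (A * (1 - W))) ≤ 2 * η := by
    have e2 : A * (1 - W) = ((1 - W) * A)ᵀ := by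
      rw [Matrix.transpose_mul, hA, hW1.1]
    rw [e2, ip_transpose]
    exact n3
  have n5 : Real.sqrt (ip (W * (A * (1 - W))) (W * (A * (1 - W)))) ≤ 2 * η :=
    (Real.sqrt_le_sqrt (ip_proj_le hW _)).trans n4
  have e3 : A - W * A * W = (1 - W) * A + W * (A * (1 - W)) := by
    noncomm_ring
  have n6 : Real.sqrt (ip (A - W * A * W) (A - W * A * W)) ≤ 4 * η := by
    rw [e3]
    refine (ip_tri _ _).trans ?_
    linarith
  have n7 := Real.sq_sqrt (ip_self_nonneg (A - W * A * W))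
  rw [← n7]
  exact pow_le_pow_left₀ (Real.sqrt_nonneg _) n6 2

theorem asm_SInv_mul {A B : Matrix (Wd n k) (Wd n k) ℝ} (hA : SInv A) (hB : SInv B) :
    SInv (A * B) := by
  rw [← mem_cmt_G1] at hA hB ⊢
  exact cmt_mul hA hB

theorem asm_SInv_one_sub {A : Matrix (Wd n k) (Wd n k) ℝ} (hA : SInv A) : SInv (1 - A) := by
  rw [← mem_cmt_G1] at hA ⊢
  exact (cmt (G1 n k)).sub_mem cmt_one hA

theorem asm_Blk_one_sub {ε : Fin k → Bool} {A : Matrix (Wd n k) (Wd n k) ℝ} (hA : SInv A)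
    (hB : Blk ε A) : Blk ε (1 - A) := by
  have h : A ∈ cmt (G2 n ε) := (mem_cmt_G2 ε A).2 ⟨hA, hB⟩
  exact ((mem_cmt_G2 ε (1 - A)).1 ((cmt (G2 n ε)).sub_mem cmt_one h)).2

theorem finite_bound (ε : Fin k → Bool) {S : Matrix (Fin k) (Fin k) ℝ} (hS : Sᵀ = S)
    (htr : ip S S = 1) (hn : 0 < n) {N1 N2 : ℕ} (hN2 : 0 < N2) {η : ℝ} (hη0 : 0 ≤ η)
    (hη : η ≤ 1 / 16) {T1 : Matrix (Wd n k) (Wd n k) ℝ} (hT1 : IsProj T1) (hT1S : SInv T1)
    (hT1r : (n + 1) ^ (k * k) * T1.rank ≤ N1) (h1 : ip (1 - T1) (tp n (S * S)) ≤ η ^ 2)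
    (h2 : ∀ R : Matrix (Wd n k) (Wd n k) ℝ, IsProj R → R.rank ≤ (n + 1) ^ (k * k) * N2 →
      ip R (tp n (blk ε (S * S))) ≤ η ^ 2) :
    ∃ (h : (Fin n → Bool) → ℝ) (l : ℝ), IsCert l h ∧ n * (sS ε S - 80 * η) ≤ l ∧
      Tensor.val h ≤ 2 ^ n * ((n + 1) ^ (k * k)) ^ 2 * N1 / N2 := by
  obtain ⟨P, hP, hPc1, hPcomm, hPr, hPT⟩ :=
    exists_small (G1_transpose (n := n) (k := k)) (finrank_G1 (n := n) (k := k)) N1
  obtain ⟨R, hR, hRc2, hRcomm, hRr, hRT⟩ :=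
    exists_small (G2_transpose (n := n) ε) (finrank_G2 (n := n) ε) N2
  have hPS : SInv P := (mem_cmt_G1 P).1 hPc1
  obtain ⟨hRS, hRB⟩ := (mem_cmt_G2 ε R).1 hRc2
  have hPc : ∀ M, SInv M → M * P = P * M := fun M hM => hPcomm M ((mem_cmt_G1 M).2 hM)
  have hPR : P * R = R * P := (hPc R hRS).symm
  have hQ : IsProj (1 - R) := asm_proj_sub hR
  have hQS : SInv (1 - R) := asm_SInv_one_sub hRS
  have hQB : Blk ε (1 - R) := asm_Blk_one_sub hRS hRB
  have hPQ : P * (1 - R) = (1 - R) * P := (hPc _ hQS).symm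
  have hPT1 : P * T1 = T1 := hPT T1 hT1 ((mem_cmt_G1 T1).2 hT1S) hT1r
  -- the tensor power
  set A : Matrix (Wd n k) (Wd n k) ℝ := tp n S with hAdef
  have hAt : Aᵀ = A := by rw [hAdef, tp_transpose, hS]
  have hAS : SInv A := tp_SInv S
  have hAA : ip A A = 1 := by rw [hAdef, ip_tp, htr, one_pow]
  have hA2 : A * A = tp n (S * S) := tp_mul S S
  have hK : ip A (KU ε A) = n * sS ε S := ip_KU_tp ε htr
  have hY : (tp n (S * S)).PosSemidef := by
    have h := Matrix.posSemidef_conjTranspose_mul_self A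
    rw [Matrix.conjTranspose_eq_transpose_of_trivial, hAt, hA2] at h
    exact h
  have b1 : ip ((1 - P) * A) ((1 - P) * A) ≤ η ^ 2 := by
    rw [ip_proj_mul (asm_proj_sub hP) hAt, hA2]
    exact (ip_one_sub_le hP hT1 hPT1 hY).trans h1
  have b2 : ip (R * A) (R * A) ≤ η ^ 2 := by
    rw [ip_proj_mul hR hAt, hA2, ip_blk ε hRB, bdp_tp]
    exact h2 R hR hRr
  have hd := asm_compress hP hR hPR hAt hη0 b1 b2
  set φ0 : Matrix (Wd n k) (Wd n k) ℝ := P * (1 - R) * A * ((1 - R) * P) with hφ0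
  have hθ1 : 4 * η ≤ 1 / 4 := by linarith
  obtain ⟨r1, r2⟩ := rayleigh_perturb ε hn hAA (by positivity : 0 ≤ 4 * η) hθ1 hd hK
  have h0t : φ0ᵀ = φ0 := by
    rw [hφ0]
    simp only [Matrix.transpose_mul, hAt, hP.1, hQ.1, Matrix.mul_assoc]
  have h0S : SInv φ0 :=
    asm_SInv_mul (asm_SInv_mul (asm_SInv_mul hPS hQS) hAS) (asm_SInv_mul hQS hPS)
  have hW : IsProj (P * (1 - R)) := asm_proj_mul hP hQ hPQ
  have h0R : P * (1 - R) * φ0 * ((1 - R) * P) = φ0 := by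
    rw [hφ0, ← hPQ]
    calc P * (1 - R) * (P * (1 - R) * A * (P * (1 - R))) * (P * (1 - R))
        = (P * (1 - R) * (P * (1 - R))) * A * ((P * (1 - R)) * (P * (1 - R))) := by
          simp only [Matrix.mul_assoc]
      _ = P * (1 - R) * A * (P * (1 - R)) := by rw [hW.2]
  obtain ⟨φ, l, f1, f2, f3, f4, f5, f6⟩ :=
    exists_pf ε hP hPS hPc hQ hQS hQB h0t h0S h0R r2
  refine ⟨hq ε φ, l, isCert_hq ε f1 f2 f6, ?_, ?_⟩
  · have hpos : 0 < ip φ0 φ0 := by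
      refine lt_of_le_of_ne (ip_self_nonneg _) fun h => r2 ?_
      exact (ip_self_eq_zero φ0).1 h.symm
    have h3 : n * (sS ε S - 20 * (4 * η)) * ip φ0 φ0 ≤ l * ip φ0 φ0 := r1.trans f5
    have h4 := le_of_mul_le_mul_right h3 hpos
    calc (n : ℝ) * (sS ε S - 80 * η) = n * (sS ε S - 20 * (4 * η)) := by ring
      _ ≤ l := h4
  · rw [val_hq]
    have hpos : 0 < ip φ φ := by
      refine lt_of_le_of_ne (ip_self_nonneg _) fun h => f2 ?_
      exact (ip_self_eq_zero φ).1 h.symm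
    have hRφ : R * φ = 0 := by
      have hRQ : R * (P * (1 - R)) = 0 := by
        rw [← Matrix.mul_assoc, ← hPR, Matrix.mul_assoc, Matrix.mul_sub, Matrix.mul_one, hR.2,
          sub_self, Matrix.mul_zero]
      calc R * φ = R * (P * (1 - R) * φ * ((1 - R) * P)) := by rw [f4]
        _ = (R * (P * (1 - R))) * φ * ((1 - R) * P) := by simp only [Matrix.mul_assoc]
        _ = 0 := by rw [hRQ, Matrix.zero_mul, Matrix.zero_mul]
    have hRe : R * bdp ε φ = 0 := by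
      rw [← bdp_mul_left ε hRB, hRφ]
      ext a b
      simp [bdp]
    have hec : bdp ε φ ∈ cmt (G2 n ε) :=
      (mem_cmt_G2 ε _).2 ⟨bdp_SInv ε f3, bdp_Blk ε φ⟩
    have hfl := flat hRT (bdp_psd ε f1) hec hRe
    rw [bdp_trace] at hfl
    have hPφ : P * φ = φ := by
      calc P * φ = P * (P * (1 - R) * φ * ((1 - R) * P)) := by rw [f4]
        _ = (P * P) * (1 - R) * φ * ((1 - R) * P) := by simp only [Matrix.mul_assoc]
        _ = φ := by rw [hP.2, f4]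
    have htr2 := trace_sq_le hP hPφ
    have hPr' : (P.rank : ℝ) ≤ ((n + 1) ^ (k * k) : ℕ) * N1 := by exact_mod_cast hPr
    have hD : (((n + 1) ^ (k * k) : ℕ) : ℝ) = ((n : ℝ) + 1) ^ (k * k) := by push_cast; rfl
    rw [hD] at hPr' hfl
    set D : ℝ := ((n : ℝ) + 1) ^ (k * k) with hDdef
    have hD0 : 0 ≤ D := by positivity
    have hN2' : (0 : ℝ) < N2 := by exact_mod_cast hN2
    have h5 : (N2 : ℝ) * ip (bdp ε φ) (bdp ε φ) ≤ D * (D * N1 * ip φ φ) := by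
      refine hfl.trans (mul_le_mul_of_nonneg_left (htr2.trans ?_) hD0)
      exact mul_le_mul_of_nonneg_right hPr' hpos.le
    rw [div_le_div_iff₀ hpos hN2']
    calc 2 ^ n * ip (bdp ε φ) (bdp ε φ) * N2 = 2 ^ n * (N2 * ip (bdp ε φ) (bdp ε φ)) := by ring
      _ ≤ 2 ^ n * (D * (D * N1 * ip φ φ)) := mul_le_mul_of_nonneg_left h5 (by positivity)
      _ = 2 ^ n * D ^ 2 * N1 * ip φ φ := by ring

end Pool.Agent.Lib.MP_0430e4_lc.QB
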