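import Pool.Agent.Lib.MP_0430e4_lc.QB.DIM1

/-!
# The dimensions of the commutants
-/

set_option autoImplicit false
set_option linter.unusedSectionVars false

namespace Pool.Agent.Lib.MP_0430e4_lc.QB

open Finset Tensor Matrix

variable {n k : ℕ}

/-- the type of a pair of words -/
def DIM2_ty (a b : Wd n k) : Fin k × Fin k → Fin (n + 1) := fun c =>
  ⟨(univ.filter fun i => (a i, b i) = c).card, by
    have := Finset.card_filter_le (univ : Finset (Fin n)) (fun i => (a i, b i) = c)
    rw [Finset.card_univ, Fintype.card_fin] at this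
    omega⟩

theorem DIM2_perm {β : Type*} [DecidableEq β] (f g : Fin n → β)
    (h : ∀ c, (univ.filter fun i => f i = c).card = (univ.filter fun i => g i = c).card) :
    ∃ σ : Equiv.Perm (Fin n), f ∘ σ = g := by
  have e : ∀ c, Nonempty ({i // g i = c} ≃ {i // f i = c}) := by
    intro c
    refine ⟨Fintype.equivOfCardEq ?_⟩
    rw [Fintype.card_subtype, Fintype.card_subtype]
    exact (h c).symm
  refine ⟨(Equiv.sigmaFiberEquiv g).symm.trans
    ((Equiv.sigmaCongrRight fun c => (e c).some).trans (Equiv.sigmaFiberEquiv f)), ?_⟩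
  funext i
  simp only [Function.comp_apply, Equiv.trans_apply]
  have h1 : (Equiv.sigmaFiberEquiv g).symm i = ⟨g i, ⟨i, rfl⟩⟩ := by
    rw [Equiv.symm_apply_eq]
    rfl
  rw [h1]
  simp only [Equiv.sigmaCongrRight_apply, Equiv.sigmaFiberEquiv_apply]
  exact ((e (g i)).some ⟨i, rfl⟩).2

theorem DIM2_ty_eq {a b a' b' : Wd n k} (h : DIM2_ty a b = DIM2_ty a' b') :
    ∃ σ : Equiv.Perm (Fin n), a ∘ σ = a' ∧ b ∘ σ = b' := by
  obtain ⟨σ, hσ⟩ := DIM2_perm (fun i => (a i, b i)) (fun i => (a' i, b' i)) (by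
    intro c
    have := congrArg Fin.val (congrFun h c)
    exact this)
  refine ⟨σ, ?_, ?_⟩
  · funext i
    exact congrArg Prod.fst (congrFun hσ i)
  · funext i
    exact congrArg Prod.snd (congrFun hσ i)

/-- the value of a matrix at a type -/
noncomputable def DIM2_val : cmt (G1 n k) →ₗ[ℝ] ((Fin k × Fin k → Fin (n + 1)) → ℝ) := by
  classical
  exact
  { toFun := fun M t =>
      if h : ∃ p : Wd n k × Wd n k, DIM2_ty p.1 p.2 = t then
        (M : Matrix (Wd n k) (Wd n k) ℝ) h.choose.1 h.choose.2 else 0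
    map_add' := by
      intro M N
      funext t
      by_cases h : ∃ p : Wd n k × Wd n k, DIM2_ty p.1 p.2 = t
      · simp only [dif_pos h, Pi.add_apply, Submodule.coe_add, Matrix.add_apply]
      · simp only [dif_neg h, Pi.add_apply, add_zero]
    map_smul' := by
      intro c M
      funext t
      by_cases h : ∃ p : Wd n k × Wd n k, DIM2_ty p.1 p.2 = t
      · simp only [dif_pos h, Pi.smul_apply, Submodule.coe_smul, Matrix.smul_apply,
          RingHom.id_apply]
      · simp only [dif_neg h, Pi.smul_apply, smul_zero] }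

theorem DIM2_val_inj : Function.Injective (DIM2_val : cmt (G1 n k) →ₗ[ℝ] _) := by
  classical
  rw [injective_iff_map_eq_zero]
  intro M hM
  apply Subtype.ext
  ext a b
  have h1 := congrFun hM (DIM2_ty a b)
  have hex : ∃ p : Wd n k × Wd n k, DIM2_ty p.1 p.2 = DIM2_ty a b := ⟨(a, b), rfl⟩
  have h2 : (M : Matrix (Wd n k) (Wd n k) ℝ) hex.choose.1 hex.choose.2 = 0 := by
    have h3 : (DIM2_val M) (DIM2_ty a b) =
        (M : Matrix (Wd n k) (Wd n k) ℝ) hex.choose.1 hex.choose.2 := by
      show (if h : ∃ p : Wd n k × Wd n k, DIM2_ty p.1 p.2 = DIM2_ty a b then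
        (M : Matrix (Wd n k) (Wd n k) ℝ) h.choose.1 h.choose.2 else 0) = _
      rw [dif_pos hex]
    rw [← h3]
    exact h1
  obtain ⟨σ, ha, hb⟩ := DIM2_ty_eq hex.choose_spec
  have h4 := (mem_cmt_G1 (M : Matrix (Wd n k) (Wd n k) ℝ)).mp M.2 σ hex.choose.1 hex.choose.2
  rw [ha, hb] at h4
  rw [h4, h2]
  simp

theorem finrank_G1 : Module.finrank ℝ (cmt (G1 n k)) ≤ (n + 1) ^ (k * k) := by
  have h := LinearMap.finrank_le_finrank_of_injective (DIM2_val_inj (n := n) (k := k))
  refine h.trans (le_of_eq ?_)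
  rw [Module.finrank_fintype_fun_eq_card, Fintype.card_fun, Fintype.card_fin, Fintype.card_prod,
    Fintype.card_fin]

theorem finrank_G2 (ε : Fin k → Bool) :
    Module.finrank ℝ (cmt (G2 n ε)) ≤ (n + 1) ^ (k * k) := by
  refine le_trans (Submodule.finrank_mono ?_) (finrank_G1 (n := n) (k := k))
  intro M hM
  rw [mem_cmt_G1]
  exact ((mem_cmt_G2 ε M).mp hM).1

end Pool.Agent.Lib.MP_0430e4_lc.QB
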