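import Pool.Agent.Lib.MP_0430e4_lc.TensorRate

/-!
# Definitions for the quantum bound
-/

set_option autoImplicit false
set_option linter.unusedSectionVars false

namespace Pool.Agent.Lib.MP_0430e4_lc.QB

open Finset Tensor Matrix

/-- words of length `n` in `k` letters -/
abbrev Wd (n k : ℕ) := Fin n → Fin k

variable {n k : ℕ} {α : Type*} [Fintype α] [DecidableEq α]

/-- sign of a letter: `U = diag (sgn ε j)` -/
def sgn (ε : Fin k → Bool) (j : Fin k) : ℝ := if ε j = true then -1 else 1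

/-- the point of the cube belonging to a word -/
def yw (ε : Fin k → Bool) (a : Wd n k) : Fin n → Bool := fun i => ε (a i)

/-- `κ(a,b) = ∑ i, U (a i) * U (b i) = n - 2 dist (y a, y b)` -/
def kap (ε : Fin k → Bool) (a b : Wd n k) : ℝ := ∑ i, sgn ε (a i) * sgn ε (b i)

/-- `∑ i, U_i φ U_i` -/
def KU (ε : Fin k → Bool) (φ : Matrix (Wd n k) (Wd n k) ℝ) : Matrix (Wd n k) (Wd n k) ℝ :=
  Matrix.of fun a b => kap ε a b * φ a b

/-- `U_v`, `v` in the cube -/
def Um (ε : Fin k → Bool) (v : Fin n → Bool) : Matrix (Wd n k) (Wd n k) ℝ :=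
  Matrix.diagonal fun a => chi v (yw ε a)

/-- permutation matrices -/
def Pm (k : ℕ) (σ : Equiv.Perm (Fin n)) : Matrix (Wd n k) (Wd n k) ℝ :=
  Matrix.of fun a b => if b = a ∘ σ then 1 else 0

/-- invariance under the symmetric group -/
def SInv (M : Matrix (Wd n k) (Wd n k) ℝ) : Prop :=
  ∀ (σ : Equiv.Perm (Fin n)) (a b : Wd n k), M (a ∘ σ) (b ∘ σ) = M a b

/-- block diagonal: commutes with all `U_v` -/
def Blk (ε : Fin k → Bool) (M : Matrix (Wd n k) (Wd n k) ℝ) : Prop :=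
  ∀ a b, yw ε a ≠ yw ε b → M a b = 0

/-- the block diagonal part of a matrix on words -/
def bdp (ε : Fin k → Bool) (M : Matrix (Wd n k) (Wd n k) ℝ) : Matrix (Wd n k) (Wd n k) ℝ :=
  Matrix.of fun a b => if yw ε a = yw ε b then M a b else 0

/-- the block diagonal part of a `k × k` matrix: `(X + U X U)/2` -/
def blk (ε : Fin k → Bool) (X : Matrix (Fin k) (Fin k) ℝ) : Matrix (Fin k) (Fin k) ℝ :=
  Matrix.of fun i j => if ε i = ε j then X i j else 0

/-- orthogonal projections -/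
def IsProj (P : Matrix α α ℝ) : Prop := Pᵀ = P ∧ P * P = P

/-- tensor power -/
def tp (n : ℕ) (X : Matrix (Fin k) (Fin k) ℝ) : Matrix (Wd n k) (Wd n k) ℝ :=
  Matrix.of fun a b => ∏ i, X (a i) (b i)

/-- Hilbert-Schmidt inner product -/
def ip (A B : Matrix α α ℝ) : ℝ := ∑ a, ∑ b, A a b * B a b

/-- the certificate of a matrix -/
def hq (ε : Fin k → Bool) (φ : Matrix (Wd n k) (Wd n k) ℝ) (v : Fin n → Bool) : ℝ :=
  ∑ a, ∑ b, φ a b ^ 2 * (chi v (yw ε a) * chi v (yw ε b))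

/-- commutant -/
def cmt (G : Set (Matrix α α ℝ)) : Submodule ℝ (Matrix α α ℝ) where
  carrier := {M | ∀ g ∈ G, g * M = M * g}
  add_mem' := by
    intro a b ha hb g hg
    rw [mul_add, add_mul, ha g hg, hb g hg]
  zero_mem' := by
    intro g _
    simp
  smul_mem' := by
    intro c x hx g hg
    rw [Matrix.mul_smul, Matrix.smul_mul, hx g hg]

/-- the group of the first kind: permutations -/
def G1 (n k : ℕ) : Set (Matrix (Wd n k) (Wd n k) ℝ) := {g | ∃ σ : Equiv.Perm (Fin n), g = Pm k σ}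

/-- the group of the second kind: permutations and the `U_v` -/
def G2 (n : ℕ) {k : ℕ} (ε : Fin k → Bool) : Set (Matrix (Wd n k) (Wd n k) ℝ) :=
  {g | (∃ σ : Equiv.Perm (Fin n), g = Pm k σ) ∨ ∃ v : Fin n → Bool, g = Um ε v}

/-- entropy in nats -/
noncomputable def Hn (lam : Fin k → ℝ) : ℝ := ∑ i, Real.negMulLog (lam i)

/-- `tr (S U S U)` -/
def sS (ε : Fin k → Bool) (S : Matrix (Fin k) (Fin k) ℝ) : ℝ :=
  ∑ i, ∑ j, sgn ε i * sgn ε j * S i j ^ 2

end Pool.Agent.Lib.MP_0430e4_lc.QB
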