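import Pool.Agent.Lib.MP_0430e4_lc.QB.Defs

/-!
# The bracket in the definition of the bound `B`
-/

set_option autoImplicit false

namespace Pool.Agent.Lib.MP_0430e4_lc.QB

/-- the bracket of the problem file -/
noncomputable def Fb (δ u : ℝ) : ℝ :=
  1 + Real.binEntropy (1 / 2 - 1 / 2 * Real.sqrt (1 - u ^ 2)) / Real.log 2
    - Real.binEntropy (1 / 2 - 1 / 2 * Real.sqrt (1 - (u ^ 2 + 2 * δ * u + 2 * δ))) / Real.log 2

end Pool.Agent.Lib.MP_0430e4_lc.QB
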