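import Pool.Agent.Lib.MP_0430e4_lc.QB.GENU

/-!
# The quantum bound, entropies given by spectral projections
-/

set_option autoImplicit false
set_option linter.unusedSectionVars false

namespace Pool.Agent.Lib.MP_0430e4_lc.QB

open Finset Tensor Matrix

variable {κ : Type*} [Fintype κ] [DecidableEq κ]

theorem pow_diag {W A : Matrix κ κ ℝ} (hW1 : W * Wᵀ = 1) (hW2 : Wᵀ * W = 1) {d : κ → ℝ}
    (hA : A = W * Matrix.diagonal d * Wᵀ) (n : ℕ) :
    A ^ n = W * Matrix.diagonal (fun i => d i ^ n) * Wᵀ := by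
  induction n with
  | zero => simp [hW1]
  | succ n ih =>
    rw [pow_succ, ih]
    conv_lhs => rw [hA]
    calc W * Matrix.diagonal (fun i => d i ^ n) * Wᵀ * (W * Matrix.diagonal d * Wᵀ)
        = W * (Matrix.diagonal (fun i => d i ^ n) * (Wᵀ * W) * Matrix.diagonal d) * Wᵀ := by
          simp only [Matrix.mul_assoc]
      _ = _ := by
        rw [hW2, Matrix.mul_one, Matrix.diagonal_mul_diagonal]
        simp only [pow_succ]

theorem pow_proj {I : Type*} [Fintype I] [DecidableEq I] {E : I → Matrix κ κ ℝ}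
    (hE : ∀ e f, E e * E f = if e = f then E e else 0) (hE1 : ∑ e, E e = 1) {y : I → ℝ}
    {A : Matrix κ κ ℝ} (hA : A = ∑ e, y e • E e) (n : ℕ) :
    A ^ n = ∑ e, y e ^ n • E e := by
  induction n with
  | zero => simp [hE1]
  | succ n ih =>
    rw [pow_succ, ih, hA, Finset.sum_mul_sum]
    apply Finset.sum_congr rfl
    intro e _
    rw [Finset.sum_eq_single e]
    · rw [Matrix.smul_mul, Matrix.mul_smul, hE, if_pos rfl, smul_smul, pow_succ]
    · intro f _ hf
      rw [Matrix.smul_mul, Matrix.mul_smul, hE, if_neg (Ne.symm hf), smul_zero, smul_zero]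
    · intro h
      exact absurd (Finset.mem_univ e) h

theorem trace_poly_diag {W A : Matrix κ κ ℝ} (hW1 : W * Wᵀ = 1) (hW2 : Wᵀ * W = 1) {d : κ → ℝ}
    (hA : A = W * Matrix.diagonal d * Wᵀ) (p : Polynomial ℝ) :
    (Polynomial.aeval A p).trace = ∑ i, p.eval (d i) := by
  induction p using Polynomial.induction_on' with
  | add p q hp hq =>
    rw [map_add, Matrix.trace_add, hp, hq, ← Finset.sum_add_distrib]
    simp only [Polynomial.eval_add]
  | monomial n a =>
    rw [Polynomial.aeval_monomial, pow_diag hW1 hW2 hA n]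
    rw [← Algebra.smul_def, Matrix.trace_smul, Matrix.trace_mul_comm, ← Matrix.mul_assoc, hW2,
      Matrix.one_mul, Matrix.trace_diagonal]
    simp [Finset.mul_sum]

theorem trace_poly_proj {I : Type*} [Fintype I] [DecidableEq I] {E : I → Matrix κ κ ℝ}
    (hE : ∀ e f, E e * E f = if e = f then E e else 0) (hE1 : ∑ e, E e = 1) {y : I → ℝ}
    {A : Matrix κ κ ℝ} (hA : A = ∑ e, y e • E e) (p : Polynomial ℝ) :
    (Polynomial.aeval A p).trace = ∑ e, p.eval (y e) * (E e).trace := by
  induction p using Polynomial.induction_on' with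
  | add p q hp hq =>
    rw [map_add, Matrix.trace_add, hp, hq, ← Finset.sum_add_distrib]
    simp only [Polynomial.eval_add, add_mul]
  | monomial n a =>
    rw [Polynomial.aeval_monomial, pow_proj hE hE1 hA n]
    rw [← Algebra.smul_def, Matrix.trace_smul, Matrix.trace_sum, smul_eq_mul, Finset.mul_sum]
    apply Finset.sum_congr rfl
    intro e _
    rw [Matrix.trace_smul, Polynomial.eval_monomial, smul_eq_mul]
    ring

theorem entropy_eq {W A : Matrix κ κ ℝ} (hW1 : W * Wᵀ = 1) (hW2 : Wᵀ * W = 1) {d : κ → ℝ}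
    (hA : A = W * Matrix.diagonal d * Wᵀ) {I : Type*} [Fintype I] [DecidableEq I]
    {E : I → Matrix κ κ ℝ} (hE : ∀ e f, E e * E f = if e = f then E e else 0)
    (hE1 : ∑ e, E e = 1) {y : I → ℝ} (hA2 : A = ∑ e, y e • E e) (f : ℝ → ℝ) :
    ∑ i, f (d i) = ∑ e, (E e).trace * f (y e) := by
  set s : Finset ℝ := (Finset.univ.image d) ∪ (Finset.univ.image y) with hs
  set p : Polynomial ℝ := Lagrange.interpolate s id f with hp
  have h1 : ∀ t ∈ s, p.eval t = f t := by
    intro t ht
    exact Lagrange.eval_interpolate_at_node (s := s) (v := id) f (Function.injective_id.injOn) ht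
  have h2 := trace_poly_diag hW1 hW2 hA p
  rw [trace_poly_proj hE hE1 hA2 p] at h2
  have h3 : ∑ i, p.eval (d i) = ∑ i, f (d i) := by
    apply Finset.sum_congr rfl
    intro i _
    exact h1 _ (by simp [hs])
  have h4 : ∑ e, p.eval (y e) * (E e).trace = ∑ e, (E e).trace * f (y e) := by
    apply Finset.sum_congr rfl
    intro e _
    rw [h1 _ (by simp [hs]), mul_comm]
  rw [← h3, ← h2, h4]

theorem diag_nonneg_of_psd {W A : Matrix κ κ ℝ} (hW2 : Wᵀ * W = 1) {d : κ → ℝ}
    (hA : A = W * Matrix.diagonal d * Wᵀ) (hp : A.PosSemidef) (i : κ) : 0 ≤ d i := by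
  have h1 := diag_unique_mul hW2 hA
  have h2 : (Wᵀ * A * W).PosSemidef := by
    have := hp.conjTranspose_mul_mul_same W
    rwa [Matrix.conjTranspose_eq_transpose_of_trivial] at this
  rw [h1] at h2
  have h3 := h2.diag_nonneg (i := i)
  simpa using h3

theorem quantum_bound_P {U S : Matrix κ κ ℝ} (hU : Uᵀ = U) (hU2 : U * U = 1) (hS : Sᵀ = S)
    (htr : (S * S).trace = 1)
    {I : Type*} [Fintype I] [DecidableEq I] {E : I → Matrix κ κ ℝ}
    (hE : ∀ e f, E e * E f = if e = f then E e else 0) (hE1 : ∑ e, E e = 1) {x : I → ℝ}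
    (hX : S * S = ∑ e, x e • E e)
    {J : Type*} [Fintype J] [DecidableEq J] {F : J → Matrix κ κ ℝ}
    (hF : ∀ e f, F e * F f = if e = f then F e else 0) (hF1 : ∑ e, F e = 1) {y : J → ℝ}
    (hB : (1 / 2 : ℝ) • (S * S + U * (S * S) * U) = ∑ e, y e • F e)
    {δ : ℝ} (hδ : 0 < δ) (hs : 1 - 2 * δ ≤ (S * U * S * U).trace) :
    ell δ ≤ 1 - (∑ e, (F e).trace * Real.negMulLog (y e)
      - ∑ e, (E e).trace * Real.negMulLog (x e)) / Real.log 2 := by
  have hSSt : (S * S)ᵀ = S * S := by rw [Matrix.transpose_mul, hS]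
  have hp1 : (S * S).PosSemidef := by
    have := Matrix.posSemidef_conjTranspose_mul_self S
    rwa [Matrix.conjTranspose_eq_transpose_of_trivial, hS] at this
  have hp2 : (U * (S * S) * U).PosSemidef := by
    have := hp1.conjTranspose_mul_mul_same U
    rwa [Matrix.conjTranspose_eq_transpose_of_trivial, hU] at this
  have hp3 : ((1 / 2 : ℝ) • (S * S + U * (S * S) * U)).PosSemidef :=
    (hp1.add hp2).smul (by norm_num)
  have hBt : ((1 / 2 : ℝ) • (S * S + U * (S * S) * U))ᵀ
      = (1 / 2 : ℝ) • (S * S + U * (S * S) * U) := by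
    have := hp3.isHermitian
    rwa [Matrix.IsHermitian, Matrix.conjTranspose_eq_transpose_of_trivial] at this
  obtain ⟨V₁, a, h1, h2, h3⟩ := exists_diag hSSt
  obtain ⟨V₂, b, h4, h5, h6⟩ := exists_diag hBt
  have ha : ∀ i, 0 ≤ a i := diag_nonneg_of_psd h2 h3 hp1
  have hb : ∀ i, 0 ≤ b i := diag_nonneg_of_psd h5 h6 hp3
  have ha1 : ∑ i, a i = 1 := by
    rw [← htr, h3, Matrix.trace_mul_comm, ← Matrix.mul_assoc, h2, Matrix.one_mul,
      Matrix.trace_diagonal]
  have q := quantum_bound_U hU hU2 hS h1 h2 ha ha1 h3 h4 h5 hb h6 hδ hs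
  rw [entropy_eq h1 h2 h3 hE hE1 hX Real.negMulLog,
    entropy_eq h4 h5 h6 hF hF1 hB Real.negMulLog] at q
  exact q

end Pool.Agent.Lib.MP_0430e4_lc.QB
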