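import Pool.Agent.Lib.MP_0430e4_lc.QB.IP1
import Pool.Agent.Lib.MP_0430e4_lc.QB.HAD1

/-!
# Quantum bound: perturbation of the Rayleigh quotient
-/

set_option autoImplicit false
set_option linter.unusedSectionVars false

namespace Pool.Agent.Lib.MP_0430e4_lc.QB

open Finset Tensor Matrix

variable {n k : ℕ} {α : Type*} [Fintype α] [DecidableEq α]

/-- the absolute values of the entries -/
def absM (A : Matrix α α ℝ) : Matrix α α ℝ := Matrix.of fun a b => |A a b|

theorem ip_absM (A : Matrix α α ℝ) : ip (absM A) (absM A) = ip A A := by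
  unfold ip absM
  simp only [Matrix.of_apply, abs_mul_abs_self]

theorem abs_ip_KU_le (ε : Fin k → Bool) (A B : Matrix (Wd n k) (Wd n k) ℝ) :
    |ip A (KU ε B)| ≤ n * (Real.sqrt (ip A A) * Real.sqrt (ip B B)) := by
  have h1 : |ip A (KU ε B)| ≤ n * ip (absM A) (absM B) := by
    unfold ip
    rw [Finset.mul_sum]
    refine (Finset.abs_sum_le_sum_abs _ _).trans (Finset.sum_le_sum fun a _ => ?_)
    rw [Finset.mul_sum]
    refine (Finset.abs_sum_le_sum_abs _ _).trans (Finset.sum_le_sum fun b _ => ?_)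
    simp only [KU, absM, Matrix.of_apply, abs_mul]
    have h2 := abs_kap_le ε a b
    have h3 : 0 ≤ |A a b| * |B a b| := by positivity
    calc |A a b| * (|kap ε a b| * |B a b|) = |kap ε a b| * (|A a b| * |B a b|) := by ring
      _ ≤ n * (|A a b| * |B a b|) := mul_le_mul_of_nonneg_right h2 h3
  refine h1.trans (mul_le_mul_of_nonneg_left ?_ (Nat.cast_nonneg n))
  have h4 := (abs_le.mp (abs_ip_le (absM A) (absM B))).2
  rwa [ip_absM, ip_absM] at h4

theorem KU_add (ε : Fin k → Bool) (A B : Matrix (Wd n k) (Wd n k) ℝ) :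
    KU ε (A + B) = KU ε A + KU ε B := by
  ext a b
  simp only [KU, Matrix.of_apply, Matrix.add_apply]
  ring

theorem ip_KU_comm (ε : Fin k → Bool) (A B : Matrix (Wd n k) (Wd n k) ℝ) :
    ip A (KU ε B) = ip B (KU ε A) := by
  unfold ip KU
  refine Finset.sum_congr rfl fun a _ => Finset.sum_congr rfl fun b _ => ?_
  simp only [Matrix.of_apply]
  ring

/-- `|⟨A, K A⟩ - ⟨B, K B⟩| ≤ n ‖A-B‖ (‖A‖+‖B‖)`; `|s| ≤ 1` (if `n > 0`) -/
theorem rayleigh_perturb (ε : Fin k → Bool) {A B : Matrix (Wd n k) (Wd n k) ℝ} {s θ : ℝ}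
    (hn : 0 < n) (hB : ip B B = 1) (hθ0 : 0 ≤ θ) (hθ : θ ≤ 1 / 4)
    (hAB : ip (B - A) (B - A) ≤ θ ^ 2) (hs : ip B (KU ε B) = n * s) :
    n * (s - 20 * θ) * ip A A ≤ ip A (KU ε A) ∧ A ≠ 0 := by
  have hn' : (0 : ℝ) < n := by exact_mod_cast hn
  obtain ⟨E, hE⟩ : ∃ E, A = B + E := ⟨A - B, by abel⟩
  have hE2 : ip E E ≤ θ ^ 2 := by
    have e : B - A = (-1 : ℝ) • E := by
      rw [hE]
      simp
    rw [e, ip_smul_left, ip_comm, ip_smul_left] at hAB
    linarith
  have hsE : Real.sqrt (ip E E) ≤ θ := by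
    rw [Real.sqrt_le_iff]
    exact ⟨hθ0, hE2⟩
  have hsE0 := Real.sqrt_nonneg (ip E E)
  -- `|s| ≤ 1`
  have hs1 : |s| ≤ 1 := by
    have h := abs_ip_KU_le ε B B
    rw [hs, hB, Real.sqrt_one, mul_one, mul_one, abs_mul, abs_of_pos hn'] at h
    by_contra hc
    push Not at hc
    nlinarith
  -- the norm of `A`
  have hAA : ip A A = 1 + 2 * ip E B + ip E E := by
    rw [hE, ip_add_left, ip_comm B (B + E), ip_comm E (B + E), ip_add_left, ip_add_left, hB,
      ip_comm B E]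
    ring
  have hEB := abs_ip_le E B
  rw [hB, Real.sqrt_one, mul_one] at hEB
  have hEB' : |ip E B| ≤ θ := hEB.trans hsE
  obtain ⟨hEB1, hEB2⟩ := abs_le.mp hEB'
  have hEE0 := ip_self_nonneg E
  -- the quadratic form
  have hAK : ip A (KU ε A) = n * s + 2 * ip E (KU ε B) + ip E (KU ε E) := by
    rw [hE, KU_add, ip_add_left, ip_comm B, ip_comm E (KU ε B + KU ε E), ip_add_left, ip_add_left,
      ip_comm (KU ε B) B, hs, ip_comm (KU ε E) B, ip_comm (KU ε B) E, ip_comm (KU ε E) E,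
      ip_KU_comm ε B E]
    ring
  have hK1 := abs_ip_KU_le ε E B
  rw [hB, Real.sqrt_one, mul_one] at hK1
  have hK2 := abs_ip_KU_le ε E E
  have hK1' : |ip E (KU ε B)| ≤ n * θ := hK1.trans (mul_le_mul_of_nonneg_left hsE hn'.le)
  have hK2' : |ip E (KU ε E)| ≤ n * (θ * θ) :=
    hK2.trans (mul_le_mul_of_nonneg_left (mul_le_mul hsE hsE hsE0 hθ0) hn'.le)
  obtain ⟨hk1, -⟩ := abs_le.mp hK1'
  obtain ⟨hk2, -⟩ := abs_le.mp hK2'
  obtain ⟨hs2, hs3⟩ := abs_le.mp hs1
  have hlo : 1 / 2 ≤ ip A A := by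
    rw [hAA]
    linarith
  refine ⟨?_, ?_⟩
  · have h5 : (s - 20 * θ) * ip A A ≤ s - 2 * θ - θ * θ := by
      have h6 : s * ip A A ≤ s + 2 * θ + θ * θ := by
        have h7 : s * ip A A = s + s * (ip A A - 1) := by ring
        have h8 : |ip A A - 1| ≤ 2 * θ + θ * θ := by
          rw [abs_le]
          constructor
          · rw [hAA]; nlinarith
          · rw [hAA]; nlinarith
        have h9 : s * (ip A A - 1) ≤ 2 * θ + θ * θ := by
          calc s * (ip A A - 1) ≤ |s * (ip A A - 1)| := le_abs_self _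
            _ = |s| * |ip A A - 1| := abs_mul _ _
            _ ≤ 1 * (2 * θ + θ * θ) := by
                exact mul_le_mul hs1 h8 (abs_nonneg _) zero_le_one
            _ = 2 * θ + θ * θ := one_mul _
        linarith
      have h10 : 10 * θ ≤ 20 * θ * ip A A := by nlinarith
      nlinarith
    calc n * (s - 20 * θ) * ip A A = n * ((s - 20 * θ) * ip A A) := by ring
      _ ≤ n * (s - 2 * θ - θ * θ) := mul_le_mul_of_nonneg_left h5 hn'.le
      _ ≤ ip A (KU ε A) := by
          rw [hAK]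
          linarith
  · intro h0
    rw [h0] at hlo
    simp [ip] at hlo
    norm_num at hlo

end Pool.Agent.Lib.MP_0430e4_lc.QB
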